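import Mathlib

/-!
# Parameter genericity by Hausdorff dimension
-/

open Set Filter Topology Module
open scoped NNReal ENNReal

namespace QD24

theorem dimH_le_of_ker {X G : Type*} [NormedAddCommGroup X] [NormedSpace ℝ X]
    [FiniteDimensional ℝ X] [NormedAddCommGroup G] [NormedSpace ℝ G] (Z : Set X) (k : ℕ)
    (f : X → G) (hf : ∀ z ∈ Z, f z = 0)
    (h : ∀ z ∈ Z, ∃ f' : X →L[ℝ] G, HasStrictFDerivAt f f' z ∧
      finrank ℝ (LinearMap.ker (f' : X →ₗ[ℝ] G)) ≤ k) :
    dimH Z ≤ k := by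
  refine le_of_not_gt fun hlt => ?_
  obtain ⟨z, hz, ht⟩ := exists_mem_nhdsWithin_lt_dimH_of_lt_dimH hlt
  obtain ⟨f', hf', hk⟩ := h z hz
  obtain ⟨C, hC⟩ := Submodule.exists_isCompl (LinearMap.ker (f' : X →ₗ[ℝ] G))
  let P := Submodule.projectionOnto (LinearMap.ker (f' : X →ₗ[ℝ] G)) C hC
  let T : X →ₗ[ℝ] (LinearMap.ker (f' : X →ₗ[ℝ] G)) × G := P.prod (f' : X →ₗ[ℝ] G)
  have hT : LinearMap.ker T = ⊥ := by
    rw [LinearMap.ker_prod]
    have : LinearMap.ker P = C := Submodule.ker_projectionOnto hC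
    rw [this]
    exact hC.symm.inf_eq_bot
  obtain ⟨K, hK0, hK⟩ := T.exists_antilipschitzWith hT
  have hev := hf'.isLittleO.def (c := 1 / (2 * (K : ℝ))) (by positivity)
  obtain ⟨u, hu, v, hv, huv⟩ := mem_nhds_prod_iff.1 hev
  set t : Set X := Z ∩ (u ∩ v) with htdef
  have htm : t ∈ 𝓝[Z] z := inter_mem_nhdsWithin Z (inter_mem hu hv)
  have hlt' := ht t htm
  have key : ∀ x y : t, dist (x : X) y ≤ K * dist (P x) (P y) := by
    rintro ⟨x, hxZ, hxu, hxv⟩ ⟨y, hyZ, hyu, hyv⟩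
    have h1 := huv (⟨hxu, hyv⟩ : (x, y) ∈ u ×ˢ v)
    simp only [Set.mem_ofPred_eq, hf x hxZ, hf y hyZ, sub_self, zero_sub, norm_neg] at h1
    have h2 : dist x y ≤ K * dist (T x) (T y) := hK.le_mul_dist x y
    have h3 : dist (T x) (T y) = max (dist (P x) (P y)) (dist (f' x) (f' y)) := rfl
    rw [h3] at h2
    rcases le_total (dist (P x) (P y)) (dist (f' x) (f' y)) with hle | hle
    · rw [max_eq_right hle] at h2
      have h4 : dist (f' x) (f' y) ≤ 1 / (2 * (K : ℝ)) * dist x y := by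
        rw [dist_eq_norm, dist_eq_norm, ← map_sub]; exact h1
      have hKp : (0 : ℝ) < K := by exact_mod_cast hK0
      have h5 : (K : ℝ) * dist (f' x) (f' y) ≤ dist x y / 2 := by
        calc (K : ℝ) * dist (f' x) (f' y) ≤ K * (1 / (2 * (K : ℝ)) * dist x y) :=
              mul_le_mul_of_nonneg_left h4 hKp.le
          _ = dist x y / 2 := by field_simp
      have h6 : dist x y ≤ 0 := by linarith [dist_nonneg (x := x) (y := y)]
      show dist x y ≤ _
      have : (0 : ℝ) ≤ K * dist (P x) (P y) := by positivity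
      linarith
    · rw [max_eq_left hle] at h2
      exact h2
  have hanti : AntilipschitzWith K (fun x : t => P (x : X)) := by
    apply AntilipschitzWith.of_le_mul_dist
    exact key
  have h1 : dimH t = dimH (univ : Set t) := by
    have := (isometry_subtype_coe (s := t)).dimH_image univ
    rw [← this, image_univ, Subtype.range_coe]
  have h2 := hanti.le_dimH_image univ
  have h3 : dimH ((fun x : t => P (x : X)) '' univ) ≤
      dimH (univ : Set (LinearMap.ker (f' : X →ₗ[ℝ] G))) := dimH_mono (subset_univ _)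
  rw [Real.dimH_univ_eq_finrank] at h3
  rw [h1] at hlt'
  have h4 := lt_of_lt_of_le hlt' (h2.trans h3)
  have h5 : ((finrank ℝ (LinearMap.ker (f' : X →ₗ[ℝ] G)) : ℕ) : ℝ≥0∞) ≤ (k : ℝ≥0∞) := by
    exact_mod_cast hk
  exact absurd h4 (not_lt.2 h5)

/-- kernel of a block triangular map -/
theorem finrank_ker_block {ι : Type*} [Fintype ι] {Y S G0 G : Type*}
    [NormedAddCommGroup Y] [NormedSpace ℝ Y] [FiniteDimensional ℝ Y]
    [NormedAddCommGroup S] [NormedSpace ℝ S] [FiniteDimensional ℝ S]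
    [NormedAddCommGroup G0] [NormedSpace ℝ G0] [NormedAddCommGroup G] [NormedSpace ℝ G]
    (A : Y →ₗ[ℝ] G0) (Φ : ι → (Y × S →ₗ[ℝ] G))
    (F : Y × (ι → S) →ₗ[ℝ] G0 × (ι → G))
    (hF : ∀ y s, F (y, s) = (A y, fun a => Φ a (y, s a))) :
    finrank ℝ (LinearMap.ker F) ≤ finrank ℝ (LinearMap.ker A) +
      ∑ a, finrank ℝ (LinearMap.ker ((Φ a).comp (LinearMap.inr ℝ Y S))) := by
  -- projection to `ker A`
  let π : LinearMap.ker F →ₗ[ℝ] LinearMap.ker A :=
    LinearMap.codRestrict _ ((LinearMap.fst ℝ Y (ι → S)).comp (LinearMap.ker F).subtype)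
      (by
        rintro ⟨⟨y, s⟩, hys⟩
        have : F (y, s) = 0 := hys
        rw [hF] at this
        exact congrArg Prod.fst this)
  have h1 : finrank ℝ (LinearMap.ker F) = finrank ℝ (LinearMap.range π) +
      finrank ℝ (LinearMap.ker π) := (LinearMap.finrank_range_add_finrank_ker π).symm
  have h2 : finrank ℝ (LinearMap.range π) ≤ finrank ℝ (LinearMap.ker A) :=
    Submodule.finrank_le _
  have h3 : finrank ℝ (LinearMap.ker π) ≤
      ∑ a, finrank ℝ (LinearMap.ker ((Φ a).comp (LinearMap.inr ℝ Y S))) := by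
    have h0 : ∀ x : LinearMap.ker π, ∀ a, ((x : LinearMap.ker F) : Y × (ι → S)).2 a ∈
        LinearMap.ker ((Φ a).comp (LinearMap.inr ℝ Y S)) := by
      rintro ⟨⟨⟨y, s⟩, hys⟩, hx⟩ a
      have hy : y = 0 := congrArg Subtype.val (LinearMap.mem_ker.1 hx)
      have : F (y, s) = 0 := hys
      rw [hF] at this
      have h4 := congrFun (congrArg Prod.snd this) a
      subst hy
      exact h4
    let j0 : LinearMap.ker π →ₗ[ℝ] (∀ a, LinearMap.ker ((Φ a).comp (LinearMap.inr ℝ Y S))) :=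
      { toFun := fun x a => ⟨((x : LinearMap.ker F) : Y × (ι → S)).2 a, h0 x a⟩
        map_add' := fun x y => rfl
        map_smul' := fun c x => rfl }
    have hj0 : Function.Injective j0 := by
      rintro ⟨⟨⟨y, s⟩, hys⟩, hx⟩ ⟨⟨⟨y', s'⟩, hys'⟩, hx'⟩ hxx
      have hy : y = 0 := congrArg Subtype.val (LinearMap.mem_ker.1 hx)
      have hy' : y' = 0 := congrArg Subtype.val (LinearMap.mem_ker.1 hx')
      have hs : s = s' := by
        funext a
        exact congrArg Subtype.val (congrFun hxx a)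
      subst hy; subst hy'; subst hs
      rfl
    calc finrank ℝ (LinearMap.ker π) ≤
        finrank ℝ (∀ a, LinearMap.ker ((Φ a).comp (LinearMap.inr ℝ Y S))) :=
          LinearMap.finrank_le_finrank_of_injective hj0
      _ = _ := Module.finrank_pi_fintype ℝ
  omega

theorem gen {ι : Type*} [Fintype ι] {Y S G0 G : Type*}
    [NormedAddCommGroup Y] [NormedSpace ℝ Y] [FiniteDimensional ℝ Y]
    [NormedAddCommGroup S] [NormedSpace ℝ S] [FiniteDimensional ℝ S]
    [NormedAddCommGroup G0] [NormedSpace ℝ G0] [NormedAddCommGroup G] [NormedSpace ℝ G]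
    (Z : Set (Y × (ι → S))) (d : ℕ) (r : ι → ℕ)
    (f0 : Y → G0) (Φ : ι → Y × S → G)
    (hZ0 : ∀ z ∈ Z, f0 z.1 = 0) (hZ : ∀ z ∈ Z, ∀ a, Φ a (z.1, z.2 a) = 0)
    (h : ∀ z ∈ Z, ∃ (A : Y →L[ℝ] G0) (Φ' : ι → (Y × S →L[ℝ] G)),
      HasStrictFDerivAt f0 A z.1 ∧ finrank ℝ (LinearMap.ker (A : Y →ₗ[ℝ] G0)) ≤ d ∧
      ∀ a, HasStrictFDerivAt (Φ a) (Φ' a) (z.1, z.2 a) ∧
        finrank ℝ (LinearMap.ker (((Φ' a).comp (ContinuousLinearMap.inr ℝ Y S) : S →L[ℝ] G) :
          S →ₗ[ℝ] G)) + r a ≤ finrank ℝ S)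
    (hd : d < ∑ a, r a) (hne : Z.Nonempty) :
    dimH (Prod.snd '' Z) < (finrank ℝ (ι → S) : ENNReal) := by
  obtain ⟨z0, hz0⟩ := hne
  have hr : ∀ a, r a ≤ finrank ℝ S := fun a => by
    obtain ⟨A, Φ', -, -, hΦ⟩ := h z0 hz0
    exact le_trans (Nat.le_add_left _ _) (hΦ a).2
  set k : ℕ := d + ∑ a, (finrank ℝ S - r a) with hk
  have hk1 : k < finrank ℝ (ι → S) := by
    have h1 : finrank ℝ (ι → S) = ∑ _a : ι, finrank ℝ S := by
      rw [Module.finrank_pi_fintype]
    have h2 : ∑ a, (finrank ℝ S - r a) + ∑ a, r a = ∑ _a : ι, finrank ℝ S := by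
      rw [← Finset.sum_add_distrib]
      exact Finset.sum_congr rfl fun a _ => Nat.sub_add_cancel (hr a)
    omega
  have hdim : dimH Z ≤ k := by
    refine dimH_le_of_ker Z k
      (fun z => ((f0 z.1, fun a => Φ a (z.1, z.2 a)) : G0 × (ι → G))) ?_ ?_
    · intro z hz
      refine Prod.ext (hZ0 z hz) (funext fun a => hZ z hz a)
    · intro z hz
      obtain ⟨A, Φ', hA, hAd, hΦ⟩ := h z hz
      let E : ∀ a, (Y × (ι → S)) →L[ℝ] Y × S := fun a =>
        (ContinuousLinearMap.fst ℝ Y (ι → S)).prod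
          ((ContinuousLinearMap.proj a).comp (ContinuousLinearMap.snd ℝ Y (ι → S)))
      let F' : (Y × (ι → S)) →L[ℝ] G0 × (ι → G) :=
        (A.comp (ContinuousLinearMap.fst ℝ Y (ι → S))).prod
          (ContinuousLinearMap.pi fun a => (Φ' a).comp (E a))
      refine ⟨F', ?_, ?_⟩
      · refine HasStrictFDerivAt.prodMk ?_ ?_
        · exact HasStrictFDerivAt.comp z hA
            (ContinuousLinearMap.fst ℝ Y (ι → S)).hasStrictFDerivAt
        · rw [hasStrictFDerivAt_pi]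
          intro a
          exact HasStrictFDerivAt.comp z (hΦ a).1 (E a).hasStrictFDerivAt
      · have hb := finrank_ker_block (A : Y →ₗ[ℝ] G0) (fun a => ((Φ' a) : Y × S →ₗ[ℝ] G))
          (F' : (Y × (ι → S)) →ₗ[ℝ] G0 × (ι → G)) (fun y s => rfl)
        refine hb.trans ?_
        have : ∑ a, finrank ℝ (LinearMap.ker (((Φ' a) : Y × S →ₗ[ℝ] G).comp
            (LinearMap.inr ℝ Y S))) ≤ ∑ a, (finrank ℝ S - r a) := by
          refine Finset.sum_le_sum fun a _ => ?_
          have := (hΦ a).2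
          have h3 : finrank ℝ (LinearMap.ker (((Φ' a) : Y × S →ₗ[ℝ] G).comp
            (LinearMap.inr ℝ Y S))) + r a ≤ finrank ℝ S := this
          omega
        omega
  have hsnd : dimH (Prod.snd '' Z) ≤ dimH Z :=
    (LipschitzWith.prod_snd).dimH_image_le Z
  calc dimH (Prod.snd '' Z) ≤ k := hsnd.trans hdim
    _ < finrank ℝ (ι → S) := by exact_mod_cast hk1

/-- finitely many families of bad parameters of small dimension do not fill the space -/
theorem exists_good {P : Type*} [NormedAddCommGroup P] [NormedSpace ℝ P] [FiniteDimensional ℝ P]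
    {ι : Type*} [Finite ι] (B : ι → Set P)
    (hB : ∀ i, (B i).Nonempty → dimH (B i) < (finrank ℝ P : ENNReal)) :
    ∃ s : P, ∀ i, s ∉ B i := by
  by_cases hne : ∃ i, (B i).Nonempty
  swap
  · push Not at hne
    exact ⟨0, fun i => by simp [hne i]⟩
  obtain ⟨i0, hi0⟩ := hne
  have hpos : (0 : ENNReal) < finrank ℝ P := lt_of_le_of_lt zero_le (hB i0 hi0)
  have hB' : ∀ i, dimH (B i) < (finrank ℝ P : ENNReal) := by
    intro i
    by_cases h : (B i).Nonempty
    · exact hB i h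
    · rw [Set.not_nonempty_iff_eq_empty] at h
      rw [h, dimH_empty]; exact hpos
  have h1 : dimH (⋃ i, B i) < (finrank ℝ P : ENNReal) := by
    rw [dimH_iUnion]
    have _ := Fintype.ofFinite ι
    rw [← Finset.sup_univ_eq_iSup]
    rw [Finset.sup_lt_iff hpos]
    exact fun i _ => hB' i
  obtain ⟨s, hs⟩ := (dense_compl_of_dimH_lt_finrank h1).nonempty
  exact ⟨s, fun i hi => hs (mem_iUnion.2 ⟨i, hi⟩)⟩

end QD24
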