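import Pool.Agent.Lib_helper24.QD.Rank2
import Pool.Agent.Lib_helper24.QD.Gen

/-!
# The blocks of equations, their derivatives and ranks
-/

open scoped Quaternion RealInnerProductSpace
open Module

set_option linter.unusedSectionVars false

namespace QD24

variable {E : Type*} [NormedAddCommGroup E] [InnerProductSpace ℝ E] [FiniteDimensional ℝ E]
  {Q : QStr E}

/-- a block has rank at least `r` in the parameter direction at `z` -/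
def BlockOK {Y S G : Type*} [NormedAddCommGroup Y] [NormedSpace ℝ Y]
    [NormedAddCommGroup S] [NormedSpace ℝ S] [NormedAddCommGroup G] [NormedSpace ℝ G]
    (Φ : Y × S → G) (r : ℕ) (z : Y × S) : Prop :=
  ∃ Φ' : Y × S →L[ℝ] G, HasStrictFDerivAt Φ Φ' z ∧
    finrank ℝ (LinearMap.ker ((Φ'.comp (ContinuousLinearMap.inr ℝ Y S) : S →L[ℝ] G) :
      S →ₗ[ℝ] G)) + r ≤ finrank ℝ S

theorem blockOK_of_pairing {Y S G W : Type*} [NormedAddCommGroup Y] [NormedSpace ℝ Y]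
    [NormedAddCommGroup S] [NormedSpace ℝ S] [FiniteDimensional ℝ S]
    [NormedAddCommGroup G] [NormedSpace ℝ G]
    [AddCommGroup W] [Module ℝ W] (Φ : Y × S → G) (r : ℕ) (z : Y × S) (Φ' : Y × S →L[ℝ] G)
    (h : HasStrictFDerivAt Φ Φ' z) (B : W →ₗ[ℝ] (G →ₗ[ℝ] ℝ))
    (hB : ∀ w, w ≠ 0 → ∃ σ, B w (Φ' (0, σ)) ≠ 0) (hr : r ≤ finrank ℝ W) : BlockOK Φ r z := by
  refine ⟨Φ', h, ?_⟩
  have := rank_of_pairing ((Φ'.comp (ContinuousLinearMap.inr ℝ Y S) : S →L[ℝ] G) :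
      S →ₗ[ℝ] G) B hB
  omega

theorem blockOK_zero {Y S G : Type*} [NormedAddCommGroup Y] [NormedSpace ℝ Y]
    [NormedAddCommGroup S] [NormedSpace ℝ S] [FiniteDimensional ℝ S]
    [NormedAddCommGroup G] [NormedSpace ℝ G] (z : Y × S) :
    BlockOK (fun _ : Y × S => (0 : G)) 0 z := by
  refine ⟨0, hasStrictFDerivAt_const _ _, ?_⟩
  rw [add_zero]
  exact Submodule.finrank_le _

/-- target space of all blocks -/
abbrev GG (E : Type*) [NormedAddCommGroup E] := ℍ[ℝ] × E × ℝ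

section derivs

variable (Q) (κ : skew Q.Γ → (E →L[ℝ] E))

/-- the block `Im h(u, K v)` (twice) -/
noncomputable def phiE (z : (E × E) × (skew Q.Γ × E)) : GG E :=
  (Q.h z.1.1 (κ z.2.1 z.1.2) - Q.h (κ z.2.1 z.1.2) z.1.1, 0, 0)

/-- the block `|u|² K u - h(K u, u) u` -/
noncomputable def phiF (z : (E × E) × (skew Q.Γ × E)) : GG E :=
  (0, ⟪z.1.1, z.1.1⟫ • κ z.2.1 z.1.1 - Q.L (Q.h (κ z.2.1 z.1.1) z.1.1) z.1.1, 0)

/-- the block `Re (h(u,y) h(y,v))` -/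
noncomputable def phiL (z : (E × E) × (skew Q.Γ × E)) : GG E :=
  (0, 0, ⟪Q.h z.1.1 z.2.2, Q.h z.1.2 z.2.2⟫)

/-- the block `h(y,u)` -/
noncomputable def phiM (z : (E × E) × (skew Q.Γ × E)) : GG E :=
  (Q.h z.2.2 z.1.1, 0, 0)

/-- the block `Im h(u, K β u)` (twice) -/
noncomputable def phiB (z : (E × ℍ[ℝ]) × (skew Q.Γ × E)) : GG E :=
  (Q.h z.1.1 (κ z.2.1 (Q.L z.1.2 z.1.1)) - Q.h (κ z.2.1 (Q.L z.1.2 z.1.1)) z.1.1, 0, 0)

variable {Q κ} {κ' : skew Q.Γ → (skew Q.Γ →L[ℝ] (E →L[ℝ] E))}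

/-- the coordinate maps -/
abbrev pU (Y1 Y2 S1 S2 : Type*) [NormedAddCommGroup Y1] [NormedSpace ℝ Y1] [NormedAddCommGroup Y2]
    [NormedSpace ℝ Y2] [NormedAddCommGroup S1] [NormedSpace ℝ S1] [NormedAddCommGroup S2]
    [NormedSpace ℝ S2] : (Y1 × Y2) × (S1 × S2) →L[ℝ] Y1 :=
  (ContinuousLinearMap.fst ℝ Y1 Y2).comp (ContinuousLinearMap.fst ℝ (Y1 × Y2) (S1 × S2))

abbrev pV (Y1 Y2 S1 S2 : Type*) [NormedAddCommGroup Y1] [NormedSpace ℝ Y1] [NormedAddCommGroup Y2]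
    [NormedSpace ℝ Y2] [NormedAddCommGroup S1] [NormedSpace ℝ S1] [NormedAddCommGroup S2]
    [NormedSpace ℝ S2] : (Y1 × Y2) × (S1 × S2) →L[ℝ] Y2 :=
  (ContinuousLinearMap.snd ℝ Y1 Y2).comp (ContinuousLinearMap.fst ℝ (Y1 × Y2) (S1 × S2))

abbrev pS (Y1 Y2 S1 S2 : Type*) [NormedAddCommGroup Y1] [NormedSpace ℝ Y1] [NormedAddCommGroup Y2]
    [NormedSpace ℝ Y2] [NormedAddCommGroup S1] [NormedSpace ℝ S1] [NormedAddCommGroup S2]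
    [NormedSpace ℝ S2] : (Y1 × Y2) × (S1 × S2) →L[ℝ] S1 :=
  (ContinuousLinearMap.fst ℝ S1 S2).comp (ContinuousLinearMap.snd ℝ (Y1 × Y2) (S1 × S2))

abbrev pW (Y1 Y2 S1 S2 : Type*) [NormedAddCommGroup Y1] [NormedSpace ℝ Y1] [NormedAddCommGroup Y2]
    [NormedSpace ℝ Y2] [NormedAddCommGroup S1] [NormedSpace ℝ S1] [NormedAddCommGroup S2]
    [NormedSpace ℝ S2] : (Y1 × Y2) × (S1 × S2) →L[ℝ] S2 :=
  (ContinuousLinearMap.snd ℝ S1 S2).comp (ContinuousLinearMap.snd ℝ (Y1 × Y2) (S1 × S2))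

theorem comp_proj {X Z F : Type*} [NormedAddCommGroup X] [NormedSpace ℝ X]
    [NormedAddCommGroup Z] [NormedSpace ℝ Z] [NormedAddCommGroup F] [NormedSpace ℝ F]
    (g : Z → F) (g' : Z →L[ℝ] F) (p : X →L[ℝ] Z) (z : X) (h : HasStrictFDerivAt g g' (p z)) :
    HasStrictFDerivAt (fun x => g (p x)) (g'.comp p) z := h.comp z p.hasStrictFDerivAt

theorem clm_comp' {X Z F : Type*} [NormedAddCommGroup X] [NormedSpace ℝ X]
    [NormedAddCommGroup Z] [NormedSpace ℝ Z] [NormedAddCommGroup F] [NormedSpace ℝ F]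
    (L : Z →L[ℝ] F) {f : X → Z} {f' : X →L[ℝ] Z} {z : X} (h : HasStrictFDerivAt f f' z) :
    HasStrictFDerivAt (fun x => L (f x)) (L.comp f') z := L.hasStrictFDerivAt.comp z h

theorem clm_app {X Z F : Type*} [NormedAddCommGroup X] [NormedSpace ℝ X]
    [NormedAddCommGroup Z] [NormedSpace ℝ Z] [NormedAddCommGroup F] [NormedSpace ℝ F]
    {c : X → (Z →L[ℝ] F)} {c' : X →L[ℝ] (Z →L[ℝ] F)} {f : X → Z} {f' : X →L[ℝ] Z} {z : X}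
    (hc : HasStrictFDerivAt c c' z) (hf : HasStrictFDerivAt f f' z) :
    HasStrictFDerivAt (fun x => c x (f x)) ((c z).comp f' + c'.flip (f z)) z := hc.clm_apply hf

theorem inner_app {X F : Type*} [NormedAddCommGroup X] [NormedSpace ℝ X]
    [NormedAddCommGroup F] [InnerProductSpace ℝ F]
    {f g : X → F} {f' g' : X →L[ℝ] F} {z : X}
    (hf : HasStrictFDerivAt f f' z) (hg : HasStrictFDerivAt g g' z) :
    ∃ D : X →L[ℝ] ℝ, HasStrictFDerivAt (fun x => ⟪f x, g x⟫) D z ∧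
      ∀ x, D x = ⟪f z, g' x⟫ + ⟪f' x, g z⟫ := by
  refine ⟨_, HasStrictFDerivAt.inner ℝ hf hg, fun x => ?_⟩
  simp

theorem smul_app {X F : Type*} [NormedAddCommGroup X] [NormedSpace ℝ X]
    [NormedAddCommGroup F] [NormedSpace ℝ F]
    {f : X → ℝ} {g : X → F} {f' : X →L[ℝ] ℝ} {g' : X →L[ℝ] F} {z : X}
    (hf : HasStrictFDerivAt f f' z) (hg : HasStrictFDerivAt g g' z) :
    ∃ D : X →L[ℝ] F, HasStrictFDerivAt (fun x => f x • g x) D z ∧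
      ∀ x, D x = f z • g' x + f' x • g z := by
  refine ⟨_, hf.smul hg, fun x => ?_⟩
  simp

theorem phiE_deriv (hκ : ∀ s, HasStrictFDerivAt κ (κ' s) s) (z : (E × E) × (skew Q.Γ × E)) :
    ∃ Φ' : (E × E) × (skew Q.Γ × E) →L[ℝ] GG E, HasStrictFDerivAt (phiE Q κ) Φ' z ∧
      ∀ σ η, Φ' (0, (σ, η)) =
        (Q.h z.1.1 (κ' z.2.1 σ z.1.2) - Q.h (κ' z.2.1 σ z.1.2) z.1.1, 0, 0) := by
  have hk : HasStrictFDerivAt (fun z : (E × E) × (skew Q.Γ × E) => κ z.2.1)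
      ((κ' z.2.1).comp (pS E E (skew Q.Γ) E)) z :=
    comp_proj κ (κ' z.2.1) (pS E E (skew Q.Γ) E) z (hκ z.2.1)
  have hu : HasStrictFDerivAt (fun z : (E × E) × (skew Q.Γ × E) => z.1.1)
      (pU E E (skew Q.Γ) E) z := (pU E E (skew Q.Γ) E).hasStrictFDerivAt
  have hv : HasStrictFDerivAt (fun z : (E × E) × (skew Q.Γ × E) => z.1.2)
      (pV E E (skew Q.Γ) E) z := (pV E E (skew Q.Γ) E).hasStrictFDerivAt
  have hKv := clm_app (X := (E × E) × (skew Q.Γ × E)) hk hv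
  have h1a := clm_comp' (X := (E × E) × (skew Q.Γ × E)) (F := E →L[ℝ] ℍ[ℝ]) Q.h hu
  have h1 := clm_app (X := (E × E) × (skew Q.Γ × E)) h1a hKv
  have h2a := clm_comp' (X := (E × E) × (skew Q.Γ × E)) (F := E →L[ℝ] ℍ[ℝ]) Q.h hKv
  have h2 := clm_app (X := (E × E) × (skew Q.Γ × E)) h2a hu
  refine ⟨_, (h1.sub h2).prodMk (hasStrictFDerivAt_const (0, 0) z), fun σ η => ?_⟩
  refine Prod.ext ?_ rfl
  simp

theorem phiF_deriv (hκ : ∀ s, HasStrictFDerivAt κ (κ' s) s) (z : (E × E) × (skew Q.Γ × E)) :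
    ∃ Φ' : (E × E) × (skew Q.Γ × E) →L[ℝ] GG E, HasStrictFDerivAt (phiF Q κ) Φ' z ∧
      ∀ σ η, Φ' (0, (σ, η)) = (0, ⟪z.1.1, z.1.1⟫ • κ' z.2.1 σ z.1.1 -
        Q.L (Q.h (κ' z.2.1 σ z.1.1) z.1.1) z.1.1, 0) := by
  have hk : HasStrictFDerivAt (fun z : (E × E) × (skew Q.Γ × E) => κ z.2.1)
      ((κ' z.2.1).comp (pS E E (skew Q.Γ) E)) z :=
    comp_proj κ (κ' z.2.1) (pS E E (skew Q.Γ) E) z (hκ z.2.1)
  have hu : HasStrictFDerivAt (fun z : (E × E) × (skew Q.Γ × E) => z.1.1)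
      (pU E E (skew Q.Γ) E) z := (pU E E (skew Q.Γ) E).hasStrictFDerivAt
  have hKu := clm_app (X := (E × E) × (skew Q.Γ × E)) hk hu
  obtain ⟨D1, hn, hD1⟩ := inner_app (X := (E × E) × (skew Q.Γ × E)) hu hu
  obtain ⟨D2, h1, hD2⟩ := smul_app (X := (E × E) × (skew Q.Γ × E)) hn hKu
  have h2a := clm_comp' (X := (E × E) × (skew Q.Γ × E)) (F := E →L[ℝ] ℍ[ℝ]) Q.h hKu
  have h2 := clm_app (X := (E × E) × (skew Q.Γ × E)) h2a hu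
  let LL : ℍ[ℝ] →L[ℝ] (E →L[ℝ] E) := LinearMap.toContinuousLinearMap Q.L.toLinearMap
  have h3a := clm_comp' (X := (E × E) × (skew Q.Γ × E)) (F := E →L[ℝ] E) LL h2
  have h3 := clm_app (X := (E × E) × (skew Q.Γ × E)) h3a hu
  refine ⟨_, (hasStrictFDerivAt_const (0 : ℍ[ℝ]) z).prodMk
    ((h1.sub h3).prodMk (hasStrictFDerivAt_const (0 : ℝ) z)), fun σ η => ?_⟩
  refine Prod.ext rfl (Prod.ext ?_ rfl)
  simp [LL, hD1, hD2]

theorem phiL_deriv (z : (E × E) × (skew Q.Γ × E)) :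
    ∃ Φ' : (E × E) × (skew Q.Γ × E) →L[ℝ] GG E, HasStrictFDerivAt (phiL Q) Φ' z ∧
      ∀ σ η, Φ' (0, (σ, η)) = (0, 0, ⟪Q.h z.1.1 z.2.2, Q.h z.1.2 η⟫ +
        ⟪Q.h z.1.1 η, Q.h z.1.2 z.2.2⟫) := by
  have hu : HasStrictFDerivAt (fun z : (E × E) × (skew Q.Γ × E) => z.1.1)
      (pU E E (skew Q.Γ) E) z := (pU E E (skew Q.Γ) E).hasStrictFDerivAt
  have hv : HasStrictFDerivAt (fun z : (E × E) × (skew Q.Γ × E) => z.1.2)
      (pV E E (skew Q.Γ) E) z := (pV E E (skew Q.Γ) E).hasStrictFDerivAt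
  have hy : HasStrictFDerivAt (fun z : (E × E) × (skew Q.Γ × E) => z.2.2)
      (pW E E (skew Q.Γ) E) z := (pW E E (skew Q.Γ) E).hasStrictFDerivAt
  have h1a := clm_comp' (X := (E × E) × (skew Q.Γ × E)) (F := E →L[ℝ] ℍ[ℝ]) Q.h hu
  have h1 := clm_app (X := (E × E) × (skew Q.Γ × E)) h1a hy
  have h2a := clm_comp' (X := (E × E) × (skew Q.Γ × E)) (F := E →L[ℝ] ℍ[ℝ]) Q.h hv
  have h2 := clm_app (X := (E × E) × (skew Q.Γ × E)) h2a hy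
  obtain ⟨D, h3, hD⟩ := inner_app (X := (E × E) × (skew Q.Γ × E)) h1 h2
  refine ⟨_, (hasStrictFDerivAt_const (0 : ℍ[ℝ]) z).prodMk
    ((hasStrictFDerivAt_const (0 : E) z).prodMk h3), fun σ η => ?_⟩
  refine Prod.ext rfl (Prod.ext rfl ?_)
  simp [hD]

theorem phiM_deriv (z : (E × E) × (skew Q.Γ × E)) :
    ∃ Φ' : (E × E) × (skew Q.Γ × E) →L[ℝ] GG E, HasStrictFDerivAt (phiM Q) Φ' z ∧
      ∀ σ η, Φ' (0, (σ, η)) = (Q.h η z.1.1, 0, 0) := by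
  have hu : HasStrictFDerivAt (fun z : (E × E) × (skew Q.Γ × E) => z.1.1)
      (pU E E (skew Q.Γ) E) z := (pU E E (skew Q.Γ) E).hasStrictFDerivAt
  have hy : HasStrictFDerivAt (fun z : (E × E) × (skew Q.Γ × E) => z.2.2)
      (pW E E (skew Q.Γ) E) z := (pW E E (skew Q.Γ) E).hasStrictFDerivAt
  have h1a := clm_comp' (X := (E × E) × (skew Q.Γ × E)) (F := E →L[ℝ] ℍ[ℝ]) Q.h hy
  have h1 := clm_app (X := (E × E) × (skew Q.Γ × E)) h1a hu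
  refine ⟨_, h1.prodMk (hasStrictFDerivAt_const (0, 0) z), fun σ η => ?_⟩
  refine Prod.ext ?_ rfl
  simp

theorem phiB_deriv (hκ : ∀ s, HasStrictFDerivAt κ (κ' s) s) (z : (E × ℍ[ℝ]) × (skew Q.Γ × E)) :
    ∃ Φ' : (E × ℍ[ℝ]) × (skew Q.Γ × E) →L[ℝ] GG E, HasStrictFDerivAt (phiB Q κ) Φ' z ∧
      ∀ σ η, Φ' (0, (σ, η)) = (Q.h z.1.1 (κ' z.2.1 σ (Q.L z.1.2 z.1.1)) -
        Q.h (κ' z.2.1 σ (Q.L z.1.2 z.1.1)) z.1.1, 0, 0) := by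
  have hk : HasStrictFDerivAt (fun z : (E × ℍ[ℝ]) × (skew Q.Γ × E) => κ z.2.1)
      ((κ' z.2.1).comp (pS E ℍ[ℝ] (skew Q.Γ) E)) z :=
    comp_proj κ (κ' z.2.1) (pS E ℍ[ℝ] (skew Q.Γ) E) z (hκ z.2.1)
  have hu : HasStrictFDerivAt (fun z : (E × ℍ[ℝ]) × (skew Q.Γ × E) => z.1.1)
      (pU E ℍ[ℝ] (skew Q.Γ) E) z := (pU E ℍ[ℝ] (skew Q.Γ) E).hasStrictFDerivAt
  have hb : HasStrictFDerivAt (fun z : (E × ℍ[ℝ]) × (skew Q.Γ × E) => z.1.2)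
      (pV E ℍ[ℝ] (skew Q.Γ) E) z := (pV E ℍ[ℝ] (skew Q.Γ) E).hasStrictFDerivAt
  let LL : ℍ[ℝ] →L[ℝ] (E →L[ℝ] E) := LinearMap.toContinuousLinearMap Q.L.toLinearMap
  have hva := clm_comp' (X := (E × ℍ[ℝ]) × (skew Q.Γ × E)) (F := E →L[ℝ] E) LL hb
  have hv := clm_app (X := (E × ℍ[ℝ]) × (skew Q.Γ × E)) hva hu
  have hKv := clm_app (X := (E × ℍ[ℝ]) × (skew Q.Γ × E)) hk hv
  have h1a := clm_comp' (X := (E × ℍ[ℝ]) × (skew Q.Γ × E)) (F := E →L[ℝ] ℍ[ℝ]) Q.h hu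
  have h1 := clm_app (X := (E × ℍ[ℝ]) × (skew Q.Γ × E)) h1a hKv
  have h2a := clm_comp' (X := (E × ℍ[ℝ]) × (skew Q.Γ × E)) (F := E →L[ℝ] ℍ[ℝ]) Q.h hKv
  have h2 := clm_app (X := (E × ℍ[ℝ]) × (skew Q.Γ × E)) h2a hu
  refine ⟨_, (h1.sub h2).prodMk (hasStrictFDerivAt_const (0, 0) z), fun σ η => ?_⟩
  refine Prod.ext ?_ rfl
  simp [LL]

end derivs

end QD24
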