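import Pool.Agent.Lib_helper24.QD.Skew

/-!
# Cayley parametrisation of complex structures (by helper96)
-/

open scoped RealInnerProductSpace
open Module

namespace QD24

section alg
variable {A : Type*} [NormedRing A] [NormedAlgebra ℝ A] [CompleteSpace A]

/-- `K(s) = g R g⁻¹`, `g = (1 - s) (1 + s)⁻¹` -/
noncomputable def cay (R s : A) : A :=
  (1 - s) * Ring.inverse (1 + s) * R * (1 + s) * Ring.inverse (1 - s)

theorem cay_deriv (R s : A) (u v : Aˣ) (hu : (u : A) = 1 + s) (hv : (v : A) = 1 - s) :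
    ∃ F' : A →L[ℝ] A, HasStrictFDerivAt (cay R) F' s ∧
      ∀ σ, F' σ = (-σ) * ↑u⁻¹ * R * (1 + s) * ↑v⁻¹ + (1 - s) * (-(↑u⁻¹ * σ * ↑u⁻¹)) * R * (1 + s) * ↑v⁻¹
        + (1 - s) * ↑u⁻¹ * R * σ * ↑v⁻¹ + (1 - s) * ↑u⁻¹ * R * (1 + s) * (↑v⁻¹ * σ * ↑v⁻¹) := by
  have hid : HasStrictFDerivAt (fun s : A => s) (ContinuousLinearMap.id ℝ A) s :=
    hasStrictFDerivAt_id s
  have h1 : HasStrictFDerivAt (fun s : A => 1 - s) (-ContinuousLinearMap.id ℝ A) s :=
    hid.const_sub 1
  have h2 : HasStrictFDerivAt (fun s : A => 1 + s) (ContinuousLinearMap.id ℝ A) s :=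
    hid.const_add 1
  have h3 := (hu ▸ hasStrictFDerivAt_ringInverse (𝕜 := ℝ) u : HasStrictFDerivAt
    (Ring.inverse : A → A) (-ContinuousLinearMap.mulLeftRight ℝ A ↑u⁻¹ ↑u⁻¹) (1 + s)).comp s h2
  have h4 := (hv ▸ hasStrictFDerivAt_ringInverse (𝕜 := ℝ) v : HasStrictFDerivAt
    (Ring.inverse : A → A) (-ContinuousLinearMap.mulLeftRight ℝ A ↑v⁻¹ ↑v⁻¹) (1 - s)).comp s h1
  have h5 := (((h1.fun_mul' h3).fun_mul' (hasStrictFDerivAt_const R s)).fun_mul' h2).fun_mul' h4
  refine ⟨_, h5, fun σ => ?_⟩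
  have hPu : Ring.inverse (1 + s) = ↑u⁻¹ := by rw [← hu, Ring.inverse_unit]
  have hPv : Ring.inverse (1 - s) = ↑v⁻¹ := by rw [← hv, Ring.inverse_unit]
  simp only [hPu, hPv]
  simp [mul_assoc]
  noncomm_ring

omit [CompleteSpace A] in
/-- the range of the derivative -/
theorem cay_alg {R s P Q Y K : A} (hP : (1 + s) * P = 1) (hP' : P * (1 + s) = 1)
    (hQ : (1 - s) * Q = 1) (hQ' : Q * (1 - s) = 1)
    (hK : K = (1 - s) * P * R * (1 + s) * Q) (hKK : K * K = -1) (hY : Y * K = -(K * Y))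
    {σ : A} (hσ : σ = (4⁻¹ : ℝ) • ((1 + s) * Y * K * (1 - s))) :
    (-σ) * P * R * (1 + s) * Q + (1 - s) * (-(P * σ * P)) * R * (1 + s) * Q
        + (1 - s) * P * R * σ * Q + (1 - s) * P * R * (1 + s) * (Q * σ * Q) = Y := by
  have hsP : (1 - s) * P = P * (1 - s) := by
    have : (1 - s) * (1 + s) = (1 + s) * (1 - s) := by noncomm_ring
    calc (1 - s) * P = P * (1 + s) * (1 - s) * P := by rw [hP', one_mul]
      _ = P * ((1 + s) * (1 - s)) * P := by rw [mul_assoc P]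
      _ = P * (1 - s) * ((1 + s) * P) := by rw [← this]; noncomm_ring
      _ = P * (1 - s) := by rw [hP, mul_one]
  have hsQ : (1 + s) * Q = Q * (1 + s) := by
    have : (1 + s) * (1 - s) = (1 - s) * (1 + s) := by noncomm_ring
    calc (1 + s) * Q = Q * (1 - s) * (1 + s) * Q := by rw [hQ', one_mul]
      _ = Q * ((1 - s) * (1 + s)) * Q := by rw [mul_assoc Q]
      _ = Q * (1 + s) * ((1 - s) * Q) := by rw [← this]; noncomm_ring
      _ = Q * (1 + s) := by rw [hQ, mul_one]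
  have hPQ : P * Q = Q * P := by
    calc P * Q = Q * (1 - s) * P * Q := by rw [hQ', one_mul]
      _ = Q * ((1 - s) * P) * Q := by rw [mul_assoc Q]
      _ = Q * P * ((1 - s) * Q) := by rw [hsP]; noncomm_ring
      _ = Q * P := by rw [hQ, mul_one]
  -- `Q K = P R (1+s) Q`, `K (1 - s) P = (1 - s) P R`
  have e1 : Q * K = P * R * (1 + s) * Q := by
    calc Q * K = (Q * (1 - s)) * (P * R * (1 + s) * Q) := by rw [hK]; noncomm_ring
      _ = P * R * (1 + s) * Q := by rw [hQ', one_mul]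
  have e2 : K * (1 - s) * P = (1 - s) * P * R := by
    calc K * (1 - s) * P = (1 - s) * P * R * (1 + s) * (Q * (1 - s)) * P := by
          rw [hK]; noncomm_ring
      _ = (1 - s) * P * R * ((1 + s) * P) := by rw [hQ']; noncomm_ring
      _ = (1 - s) * P * R := by rw [hP, mul_one]
  -- `P σ Q = (1/4) Y K`
  have e3 : P * σ * Q = (4⁻¹ : ℝ) • (Y * K) := by
    calc P * σ * Q = (4⁻¹ : ℝ) • ((P * (1 + s)) * (Y * K) * ((1 - s) * Q)) := by
          rw [hσ, mul_smul_comm, smul_mul_assoc]; congr 1; noncomm_ring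
      _ = (4⁻¹ : ℝ) • (Y * K) := by rw [hP', hQ, one_mul, mul_one]
  -- the four terms
  have t1 : (-σ) * P * R * (1 + s) * Q = -(σ * (Q * K)) := by rw [e1]; noncomm_ring
  have t2 : (1 - s) * (-(P * σ * P)) * R * (1 + s) * Q = -((1 - s) * P * σ * (Q * K)) := by
    rw [e1]; noncomm_ring
  have t3 : (1 - s) * P * R * σ * Q = K * (1 - s) * P * σ * Q := by rw [e2]
  have t4 : (1 - s) * P * R * (1 + s) * (Q * σ * Q) = K * ((1 + s) * P) * σ * Q := by
    calc (1 - s) * P * R * (1 + s) * (Q * σ * Q) = ((1 - s) * P * R * (1 + s) * Q) * σ * Q := by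
          noncomm_ring
      _ = K * σ * Q := by rw [← hK]
      _ = K * ((1 + s) * P) * σ * Q := by rw [hP, mul_one]
  have t12 : -(σ * (Q * K)) + -((1 - s) * P * σ * (Q * K)) = -(2 : ℝ) • (P * σ * Q * K) := by
    calc -(σ * (Q * K)) + -((1 - s) * P * σ * (Q * K))
        = -(((1 + s) * P) * σ * (Q * K)) + -((1 - s) * P * σ * (Q * K)) := by rw [hP, one_mul]
      _ = -(P * σ * Q * K + P * σ * Q * K) := by noncomm_ring
      _ = _ := by rw [neg_smul, two_smul]
  have t34 : K * (1 - s) * P * σ * Q + K * ((1 + s) * P) * σ * Q = (2 : ℝ) • (K * (P * σ * Q)) := by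
    rw [two_smul]; noncomm_ring
  rw [t1, t2, t3, t4, add_assoc, t12, t34, e3]
  have h1 : Y * K * K = -Y := by rw [mul_assoc, hKK, mul_neg, mul_one]
  have h2 : K * (Y * K) = Y := by rw [hY, mul_neg, ← mul_assoc, hKK, neg_mul, one_mul, neg_neg]
  rw [mul_smul_comm, smul_mul_assoc, h1, h2, smul_smul, smul_smul, smul_neg, ← neg_smul, ← add_smul]
  norm_num

end alg

variable {E : Type*} [NormedAddCommGroup E] [InnerProductSpace ℝ E] [FiniteDimensional ℝ E]

/-- `T` is the adjoint of `S` -/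
def Adj (S T : E →L[ℝ] E) : Prop := ∀ x y, ⟪S x, y⟫ = ⟪x, T y⟫

omit [FiniteDimensional ℝ E] in
theorem Adj.mul {S T S' T' : E →L[ℝ] E} (h : Adj S T) (h' : Adj S' T') : Adj (S * S') (T' * T) :=
  fun x y => by
    rw [mul_apply_eq_comp, mul_apply_eq_comp, h, h']

omit [FiniteDimensional ℝ E] in
theorem Adj.inv {S T P Q : E →L[ℝ] E} (h : Adj S T) (hP : S * P = 1) (hQ : T * Q = 1) : Adj P Q :=
  fun x y => by
    have h1 : T (Q y) = y := by rw [← mul_apply_eq_comp, hQ]; rfl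
    have h2 : S (P x) = x := by rw [← mul_apply_eq_comp, hP]; rfl
    calc ⟪P x, y⟫ = ⟪P x, T (Q y)⟫ := by rw [h1]
      _ = ⟪S (P x), Q y⟫ := (h _ _).symm
      _ = ⟪x, Q y⟫ := by rw [h2]

theorem isUnit_one_add (s : E →L[ℝ] E) (h : ∀ x y, ⟪s x, y⟫ = -⟪x, s y⟫) : IsUnit (1 + s) := by
  have : CompleteSpace E := FiniteDimensional.complete ℝ E
  rw [ContinuousLinearMap.isUnit_iff_bijective]
  have hinj : Function.Injective ((1 + s : E →L[ℝ] E) : E → E) := by
    rw [injective_iff_map_eq_zero]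
    intro x hx
    have h0 : ⟪s x, x⟫ = 0 := by
      have := h x x
      rw [real_inner_comm x (s x)] at this
      have h' : ⟪x, s x⟫ = ⟪s x, x⟫ := real_inner_comm _ _
      linarith
    have h1 : ⟪(1 + s) x, x⟫ = 0 := by rw [hx, inner_zero_left]
    rw [add_apply, one_apply_eq_self, inner_add_left, h0,
      add_zero] at h1
    exact inner_self_eq_zero.mp h1
  exact ⟨hinj, (LinearMap.injective_iff_surjective (f := ((1 + s : E →L[ℝ] E) : E →ₗ[ℝ] E))).mp hinj⟩

/-- Q2 (CAYLEY) -/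
theorem cayley (Γ : Set (E →L[ℝ] E)) (R : E →L[ℝ] E) (hR : R ∈ skew Γ) (hR2 : R * R = -1) :
    ∃ (κ : skew Γ → (E →L[ℝ] E)) (κ' : skew Γ → (skew Γ →L[ℝ] (E →L[ℝ] E))),
      ∀ s, HasStrictFDerivAt κ (κ' s) s ∧ κ s ∈ skew Γ ∧ κ s * κ s = -1 ∧
        ∀ Y ∈ skew Γ, Y * κ s = -(κ s * Y) → ∃ σ, κ' s σ = Y := by
  have : CompleteSpace E := FiniteDimensional.complete ℝ E
  have hU : ∀ s : skew Γ, ∃ u v : (E →L[ℝ] E)ˣ, (u : E →L[ℝ] E) = 1 + s ∧
      (v : E →L[ℝ] E) = 1 - s := fun s => by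
    obtain ⟨u, hu⟩ := isUnit_one_add (s : E →L[ℝ] E) s.2.1
    obtain ⟨v, hv⟩ := isUnit_one_add (-s : E →L[ℝ] E) (-s).2.1
    exact ⟨u, v, hu, by rw [hv, sub_eq_add_neg]⟩
  choose u v hu hv using hU
  have hD : ∀ s : skew Γ, _ := fun s => cay_deriv R (s : E →L[ℝ] E) (u s) (v s) (hu s) (hv s)
  choose F' hF' hF'σ using hD
  refine ⟨fun s => cay R s, fun s => (F' s).comp (skew Γ).subtypeL, fun s => ?_⟩
  have hP : (1 + (s : E →L[ℝ] E)) * ↑(u s)⁻¹ = 1 := by rw [← hu, Units.mul_inv]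
  have hP' : ↑(u s)⁻¹ * (1 + (s : E →L[ℝ] E)) = 1 := by rw [← hu, Units.inv_mul]
  have hQ : (1 - (s : E →L[ℝ] E)) * ↑(v s)⁻¹ = 1 := by rw [← hv, Units.mul_inv]
  have hQ' : ↑(v s)⁻¹ * (1 - (s : E →L[ℝ] E)) = 1 := by rw [← hv, Units.inv_mul]
  have hK : cay R (s : E →L[ℝ] E) = (1 - s) * ↑(u s)⁻¹ * R * (1 + s) * ↑(v s)⁻¹ := by
    rw [cay, ← hu, ← hv, Ring.inverse_unit, Ring.inverse_unit]
  set S : E →L[ℝ] E := (s : E →L[ℝ] E) with hS
  set P : E →L[ℝ] E := ↑(u s)⁻¹ with hPd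
  set Q : E →L[ℝ] E := ↑(v s)⁻¹ with hQd
  set K : E →L[ℝ] E := cay R S with hKd
  -- commutations
  have hc : (1 - S) * (1 + S) = (1 + S) * (1 - S) := by noncomm_ring
  have hsP : (1 - S) * P = P * (1 - S) := by
    calc (1 - S) * P = P * (1 + S) * (1 - S) * P := by rw [hP', one_mul]
      _ = P * ((1 + S) * (1 - S)) * P := by rw [mul_assoc P]
      _ = P * (1 - S) * ((1 + S) * P) := by rw [← hc]; noncomm_ring
      _ = P * (1 - S) := by rw [hP, mul_one]
  have hsQ : (1 + S) * Q = Q * (1 + S) := by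
    calc (1 + S) * Q = Q * (1 - S) * (1 + S) * Q := by rw [hQ', one_mul]
      _ = Q * ((1 - S) * (1 + S)) * Q := by rw [mul_assoc Q]
      _ = Q * (1 + S) * ((1 - S) * Q) := by rw [hc]; noncomm_ring
      _ = Q * (1 + S) := by rw [hQ, mul_one]
  -- K ^ 2 = -1
  have hKK : K * K = -1 := by
    calc K * K = (1 - S) * P * R * (1 + S) * (Q * (1 - S)) * P * R * (1 + S) * Q := by
          rw [hK]; noncomm_ring
      _ = (1 - S) * P * R * ((1 + S) * P) * R * (1 + S) * Q := by rw [hQ']; noncomm_ring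
      _ = (1 - S) * P * (R * R) * (1 + S) * Q := by rw [hP]; noncomm_ring
      _ = -((1 - S) * (P * (1 + S)) * Q) := by rw [hR2]; noncomm_ring
      _ = -1 := by rw [hP', mul_one, hQ]
  -- K is skew and commutes with Γ
  have hA1 : Adj (1 + S) (1 - S) := fun x y => by
    have := s.2.1 x y
    simp only [add_apply, sub_apply,
      one_apply_eq_self, inner_add_left, inner_sub_right]
    rw [this]; ring
  have hA2 : Adj (1 - S) (1 + S) := fun x y => by
    have := s.2.1 x y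
    simp only [add_apply, sub_apply,
      one_apply_eq_self, inner_add_right, inner_sub_left]
    rw [this]; ring
  have hAP : Adj P Q := hA1.inv hP hQ
  have hAQ : Adj Q P := hA2.inv hQ hP
  have hAR : Adj R (-R) := fun x y => by
    rw [hR.1, neg_apply, inner_neg_right]
  have hAK : Adj K (-K) := by
    have h1 : Adj K (P * ((1 - S) * (-R * (Q * (1 + S))))) := by
      rw [hK]
      exact (((hA2.mul hAP).mul hAR).mul hA1).mul hAQ |> fun h => by
        convert h using 1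
    have h2 : P * ((1 - S) * (-R * (Q * (1 + S)))) = -K := by
      rw [hK, ← hsQ, ← mul_assoc P, ← hsP]; noncomm_ring
    rwa [h2] at h1
  have hcom : ∀ T ∈ Γ, K * T = T * K := by
    intro T hT
    have hs : S * T = T * S := s.2.2 T hT
    have c1 : (1 - S) * T = T * (1 - S) := by rw [sub_mul, mul_sub, hs, one_mul, mul_one]
    have c2 : (1 + S) * T = T * (1 + S) := by rw [add_mul, mul_add, hs, one_mul, mul_one]
    have c3 : P * T = T * P := by
      calc P * T = P * T * ((1 + S) * P) := by rw [hP, mul_one]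
        _ = P * (T * (1 + S)) * P := by noncomm_ring
        _ = P * (1 + S) * T * P := by rw [← c2]; noncomm_ring
        _ = T * P := by rw [hP', one_mul]
    have c4 : Q * T = T * Q := by
      calc Q * T = Q * T * ((1 - S) * Q) := by rw [hQ, mul_one]
        _ = Q * (T * (1 - S)) * Q := by noncomm_ring
        _ = Q * (1 - S) * T * Q := by rw [← c1]; noncomm_ring
        _ = T * Q := by rw [hQ', one_mul]
    have c5 : R * T = T * R := hR.2 T hT
    calc K * T = (1 - S) * P * R * (1 + S) * (Q * T) := by rw [hK]; noncomm_ring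
      _ = (1 - S) * P * R * ((1 + S) * T) * Q := by rw [c4]; noncomm_ring
      _ = (1 - S) * P * (R * T) * (1 + S) * Q := by rw [c2]; noncomm_ring
      _ = (1 - S) * (P * T) * R * (1 + S) * Q := by rw [c5]; noncomm_ring
      _ = ((1 - S) * T) * P * R * (1 + S) * Q := by rw [c3]; noncomm_ring
      _ = T * K := by rw [c1, hK]; noncomm_ring
  refine ⟨(hF' s).comp s (skew Γ).subtypeL.hasStrictFDerivAt, ⟨fun x y => ?_, hcom⟩, hKK,
    fun Y hY hYK => ?_⟩
  · rw [hAK x y, neg_apply, inner_neg_right]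
  · have hAY : Adj Y (-Y) := fun x y => by
      rw [hY.1, neg_apply, inner_neg_right]
    have hAσ : Adj ((1 + S) * Y * K * (1 - S)) (-((1 + S) * Y * K * (1 - S))) := by
      have h1 : Adj ((1 + S) * Y * K * (1 - S)) ((1 + S) * (-K * (-Y * (1 - S)))) :=
        ((hA1.mul hAY).mul hAK).mul hA2
      have h2 : (1 + S) * (-K * (-Y * (1 - S))) = -((1 + S) * Y * K * (1 - S)) := by
        calc (1 + S) * (-K * (-Y * (1 - S))) = (1 + S) * (K * Y) * (1 - S) := by noncomm_ring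
          _ = (1 + S) * (-(Y * K)) * (1 - S) := by rw [hYK, neg_neg]
          _ = _ := by noncomm_ring
      rwa [h2] at h1
    have hmem : (4⁻¹ : ℝ) • ((1 + S) * Y * K * (1 - S)) ∈ skew Γ := by
      refine Submodule.smul_mem _ _ ⟨fun x y => ?_, fun T hT => ?_⟩
      · rw [hAσ x y, neg_apply, inner_neg_right]
      · have hs : S * T = T * S := s.2.2 T hT
        have c1 : (1 - S) * T = T * (1 - S) := by rw [sub_mul, mul_sub, hs, one_mul, mul_one]
        have c2 : (1 + S) * T = T * (1 + S) := by rw [add_mul, mul_add, hs, one_mul, mul_one]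
        have c3 : Y * T = T * Y := hY.2 T hT
        calc (1 + S) * Y * K * (1 - S) * T = (1 + S) * Y * K * ((1 - S) * T) := by noncomm_ring
          _ = (1 + S) * Y * (K * T) * (1 - S) := by rw [c1]; noncomm_ring
          _ = (1 + S) * (Y * T) * K * (1 - S) := by rw [hcom T hT]; noncomm_ring
          _ = ((1 + S) * T) * Y * K * (1 - S) := by rw [c3]; noncomm_ring
          _ = T * ((1 + S) * Y * K * (1 - S)) := by rw [c2]; noncomm_ring
    refine ⟨⟨_, hmem⟩, ?_⟩
    have h3 := cay_alg hP hP' hQ hQ' hK hKK hYK rfl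
    exact (hF'σ s _).trans h3

end QD24
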