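import Pool.Agent.Lib_helper24.QD.Quat

/-!
# The quaternionic structure of `ℍ^q`
-/

open scoped Quaternion RealInnerProductSpace
open Module

namespace QD24

/-- `ℍ^q` with its Euclidean structure -/
abbrev V (q : ℕ) := PiLp 2 (fun _ : Fin q => ℍ[ℝ])

theorem finrank_V (q : ℕ) : finrank ℝ (V q) = 4 * q := by
  rw [LinearEquiv.finrank_eq (WithLp.linearEquiv 2 ℝ (Fin q → ℍ[ℝ])), Module.finrank_pi_fintype]
  simp only [Quaternion.finrank_eq_four, Finset.sum_const, Finset.card_univ, Fintype.card_fin,
    smul_eq_mul]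
  ring

theorem inner_V (q : ℕ) (x y : V q) : ⟪x, y⟫ = (∑ i, x i * star (y i)).re := by
  rw [PiLp.inner_apply]
  have : ∀ (s : Finset (Fin q)) (f : Fin q → ℍ[ℝ]), (∑ i ∈ s, f i).re = ∑ i ∈ s, (f i).re := by
    intro s f
    induction s using Finset.cons_induction with
    | empty => simp
    | cons a s ha ih => rw [Finset.sum_cons, Finset.sum_cons, Quaternion.re_add, ih]
  rw [this]
  rfl

/-- left multiplication -/
noncomputable def lmul (q : ℕ) (γ : ℍ[ℝ]) : V q →L[ℝ] V q := LinearMap.toContinuousLinearMap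
  { toFun := fun x => WithLp.toLp 2 (fun i => γ * x i)
    map_add' := fun x y => by
      ext i : 1
      simp [mul_add]
    map_smul' := fun c x => by
      ext i : 1
      simp }

theorem lmul_apply (q : ℕ) (γ : ℍ[ℝ]) (x : V q) (i : Fin q) : lmul q γ x i = γ * x i := rfl

/-- right multiplication by a matrix -/
noncomputable def rmul (q : ℕ) (A : Fin q → Fin q → ℍ[ℝ]) : V q →L[ℝ] V q :=
  LinearMap.toContinuousLinearMap
  { toFun := fun x => WithLp.toLp 2 (fun i => ∑ j, x j * A j i)
    map_add' := fun x y => by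
      ext i : 1
      simp [add_mul, Finset.sum_add_distrib]
    map_smul' := fun c x => by
      ext i : 1
      simp [Finset.smul_sum] }

theorem rmul_apply (q : ℕ) (A : Fin q → Fin q → ℍ[ℝ]) (x : V q) (i : Fin q) :
    rmul q A x i = ∑ j, x j * A j i := rfl

/-- the quaternionic inner product -/
noncomputable def hform (q : ℕ) : V q →L[ℝ] V q →L[ℝ] ℍ[ℝ] :=
  LinearMap.toContinuousLinearMap
    ((LinearMap.toContinuousLinearMap : (V q →ₗ[ℝ] ℍ[ℝ]) ≃ₗ[ℝ] (V q →L[ℝ] ℍ[ℝ])).toLinearMap ∘ₗ
      (LinearMap.mk₂ ℝ (fun x y : V q => ∑ i, x i * star (y i))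
        (fun x x' y => by simp [add_mul, Finset.sum_add_distrib])
        (fun c x y => by simp [Finset.smul_sum])
        (fun x y y' => by simp [mul_add, Finset.sum_add_distrib])
        (fun c x y => by simp [Finset.smul_sum])))

theorem hform_apply (q : ℕ) (x y : V q) : hform q x y = ∑ i, x i * star (y i) := rfl

/-- the quaternionic structure of `ℍ^q` -/
noncomputable def QV (q : ℕ) : QStr (V q) where
  L := AlgHom.ofLinearMap
    { toFun := lmul q
      map_add' := fun a b => by
        ext x i : 2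
        show (a + b) * x i = a * x i + b * x i
        rw [add_mul]
      map_smul' := fun c a => by
        ext x i : 2
        show (c • a) * x i = c • (a * x i)
        rw [smul_mul_assoc] }
    (by
      ext x i : 2
      show 1 * x i = x i
      rw [one_mul])
    (fun a b => by
      ext x i : 2
      show (a * b) * x i = a * (b * x i)
      rw [mul_assoc])
  h := hform q
  star_h x y := by
    rw [hform_apply, hform_apply, star_sum]
    simp
  h_L γ x y := by
    rw [hform_apply, hform_apply, Finset.mul_sum]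
    refine Finset.sum_congr rfl fun i _ => ?_
    show (γ * x i) * star (y i) = γ * (x i * star (y i))
    rw [mul_assoc]
  re_h x y := by rw [hform_apply, inner_V]

theorem QV_L (q : ℕ) (γ : ℍ[ℝ]) (x : V q) (i : Fin q) : (QV q).L γ x i = γ * x i := rfl

theorem QV_h (q : ℕ) (x y : V q) : (QV q).h x y = ∑ i, x i * star (y i) := rfl

/-- a skew-Hermitian matrix gives a skew operator commuting with left multiplications -/
theorem rmul_mem (q : ℕ) (A : Fin q → Fin q → ℍ[ℝ]) (hA : ∀ i j, star (A i j) = -A j i) :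
    rmul q A ∈ skew (QV q).Γ := by
  apply QStr.mem_skew
  · intro x y
    rw [inner_V, inner_V, ← Quaternion.re_neg]
    congr 1
    simp only [rmul_apply, star_sum, star_mul, Finset.sum_mul, Finset.mul_sum, hA]
    rw [Finset.sum_comm, ← Finset.sum_neg_distrib]
    refine Finset.sum_congr rfl fun i _ => ?_
    rw [← Finset.sum_neg_distrib]
    refine Finset.sum_congr rfl fun j _ => ?_
    rw [neg_mul, mul_neg, neg_neg, mul_assoc]
  · intro γ x
    ext i : 1
    rw [rmul_apply, QV_L, rmul_apply, Finset.mul_sum]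
    refine Finset.sum_congr rfl fun j _ => ?_
    rw [QV_L, mul_assoc]

theorem rmul_sq (q : ℕ) (A : Fin q → Fin q → ℍ[ℝ])
    (hA : ∀ i k, ∑ j, A i j * A j k = if i = k then -1 else 0) :
    rmul q A * rmul q A = -1 := by
  ext x k : 2
  show ∑ j, (∑ i, x i * A i j) * A j k = -x k
  simp only [Finset.sum_mul, mul_assoc]
  rw [Finset.sum_comm]
  simp only [← Finset.mul_sum, hA]
  simp

/-- the quaternion `a + b i + c j + d k` -/
def qt (a b c d : ℝ) : ℍ[ℝ] := ⟨a, b, c, d⟩

theorem qt_re (a b c d : ℝ) : (qt a b c d).re = a := rfl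
theorem qt_imI (a b c d : ℝ) : (qt a b c d).imI = b := rfl
theorem qt_imJ (a b c d : ℝ) : (qt a b c d).imJ = c := rfl
theorem qt_imK (a b c d : ℝ) : (qt a b c d).imK = d := rfl

/-- a complex structure -/
theorem exists_R (q : ℕ) : ∃ R ∈ skew (QV q).Γ, R * R = -1 := by
  let ii : ℍ[ℝ] := qt 0 1 0 0
  have h1 : star ii = -ii := star_of_re rfl
  have h2 : ii * ii = -1 := by
    rw [mul_self_of_re (show ii.re = 0 from rfl)]
    have : ‖ii‖ ^ 2 = 1 := by
      rw [sq, ← Quaternion.normSq_eq_norm_mul_self, Quaternion.normSq_def']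
      simp [ii, qt_re, qt_imI, qt_imJ, qt_imK]
    rw [this]; simp
  refine ⟨rmul q (fun i j => if i = j then ii else 0), rmul_mem q _ ?_, rmul_sq q _ ?_⟩
  · intro i j
    by_cases h : i = j
    · subst h; simp [h1]
    · have h' : ¬ j = i := fun h0 => h h0.symm
      simp [h, h']
  · intro i k
    by_cases h : i = k
    · subst h; simp [h2]
    · simp [h]

end QD24
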