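import Pool.Agent.Lib_helper24.QD.Eight

/-!
# The dimensions of the subspaces
-/

open scoped Quaternion RealInnerProductSpace
open Module

set_option linter.unusedSectionVars false

namespace QD24

variable {E : Type*} [NormedAddCommGroup E] [InnerProductSpace ℝ E] [FiniteDimensional ℝ E]

/-- as `countsAny_of_fintype`, keeping track of the dimensions of the subspaces -/
theorem family_of_invol_dim {M N : ℕ} {ι : Type*} [Fintype ι] (hι : Fintype.card ι = N)
    (hE : finrank ℝ E = M) (J : ι → E →ₗ[ℝ] E)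
    (h2 : ∀ n x, J n (J n x) = x) (hs : ∀ n x y, ⟪J n x, y⟫ = ⟪x, J n y⟫)
    (P : ℕ → Prop) (hP : ∀ n, P (finrank ℝ (fixSub (J n))))
    (hns : ∀ u v, (∀ n, ⟪u, v⟫ + ⟪u, J n v⟫ = 0) → u = 0 ∨ v = 0) :
    ∃ W : Fin N → Submodule ℝ (EuclideanSpace ℝ (Fin M)),
      (∀ n, P (finrank ℝ (W n))) ∧ AllowsPhaseRetrieval W := by
  subst hE
  let f := Fintype.equivFinOfCardEq hι
  let e : E ≃ₗᵢ[ℝ] EuclideanSpace ℝ (Fin (finrank ℝ E)) :=
    (stdOrthonormalBasis ℝ E).repr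
  let J' : Fin N → EuclideanSpace ℝ (Fin (finrank ℝ E)) →ₗ[ℝ] EuclideanSpace ℝ (Fin (finrank ℝ E)) :=
    fun n => e.toLinearEquiv.toLinearMap ∘ₗ J (f.symm n) ∘ₗ e.symm.toLinearEquiv.toLinearMap
  have hJ' : ∀ n x, J' n x = e (J (f.symm n) (e.symm x)) := fun n x => rfl
  have h2' : ∀ n x, J' n (J' n x) = x := by
    intro n x
    rw [hJ', hJ', e.symm_apply_apply, h2, e.apply_symm_apply]
  refine ⟨fun n => fixSub (J' n), fun n => ?_, fun x y h => invol_core J' h2' ?_ ?_ x y h⟩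
  · have h1 : fixSub (J' n) = (fixSub (J (f.symm n))).map (e.toLinearEquiv : E →ₗ[ℝ] _) := by
      ext x
      rw [Submodule.mem_map, fixSub, fixSub, LinearMap.mem_ker, LinearMap.sub_apply,
        LinearMap.id_apply, sub_eq_zero, hJ']
      constructor
      · intro hx
        refine ⟨e.symm x, ?_, e.apply_symm_apply x⟩
        rw [LinearMap.mem_ker, LinearMap.sub_apply, LinearMap.id_apply, sub_eq_zero]
        apply e.injective
        rw [e.apply_symm_apply, hx]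
      · rintro ⟨y, hy, rfl⟩
        rw [LinearMap.mem_ker, LinearMap.sub_apply, LinearMap.id_apply, sub_eq_zero] at hy
        show e (J (f.symm n) (e.symm (e y))) = e y
        rw [e.symm_apply_apply, hy]
    have h3 : finrank ℝ (fixSub (J' n)) = finrank ℝ (fixSub (J (f.symm n))) := by
      rw [h1]
      exact LinearEquiv.finrank_map_eq e.toLinearEquiv _
    rw [h3]
    exact hP _
  · intro n x y
    rw [hJ', hJ', ← e.apply_symm_apply y, e.inner_map_map, e.symm_apply_apply, hs,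
      ← e.inner_map_map, e.apply_symm_apply]
  · intro u v h
    have := hns (e.symm u) (e.symm v) (fun n => by
      have h1 := h (f n)
      rw [hJ', f.symm_apply_apply, ← e.apply_symm_apply u, ← e.apply_symm_apply v,
        e.inner_map_map, e.inner_map_map, e.symm_apply_apply (e.symm v)] at h1
      exact h1)
    rcases this with h | h
    · left; simpa using h
    · right; simpa using h

variable (Q : QStr E)

theorem finrank_fix_JK {α : ℍ[ℝ]} (hα : α.re = 0) (hα2 : α * α = -1) {K : E →L[ℝ] E}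
    (hK : K ∈ skew Q.Γ) (hK2 : K * K = -1) :
    2 * finrank ℝ (fixSub (JK Q α K)) = finrank ℝ E := by
  obtain ⟨β, hβ, h⟩ := exists_anticomm α hα
  refine finrank_fixSub _ (JK_sq hα2 hK hK2) ((Q.L β : E →L[ℝ] E) : E →ₗ[ℝ] E) ?_ fun x => ?_
  · rw [injective_iff_map_eq_zero]
    intro x hx
    exact (Q.L_eq_zero hx).resolve_left hβ
  · show Q.L β (Q.L α (K x)) = -Q.L α (K (Q.L β x))
    rw [QStr.comm hK, ← Q.L_mul, ← Q.L_mul, h, Q.L_neg, neg_neg]

theorem finrank_fix_JL {y : E} (hy : y ≠ 0) : finrank ℝ (fixSub (JL Q y)) = 4 := by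
  have hn : ‖y‖ ^ 2 ≠ 0 := by
    have := norm_ne_zero_iff.2 hy
    positivity
  let T : ℍ[ℝ] →ₗ[ℝ] E :=
    { toFun := fun γ => Q.L γ y
      map_add' := fun a b => by rw [map_add]; rfl
      map_smul' := fun c a => by rw [map_smul]; rfl }
  have hT : Function.Injective T := by
    rw [injective_iff_map_eq_zero]
    intro γ hγ
    exact (Q.L_eq_zero hγ).resolve_right hy
  have h1 : fixSub (JL Q y) = LinearMap.range T := by
    ext x
    rw [fixSub, LinearMap.mem_ker, LinearMap.sub_apply, LinearMap.id_apply, sub_eq_zero, JL_apply,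
      LinearMap.mem_range]
    constructor
    · intro hx
      refine ⟨(1 / ‖y‖ ^ 2) • Q.h x y, ?_⟩
      have h3 : (2 : ℝ) • x = (2 / ‖y‖ ^ 2) • Q.L (Q.h x y) y := by
        rw [two_smul]
        nth_rw 1 [← hx]
        abel
      have h4 : (1 / 2 : ℝ) • ((2 : ℝ) • x) = x := by
        rw [smul_smul]; norm_num
      have h5 : (1 / 2 : ℝ) * (2 / ‖y‖ ^ 2) = 1 / ‖y‖ ^ 2 := by ring
      calc T ((1 / ‖y‖ ^ 2) • Q.h x y) = (1 / ‖y‖ ^ 2) • Q.L (Q.h x y) y := by
            rw [map_smul]; rfl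
        _ = (1 / 2 : ℝ) • ((2 : ℝ) • x) := by rw [h3, smul_smul, h5]
        _ = x := h4
    · rintro ⟨γ, rfl⟩
      show (2 / ‖y‖ ^ 2) • Q.L (Q.h (Q.L γ y) y) y - Q.L γ y = Q.L γ y
      rw [Q.h_L, Q.h_self, ← Quaternion.coe_commutes, Quaternion.coe_mul_eq_smul, map_smul,
        smul_apply, smul_smul, div_mul_cancel₀ _ hn, two_smul]
      abel
  rw [h1, LinearMap.finrank_range_of_inj hT, finrank_H]

theorem assemble_dim {M n m : ℕ} (hE : finrank ℝ E = M) (hM : 0 < M) (hn : 0 < n)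
    (K : Fin n → (E →L[ℝ] E))
    (hK : ∀ a, K a ∈ skew Q.Γ) (hK2 : ∀ a, K a * K a = -1) (y : Fin m → E)
    (hns : ∀ u v : E, ⟪u, v⟫ = 0 → (∀ a, Q.h u (K a v) = Q.h (K a v) u) →
      (∀ b, ⟪Q.h u (y b), Q.h v (y b)⟫ = 0) → u = 0 ∨ v = 0) :
    ∃ W : Fin (n * 3 + (1 + m)) → Submodule ℝ (EuclideanSpace ℝ (Fin M)),
      (∀ n, finrank ℝ (W n) = 4 ∨ 2 * finrank ℝ (W n) = M) ∧ AllowsPhaseRetrieval W := by
  classical
  obtain ⟨e, he⟩ : ∃ e : E, e ≠ 0 := by
    have : Nontrivial E := Module.nontrivial_of_finrank_pos (R := ℝ) (by omega)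
    exact exists_ne 0
  let y' : Fin m → E := fun b => if y b = 0 then e else y b
  have hy' : ∀ b, y' b ≠ 0 := by
    intro b
    by_cases h : y b = 0
    · simp only [y', h, if_true]; exact he
    · simp only [y', h, if_false]; exact h
  let J : (Fin n × Fin 3) ⊕ (Unit ⊕ Fin m) → (E →ₗ[ℝ] E) :=
    Sum.elim (fun p => JK Q (eu p.2) (K p.1))
      (Sum.elim (fun _ => JK Q (-eu 0) (K ⟨0, hn⟩)) (fun b => JL Q (y' b)))
  have n1 : (-eu 0 : ℍ[ℝ]).re = 0 := by rw [Quaternion.re_neg, eu_re, neg_zero]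
  have n2 : (-eu 0 : ℍ[ℝ]) * -eu 0 = -1 := by rw [neg_mul_neg, eu_sq]
  refine family_of_invol_dim (ι := (Fin n × Fin 3) ⊕ (Unit ⊕ Fin m)) (by simp) hE J ?_ ?_
    (fun d => d = 4 ∨ 2 * d = M) ?_ ?_
  · rintro (⟨a, k⟩ | ⟨_⟩ | b) x
    · exact JK_sq (eu_sq k) (hK a) (hK2 a) x
    · exact JK_sq n2 (hK _) (hK2 _) x
    · exact JL_sq Q (y' b) x
  · rintro (⟨a, k⟩ | ⟨_⟩ | b) x z
    · exact JK_symm (eu_re k) (hK a) x z
    · exact JK_symm n1 (hK _) x z
    · exact JL_symm Q (y' b) x z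
  · rintro (⟨a, k⟩ | ⟨_⟩ | b)
    · right
      rw [← hE]
      exact finrank_fix_JK Q (eu_re k) (eu_sq k) (hK a) (hK2 a)
    · right
      rw [← hE]
      exact finrank_fix_JK Q n1 n2 (hK _) (hK2 _)
    · left
      exact finrank_fix_JL Q (hy' b)
  · intro u v h
    have e1 : ⟪u, v⟫ + ⟪u, Q.L (eu 0) (K ⟨0, hn⟩ v)⟫ = 0 := h (Sum.inl (⟨0, hn⟩, 0))
    have e2 : ⟪u, v⟫ + ⟪u, Q.L (-eu 0) (K ⟨0, hn⟩ v)⟫ = 0 := h (Sum.inr (Sum.inl ()))
    rw [Q.L_neg, inner_neg_right] at e2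
    have huv : ⟪u, v⟫ = 0 := by linarith
    refine hns u v huv (fun a => ?_) (fun b => ?_)
    · apply real_of_comp
      intro k
      have e3 : ⟪u, v⟫ + ⟪u, Q.L (eu k) (K a v)⟫ = 0 := h (Sum.inl (a, k))
      rw [huv, zero_add] at e3
      exact e3
    · have e3 : ⟪u, v⟫ + ⟪u, JL Q (y' b) v⟫ = 0 := h (Sum.inr (Sum.inr b))
      rw [inner_JL, huv] at e3
      by_cases hy : y b = 0
      · rw [hy]; simp
      · have hyy : y' b = y b := by simp only [y', hy, if_false]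
        rw [hyy] at e3
        have hn' : (2 : ℝ) / ‖y b‖ ^ 2 ≠ 0 := by
          have := norm_ne_zero_iff.2 hy
          positivity
        have e4 : 2 / ‖y b‖ ^ 2 * ⟪Q.h u (y b), Q.h v (y b)⟫ = 0 := by linarith
        exact (mul_eq_zero.1 e4).resolve_left hn'

/-- for `q ≥ 3` there are `8q - 4` subspaces of `ℝ^{4q}`, each of dimension `4` or `2q`, allowing
phase retrieval -/
theorem quat_large_dim (q : ℕ) (hq : 3 ≤ q) :
    ∃ W : Fin (8 * q - 4) → Submodule ℝ (EuclideanSpace ℝ (Fin (4 * q))),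
      (∀ n, finrank ℝ (W n) = 4 ∨ finrank ℝ (W n) = 2 * q) ∧ AllowsPhaseRetrieval W := by
  obtain ⟨R, hR, hR2⟩ := exists_R q
  obtain ⟨κ, κ', h⟩ := cayley (QV q).Γ R hR hR2
  have hκ : ∀ s, HasStrictFDerivAt κ (κ' s) s := fun s => (h s).1
  have hT : ∀ s, Tang (QV q) (κ s) (κ' s) := fun s => ⟨(h s).2.1, (h s).2.2.1, (h s).2.2.2⟩
  have hdim := finrank_V q
  obtain ⟨s, hs⟩ := exists_params (Q := QV q) hκ hT (n := 2 * q) (m := 2 * q - 5)
    (by omega) (by omega) (by omega)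
  have := assemble_dim (QV q) hdim (by omega) (n := 2 * q) (m := 2 * q - 5) (by omega)
    (fun a => κ (s (.inl a)).1) (fun a => (hT _).mem) (fun a => (hT _).sq)
    (fun b => (s (.inr b)).2) hs
  have e : 2 * q * 3 + (1 + (2 * q - 5)) = 8 * q - 4 := by omega
  rw [e] at this
  obtain ⟨W, h1, h2⟩ := this
  refine ⟨W, fun n => (h1 n).imp_right fun h => by omega, h2⟩

end QD24
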