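import Pool.Agent.Lib_helper24.QD.Main

/-!
# `N_min(8) ≤ 12`
-/

open scoped Quaternion RealInnerProductSpace
open Module

set_option linter.unusedSectionVars false

namespace QD24

/-- `z` is real -/
def IsR (z : ℍ[ℝ]) : Prop := z.imI = 0 ∧ z.imJ = 0 ∧ z.imK = 0

/-- if `p α p'^*` is real and `p ≠ 0` then `p' = a p α` -/
theorem prop_of_isR {α p p' : ℍ[ℝ]} (hα : α.re = 0) (hα2 : α * α = -1) (hp : p ≠ 0)
    (h : IsR (p * α * star p')) : ∃ a : ℝ, p' = a • (p * α) := by
  have hr : p * α * star p' = ((p * α * star p').re : ℍ[ℝ]) := by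
    ext
    · simp
    · rw [h.1]; simp
    · rw [h.2.1]; simp
    · rw [h.2.2]; simp
  set r : ℝ := (p * α * star p').re with hrd
  have hn : Quaternion.normSq p ≠ 0 := Quaternion.normSq_ne_zero.2 hp
  refine ⟨r / Quaternion.normSq p, ?_⟩
  have h1 : Quaternion.normSq p • (α * star p') = r • star p := by
    calc Quaternion.normSq p • (α * star p') = star p * (p * α * star p') := by
          rw [← Quaternion.coe_mul_eq_smul, ← Quaternion.star_mul_self]
          simp only [mul_assoc]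
      _ = star p * (r : ℍ[ℝ]) := by rw [hr]
      _ = r • star p := by rw [← Quaternion.coe_commutes, Quaternion.coe_mul_eq_smul]
  have h2 : Quaternion.normSq p • star p' = -(r • (α * star p)) := by
    calc Quaternion.normSq p • star p' = -(α * (Quaternion.normSq p • (α * star p'))) := by
          rw [mul_smul_comm, ← mul_assoc, hα2, neg_one_mul, smul_neg, neg_neg]
      _ = -(r • (α * star p)) := by rw [h1, mul_smul_comm]
  have h3 : Quaternion.normSq p • p' = r • (p * α) := by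
    have := congrArg star h2
    rw [star_neg, Quaternion.star_smul, Quaternion.star_smul, star_star, star_mul, star_star,
      star_of_re hα] at this
    rw [this, mul_neg, smul_neg, neg_neg]
  rw [div_eq_inv_mul, mul_smul, ← h3, smul_smul, inv_mul_cancel₀ hn, one_smul]

theorem re_zero_of_isR {α p p' : ℍ[ℝ]} (hα : α.re = 0) (hα2 : α * α = -1)
    (h : IsR (p * α * star p')) : (p * star p').re = 0 := by
  by_cases hp : p = 0
  · rw [hp]; simp
  · obtain ⟨a, rfl⟩ := prop_of_isR hα hα2 hp h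
    have h1 : p * star (a • (p * α)) = (-a) • (p * α * star p) := by
      rw [Quaternion.star_smul, star_mul, star_of_re hα, mul_smul_comm, neg_mul, mul_neg,
        ← mul_assoc, smul_neg, neg_smul]
    have h2 : (p * α * star p).re = 0 := by
      rw [mul_assoc, re_mul_comm', mul_assoc, Quaternion.star_mul_self,
        ← Quaternion.coe_commutes, Quaternion.coe_mul_eq_smul, Quaternion.re_smul, hα, smul_zero]
    rw [h1, Quaternion.re_smul, h2, smul_zero]

/-- `p z p^*` real implies `z` real -/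
theorem isR_of_conj {p z : ℍ[ℝ]} (hp : p ≠ 0) (h : IsR (p * z * star p)) : IsR z := by
  have hn : Quaternion.normSq p ≠ 0 := Quaternion.normSq_ne_zero.2 hp
  have hr : p * z * star p = ((p * z * star p).re : ℍ[ℝ]) := by
    ext
    · simp
    · rw [h.1]; simp
    · rw [h.2.1]; simp
    · rw [h.2.2]; simp
  set r : ℝ := (p * z * star p).re with hrd
  have h1 : (Quaternion.normSq p * Quaternion.normSq p) • z = (r * Quaternion.normSq p : ℝ) := by
    calc (Quaternion.normSq p * Quaternion.normSq p) • z = star p * (p * z * star p) * p := by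
          have : star p * (p * z * star p) * p = (star p * p) * z * (star p * p) := by
            simp only [mul_assoc]
          rw [this, Quaternion.star_mul_self, mul_assoc, ← Quaternion.coe_commutes,
            Quaternion.coe_mul_eq_smul, Quaternion.coe_mul_eq_smul, smul_smul]
      _ = (r * Quaternion.normSq p : ℝ) := by
          rw [hr, ← Quaternion.coe_commutes, mul_assoc, Quaternion.star_mul_self,
            ← Quaternion.coe_mul]
  have hc : Quaternion.normSq p * Quaternion.normSq p ≠ 0 := mul_ne_zero hn hn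
  refine ⟨?_, ?_, ?_⟩
  · have := congrArg QuaternionAlgebra.imI h1
    simpa [hn] using this
  · have := congrArg QuaternionAlgebra.imJ h1
    simpa [hn] using this
  · have := congrArg QuaternionAlgebra.imK h1
    simpa [hn] using this

theorem eu0_re : (eu 0).re = 0 := rfl
theorem eu0_imI : (eu 0).imI = 1 := rfl
theorem eu0_imJ : (eu 0).imJ = 0 := rfl
theorem eu0_imK : (eu 0).imK = 0 := rfl
theorem eu1_re : (eu 1).re = 0 := rfl
theorem eu1_imI : (eu 1).imI = 0 := rfl
theorem eu1_imJ : (eu 1).imJ = 1 := rfl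
theorem eu1_imK : (eu 1).imK = 0 := rfl
theorem eu2_re : (eu 2).re = 0 := rfl
theorem eu2_imI : (eu 2).imI = 0 := rfl
theorem eu2_imJ : (eu 2).imJ = 0 := rfl
theorem eu2_imK : (eu 2).imK = 1 := rfl

/-- the algebra behind the nonsingularity -/
theorem alg8 (a y0 r0 r1 r2 r3 : ℝ)
    (e1 : 2 * a * r0 * r2 + a * r1 * r3 - r3 * y0 = 0)
    (e2 : 2 * a * r2 * r3 + r0 * y0 - a * r0 * r1 = 0)
    (e3 : -a * r2 ^ 2 + a * r3 ^ 2 + a * r0 ^ 2 + r1 * y0 = 0)
    (e4 : 2 * a * r3 * (1 + r0) - a * r1 * r2 + r2 * y0 = 0)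
    (e5 : -a * (1 + r0) ^ 2 - r1 * y0 - a * r2 ^ 2 + a * r3 ^ 2 = 0)
    (e6 : (1 + r0) * (y0 - a * r1) - 2 * a * r2 * r3 = 0) : a = 0 ∧ y0 = 0 := by
  have ha : a = 0 := by
    by_contra ha
    obtain ⟨s, rfl⟩ : ∃ s, y0 = a * s := ⟨y0 / a, by field_simp⟩
    have f1 : 2 * r0 * r2 + r3 * (r1 - s) = 0 := by
      apply mul_left_cancel₀ ha; linear_combination e1
    have f2 : 2 * r2 * r3 - r0 * (r1 - s) = 0 := by
      apply mul_left_cancel₀ ha; linear_combination e2
    have f3 : r0 ^ 2 + r3 ^ 2 - r2 ^ 2 + r1 * s = 0 := by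
      apply mul_left_cancel₀ ha; linear_combination e3
    have f5 : -(1 + r0) ^ 2 - r1 * s - r2 ^ 2 + r3 ^ 2 = 0 := by
      apply mul_left_cancel₀ ha; linear_combination e5
    have f6 : (1 + r0) * (s - r1) - 2 * r2 * r3 = 0 := by
      apply mul_left_cancel₀ ha; linear_combination e6
    have g1 : (r1 - s) * (1 + 2 * r0) = 0 := by linear_combination -f6 - f2
    have hd : r1 - s = 0 := by
      rcases mul_eq_zero.1 g1 with h | h
      · exact h
      · have h0 : r0 = -1 / 2 := by linarith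
        subst h0
        have g2 : r2 = r3 * (r1 - s) := by linear_combination -f1
        have g3 : (r1 - s) * (4 * r3 ^ 2 + 1) = 0 := by
          rw [g2] at f2
          linear_combination 2 * f2
        rcases mul_eq_zero.1 g3 with h' | h'
        · exact h'
        · nlinarith [sq_nonneg r3]
    have hs : s = r1 := by linarith
    subst hs
    have g4 : r0 * r2 = 0 := by linear_combination f1 / 2
    have g5 : r2 * r3 = 0 := by linear_combination f2 / 2
    by_cases h2 : r2 = 0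
    · subst h2
      have h3 : r0 = 0 := by nlinarith [sq_nonneg r0, sq_nonneg r3, sq_nonneg s]
      subst h3
      have h4 : r3 = 0 := by nlinarith [sq_nonneg r3, sq_nonneg s]
      subst h4
      nlinarith [sq_nonneg s]
    · have h3 : r0 = 0 := (mul_eq_zero.1 g4).resolve_right h2
      have h4 : r3 = 0 := (mul_eq_zero.1 g5).resolve_left h2
      subst h3
      subst h4
      nlinarith [sq_nonneg s, sq_nonneg r2]
  subst ha
  refine ⟨rfl, ?_⟩
  linear_combination e6 - e2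

/-- nonsingularity of the twelve forms -/
theorem ns8 (p q p' q' : ℍ[ℝ]) (h1 : IsR (p * eu 0 * star p')) (h2 : IsR (q * eu 1 * star q'))
    (h3 : IsR ((p + q) * eu 2 * star (p' + q'))) (h4 : IsR (p * star q' - q * star p')) :
    (p = 0 ∧ q = 0) ∨ (p' = 0 ∧ q' = 0) := by
  by_cases hp : p = 0
  · subst hp
    by_cases hq : q = 0
    · exact Or.inl ⟨rfl, hq⟩
    · right
      obtain ⟨x, rfl⟩ : ∃ x, p' = q * x := ⟨q⁻¹ * p', by rw [← mul_assoc, mul_inv_cancel₀ hq, one_mul]⟩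
      obtain ⟨y, rfl⟩ : ∃ y, q' = q * y := ⟨q⁻¹ * q', by rw [← mul_assoc, mul_inv_cancel₀ hq, one_mul]⟩
      have k2 : IsR (eu 1 * star y) := by
        apply isR_of_conj hq
        rwa [star_mul, mul_assoc, ← mul_assoc (eu 1), ← mul_assoc] at h2
      have k4 : IsR (-star x) := by
        apply isR_of_conj hq
        rwa [zero_mul, zero_sub, star_mul, ← mul_assoc, ← neg_mul, ← mul_neg] at h4
      have k3 : IsR (eu 2 * star (x + y)) := by
        apply isR_of_conj hq
        rwa [zero_add, ← mul_add, star_mul, mul_assoc, ← mul_assoc (eu 2), ← mul_assoc] at h3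
      obtain ⟨a1, a2, a3⟩ := k2
      obtain ⟨b1, b2, b3⟩ := k4
      obtain ⟨c1, c2, c3⟩ := k3
      simp [Quaternion.imI_mul, Quaternion.imJ_mul, Quaternion.imK_mul, eu1_re, eu1_imI, eu1_imJ,
        eu1_imK, eu2_re, eu2_imI, eu2_imJ, eu2_imK] at a1 a2 a3 b1 b2 b3 c1 c2 c3
      have hx : x = 0 := by
        ext <;> simp <;> linarith
      have hy : y = 0 := by
        ext <;> simp <;> linarith
      rw [hx, hy]
      simp
  · right
    obtain ⟨x, rfl⟩ : ∃ x, p' = p * x := ⟨p⁻¹ * p', by rw [← mul_assoc, mul_inv_cancel₀ hp, one_mul]⟩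
    obtain ⟨y, rfl⟩ : ∃ y, q' = p * y := ⟨p⁻¹ * q', by rw [← mul_assoc, mul_inv_cancel₀ hp, one_mul]⟩
    obtain ⟨r, rfl⟩ : ∃ r, q = p * r := ⟨p⁻¹ * q, by rw [← mul_assoc, mul_inv_cancel₀ hp, one_mul]⟩
    have k1 : IsR (eu 0 * star x) := by
      apply isR_of_conj hp
      rwa [star_mul, mul_assoc, ← mul_assoc (eu 0), ← mul_assoc] at h1
    have k2 : IsR (r * eu 1 * star y) := by
      apply isR_of_conj hp
      have : p * r * eu 1 * star (p * y) = p * (r * eu 1 * star y) * star p := by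
        rw [star_mul]; simp only [mul_assoc]
      rwa [this] at h2
    have k3 : IsR ((1 + r) * eu 2 * star (x + y)) := by
      apply isR_of_conj hp
      have : (p + p * r) * eu 2 * star (p * x + p * y) =
          p * ((1 + r) * eu 2 * star (x + y)) * star p := by
        rw [← mul_add, star_mul]
        have : p + p * r = p * (1 + r) := by rw [mul_add, mul_one]
        rw [this]
        simp only [mul_assoc]
      rwa [this] at h3
    have k4 : IsR (star y - r * star x) := by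
      apply isR_of_conj hp
      have : p * star (p * y) - p * r * star (p * x) = p * (star y - r * star x) * star p := by
        rw [star_mul, star_mul, mul_sub, sub_mul]
        simp only [mul_assoc]
      rwa [this] at h4
    obtain ⟨a1, a2, a3⟩ := k1
    obtain ⟨b1, b2, b3⟩ := k2
    obtain ⟨c1, c2, c3⟩ := k3
    obtain ⟨d1, d2, d3⟩ := k4
    simp [Quaternion.imI_mul, Quaternion.imJ_mul, Quaternion.imK_mul, Quaternion.re_mul,
      eu0_re, eu0_imI, eu0_imJ, eu0_imK, eu1_re, eu1_imI, eu1_imJ,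
      eu1_imK, eu2_re, eu2_imI, eu2_imJ, eu2_imK] at a1 a2 a3 b1 b2 b3 c1 c2 c3 d1 d2 d3
    rw [a1, a2, a3] at c1 c2 c3 d1 d2 d3
    have y1 : y.imI = x.imI * r.re := by linear_combination -d1
    have y2 : y.imJ = x.imI * r.imK := by linear_combination -d2
    have y3 : y.imK = -(x.imI * r.imJ) := by linear_combination -d3
    rw [y1, y2, y3] at b1 b2 b3 c1 c2 c3
    obtain ⟨hx, hy⟩ := alg8 x.imI y.re r.re r.imI r.imJ r.imK (by linear_combination b1)
      (by linear_combination b2) (by linear_combination b3) (by linear_combination c1)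
      (by linear_combination c2) (by linear_combination c3)
    rw [hx] at y1 y2 y3
    have hx0 : x = 0 := by
      ext <;> simp [a1, a2, a3, hx]
    have hy0 : y = 0 := by
      ext <;> simp [y1, y2, y3, hy]
    rw [hx0, hy0]
    simp

/-- the matrices of the complex structures on `ℍ²` (`s` is a square root of 3) -/
noncomputable def A8 (s x1 x2 x3 : ℝ) (j i : Fin 2) : ℍ[ℝ] :=
  ![![qt 0 (4 * s / 9 * x1) (s / 9 * x2) (s / 9 * x3),
      qt (x1 * x2 * x3 / 3) 0 (-(x2 / 3)) (x3 / 3)],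
    ![qt (-(x1 * x2 * x3 / 3)) 0 (-(x2 / 3)) (x3 / 3),
      qt 0 0 (s / 3 * x2) (s / 3 * x3)]] j i

theorem A8_star (s x1 x2 x3 : ℝ) (i j : Fin 2) :
    star (A8 s x1 x2 x3 i j) = -A8 s x1 x2 x3 j i := by
  fin_cases i <;> fin_cases j <;> ext <;>
    simp [A8, qt_re, qt_imI, qt_imJ, qt_imK]

theorem A8_sq (s x1 x2 x3 : ℝ) (hs : s ^ 2 = 3) (h1 : x1 ^ 2 = 1) (h2 : x2 ^ 2 = 1)
    (h3 : x3 ^ 2 = 1) (i k : Fin 2) :
    ∑ j, A8 s x1 x2 x3 i j * A8 s x1 x2 x3 j k = if i = k then -1 else 0 := by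
  rw [Fin.sum_univ_two]
  fin_cases i <;> fin_cases k <;> ext <;>
    simp [A8, qt_re, qt_imI, qt_imJ, qt_imK, Quaternion.re_mul, Quaternion.imI_mul,
      Quaternion.imJ_mul, Quaternion.imK_mul]
  all_goals first
    | ring1
    | linear_combination (4 * s / 27) * h2 - (4 * s / 27) * h3
    | linear_combination (4 * s / 27 * x2 * x3) * h1
    | linear_combination (4 * s / 27 * x1 * x3) * h2
    | linear_combination (4 * s / 27 * x1 * x2) * h3
    | linear_combination (-4 * s / 27 * x2 * x3) * h1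
    | linear_combination (-4 * s / 27 * x1 * x3) * h2
    | linear_combination (-4 * s / 27 * x1 * x2) * h3
    | linear_combination (-(16 * x1 ^ 2 + x2 ^ 2 + x3 ^ 2) / 81) * hs +
        (-16 / 27 - x2 ^ 2 * x3 ^ 2 / 9) * h1 + (-x3 ^ 2 / 9 - 4 / 27) * h2 + (-7 / 27) * h3
    | linear_combination (-(x2 ^ 2 + x3 ^ 2) / 9) * hs +
        (-x2 ^ 2 * x3 ^ 2 / 9) * h1 + (-x3 ^ 2 / 9 - 4 / 9) * h2 + (-5 / 9) * h3

/-- the four sign patterns -/
def sg8 : Fin 4 → Fin 3 → ℝ := ![![1, 1, 1], ![1, -1, -1], ![-1, 1, -1], ![-1, -1, 1]]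

/-- the four complex structures -/
noncomputable def K8 (x : Fin 4) : V 2 →L[ℝ] V 2 :=
  rmul 2 (A8 (Real.sqrt 3) (sg8 x 0) (sg8 x 1) (sg8 x 2))

theorem K8_mem (x : Fin 4) : K8 x ∈ skew (QV 2).Γ := rmul_mem 2 _ (A8_star _ _ _ _)

theorem K8_sq (x : Fin 4) : K8 x * K8 x = -1 := by
  have h3 : Real.sqrt 3 ^ 2 = 3 := Real.sq_sqrt (by norm_num)
  refine rmul_sq 2 _ (A8_sq _ _ _ _ h3 ?_ ?_ ?_) <;>
    fin_cases x <;> simp [sg8]

/-- the values of the forms -/
theorem K8_form (u v : V 2) (x : Fin 4) (k : Fin 3)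
    (h : ⟪u, v⟫ + ⟪u, (QV 2).L (eu k) (K8 x v)⟫ = 0) :
    ((∑ i, (∑ j, u j * A8 (Real.sqrt 3) (sg8 x 0) (sg8 x 1) (sg8 x 2) j i) * star (v i)) *
      star (eu k)).re = ⟪u, v⟫ := by
  have h1 : (∑ i, (∑ j, u j * A8 (Real.sqrt 3) (sg8 x 0) (sg8 x 1) (sg8 x 2) j i) * star (v i)) =
      (QV 2).h (K8 x u) v := rfl
  rw [h1, QStr.h_skew (K8_mem x), neg_mul, ← (QV 2).h_L_right, Quaternion.re_neg, (QV 2).re_h]
  linarith

/-- the general matrix `c0 ε + Σ c_m e_m ⊗ y_m y_mᵀ` -/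
def B8 (c : Fin 4 → ℝ) (y : Fin 3 → Fin 2 → ℝ) (j i : Fin 2) : ℍ[ℝ] :=
  qt (c 0 * (![![0, 1], ![-1, 0]] : Fin 2 → Fin 2 → ℝ) j i) (c 1 * (y 0 j * y 0 i))
    (c 2 * (y 1 j * y 1 i)) (c 3 * (y 2 j * y 2 i))

theorem B8_form (c : Fin 4 → ℝ) (y : Fin 3 → Fin 2 → ℝ) (u v : Fin 2 → ℍ[ℝ]) :
    ∑ i, (∑ j, u j * B8 c y j i) * star (v i) =
      c 0 • (u 0 * star (v 1) - u 1 * star (v 0)) +
      c 1 • ((y 0 0 • u 0 + y 0 1 • u 1) * eu 0 * star (y 0 0 • v 0 + y 0 1 • v 1)) +
      c 2 • ((y 1 0 • u 0 + y 1 1 • u 1) * eu 1 * star (y 1 0 • v 0 + y 1 1 • v 1)) +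
      c 3 • ((y 2 0 • u 0 + y 2 1 • u 1) * eu 2 * star (y 2 0 • v 0 + y 2 1 • v 1)) := by
  simp only [Fin.sum_univ_two]
  ext <;>
    simp [B8, qt_re, qt_imI, qt_imJ, qt_imK, Quaternion.re_mul, Quaternion.imI_mul,
      Quaternion.imJ_mul, Quaternion.imK_mul, eu0_re, eu0_imI, eu0_imJ, eu0_imK, eu1_re, eu1_imI,
      eu1_imJ, eu1_imK, eu2_re, eu2_imI, eu2_imJ, eu2_imK] <;>
    ring

/-- the three lines -/
noncomputable def y8 (s : ℝ) : Fin 3 → Fin 2 → ℝ := ![![1, 0], ![-1 / 2, s / 2], ![1 / 2, s / 2]]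

theorem A8_eq (s x1 x2 x3 : ℝ) (hs : s ^ 2 = 3) (j i : Fin 2) :
    A8 s x1 x2 x3 j i =
      B8 ![x1 * x2 * x3 / 3, 4 * s / 9 * x1, 4 * s / 9 * x2, 4 * s / 9 * x3] (y8 s) j i := by
  fin_cases i <;> fin_cases j <;> ext <;>
    simp [A8, B8, y8, qt_re, qt_imI, qt_imJ, qt_imK]
  all_goals first
    | ring1
    | linear_combination (x2 / 9) * hs
    | linear_combination (-x3 / 9) * hs
    | linear_combination (-s * x2 / 9) * hs
    | linear_combination (-s * x3 / 9) * hs

theorem isR_of_comp {z : ℍ[ℝ]} (h : ∀ k, (z * star (eu k)).re = 0) : IsR z := by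
  have h0 := h 0
  have h1 := h 1
  have h2 := h 2
  simp [Quaternion.re_mul, eu0_re, eu0_imI, eu0_imJ, eu0_imK, eu1_re, eu1_imI,
      eu1_imJ, eu1_imK, eu2_re, eu2_imI, eu2_imJ, eu2_imK] at h0 h1 h2
  exact ⟨h0, h1, h2⟩

/-- the twelve involutions -/
noncomputable def J8 (p : Fin 4 × Fin 3) : V 2 →ₗ[ℝ] V 2 := JK (QV 2) (eu p.2) (K8 p.1)

theorem J8_ns (u v : V 2) (h : ∀ p, ⟪u, v⟫ + ⟪u, J8 p v⟫ = 0) : u = 0 ∨ v = 0 := by
  set s := Real.sqrt 3 with hsd
  have hs : s ^ 2 = 3 := Real.sq_sqrt (by norm_num)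
  have hs0 : s ≠ 0 := by
    intro h0
    rw [h0] at hs
    norm_num at hs
  set D : ℍ[ℝ] := u 0 * star (v 1) - u 1 * star (v 0) with hD
  set F : Fin 3 → ℍ[ℝ] := fun m => (y8 s m 0 • u 0 + y8 s m 1 • u 1) * eu m *
    star (y8 s m 0 • v 0 + y8 s m 1 • v 1) with hF
  have key : ∀ x k, (sg8 x 0 * sg8 x 1 * sg8 x 2 / 3) * (D * star (eu k)).re +
      4 * s / 9 * sg8 x 0 * (F 0 * star (eu k)).re + 4 * s / 9 * sg8 x 1 * (F 1 * star (eu k)).re +
      4 * s / 9 * sg8 x 2 * (F 2 * star (eu k)).re = ⟪u, v⟫ := by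
    intro x k
    have h1 := K8_form u v x k (h (x, k))
    have h2 : (∑ i, (∑ j, u j * A8 s (sg8 x 0) (sg8 x 1) (sg8 x 2) j i) * star (v i)) =
        (sg8 x 0 * sg8 x 1 * sg8 x 2 / 3) • D + (4 * s / 9 * sg8 x 0) • F 0 +
          (4 * s / 9 * sg8 x 1) • F 1 + (4 * s / 9 * sg8 x 2) • F 2 := by
      have h3 := B8_form ![sg8 x 0 * sg8 x 1 * sg8 x 2 / 3, 4 * s / 9 * sg8 x 0,
        4 * s / 9 * sg8 x 1, 4 * s / 9 * sg8 x 2] (y8 s) u v
      simp only [A8_eq s _ _ _ hs]
      exact h3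
    rw [h2] at h1
    rw [← h1]
    simp only [add_mul, Quaternion.re_add, smul_mul_assoc, Quaternion.re_smul, smul_eq_mul]
  have e : ∀ k, (F 0 * star (eu k)).re = 0 ∧ (F 1 * star (eu k)).re = 0 ∧
      (F 2 * star (eu k)).re = 0 ∧ (D * star (eu k)).re = 3 * ⟪u, v⟫ := by
    intro k
    have k0 := key 0 k
    have k1 := key 1 k
    have k2 := key 2 k
    have k3 := key 3 k
    generalize (F 0 * star (eu k)).re = f0 at k0 k1 k2 k3 ⊢
    generalize (F 1 * star (eu k)).re = f1 at k0 k1 k2 k3 ⊢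
    generalize (F 2 * star (eu k)).re = f2 at k0 k1 k2 k3 ⊢
    generalize (D * star (eu k)).re = d at k0 k1 k2 k3 ⊢
    simp [sg8] at k0 k1 k2 k3
    refine ⟨?_, ?_, ?_, ?_⟩
    · have : s * f0 = 0 := by
        linear_combination (9 / 16) * (k0 + k1 - k2 - k3)
      exact (mul_eq_zero.1 this).resolve_left hs0
    · have : s * f1 = 0 := by
        linear_combination (9 / 16) * (k0 - k1 + k2 - k3)
      exact (mul_eq_zero.1 this).resolve_left hs0
    · have : s * f2 = 0 := by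
        linear_combination (9 / 16) * (k0 - k1 - k2 + k3)
      exact (mul_eq_zero.1 this).resolve_left hs0
    · linear_combination (3 / 4) * (k0 + k1 + k2 + k3)
  have r0 : IsR (F 0) := isR_of_comp fun k => (e k).1
  have r1 : IsR (F 1) := isR_of_comp fun k => (e k).2.1
  have r2 : IsR (F 2) := isR_of_comp fun k => (e k).2.2.1
  set q : ℍ[ℝ] := (-1 / 2 : ℝ) • u 0 + (s / 2) • u 1 with hq
  set q' : ℍ[ℝ] := (-1 / 2 : ℝ) • v 0 + (s / 2) • v 1 with hq'
  have hw : u 0 + q = (1 / 2 : ℝ) • u 0 + (s / 2) • u 1 := by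
    rw [hq]; module
  have hw' : v 0 + q' = (1 / 2 : ℝ) • v 0 + (s / 2) • v 1 := by
    rw [hq']; module
  have t0 : IsR (u 0 * eu 0 * star (v 0)) := by
    have : F 0 = u 0 * eu 0 * star (v 0) := by
      simp [hF, y8]
    rwa [this] at r0
  have t1 : IsR (q * eu 1 * star q') := r1
  have t2 : IsR ((u 0 + q) * eu 2 * star (v 0 + q')) := by
    rw [hw, hw']; exact r2
  have z0 := re_zero_of_isR (eu_re 0) (eu_sq 0) t0
  have z1 := re_zero_of_isR (eu_re 1) (eu_sq 1) t1
  have z2 := re_zero_of_isR (eu_re 2) (eu_sq 2) t2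
  have hρ : ⟪u, v⟫ = 0 := by
    rw [hw, hw'] at z2
    rw [inner_V, Fin.sum_univ_two]
    rw [hq, hq'] at z1
    simp [Quaternion.re_mul] at z0 z1 z2 ⊢
    nlinarith
  have t3 : IsR (u 0 * star q' - q * star (v 0)) := by
    have hD' : IsR D := isR_of_comp fun k => by rw [(e k).2.2.2, hρ, mul_zero]
    have : u 0 * star q' - q * star (v 0) = (s / 2) • D := by
      rw [hq, hq', hD, star_add, Quaternion.star_smul, Quaternion.star_smul, mul_add, add_mul,
        mul_smul_comm, mul_smul_comm, smul_mul_assoc, smul_mul_assoc, smul_sub]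
      abel
    rw [this]
    obtain ⟨d1, d2, d3⟩ := hD'
    exact ⟨by rw [Quaternion.imI_smul, d1, smul_zero], by rw [Quaternion.imJ_smul, d2, smul_zero],
      by rw [Quaternion.imK_smul, d3, smul_zero]⟩
  have fin : ∀ (w : V 2), w 0 = 0 → (-1 / 2 : ℝ) • w 0 + (s / 2) • w 1 = 0 → w = 0 := by
    intro w h0 h1
    rw [h0, smul_zero, zero_add] at h1
    have h2 : w 1 = 0 := (smul_eq_zero.1 h1).resolve_left (by positivity)
    ext i : 1
    fin_cases i
    · exact h0
    · exact h2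
  rcases ns8 (u 0) q (v 0) q' t0 t1 t2 t3 with ⟨h1, h2⟩ | ⟨h1, h2⟩
  · exact Or.inl (fin u h1 h2)
  · exact Or.inr (fin v h1 h2)

theorem J8_sq (p : Fin 4 × Fin 3) (x : V 2) : J8 p (J8 p x) = x :=
  JK_sq (eu_sq p.2) (K8_mem p.1) (K8_sq p.1) x

theorem J8_symm (p : Fin 4 × Fin 3) (x y : V 2) : ⟪J8 p x, y⟫ = ⟪x, J8 p y⟫ :=
  JK_symm (eu_re p.2) (K8_mem p.1) x y

theorem eu_anti (k : Fin 3) : ∃ β : ℍ[ℝ], β ≠ 0 ∧ β * eu k = -(eu k * β) := by
  obtain ⟨β, hβ, h⟩ := exists_anticomm (eu k) (eu_re k)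
  exact ⟨β, hβ, by rw [h, neg_neg]⟩

theorem J8_anti (p : Fin 4 × Fin 3) :
    ∃ T : V 2 →ₗ[ℝ] V 2, Function.Injective T ∧ ∀ x, T (J8 p x) = -J8 p (T x) := by
  obtain ⟨β, hβ, h⟩ := eu_anti p.2
  refine ⟨(((QV 2).L β : V 2 →L[ℝ] V 2) : V 2 →ₗ[ℝ] V 2), ?_, fun x => ?_⟩
  · rw [injective_iff_map_eq_zero]
    intro x hx
    exact ((QV 2).L_eq_zero hx).resolve_left hβ
  · show (QV 2).L β ((QV 2).L (eu p.2) (K8 p.1 x)) = -(QV 2).L (eu p.2) (K8 p.1 ((QV 2).L β x))
    rw [QStr.comm (K8_mem p.1), ← (QV 2).L_mul, ← (QV 2).L_mul, h, (QV 2).L_neg]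

/-- an injective map anticommuting with an involution: the fixed space has half the dimension -/
theorem finrank_fixSub {E : Type*} [NormedAddCommGroup E] [InnerProductSpace ℝ E]
    [FiniteDimensional ℝ E] (J : E →ₗ[ℝ] E) (h2 : ∀ x, J (J x) = x)
    (T : E →ₗ[ℝ] E) (hT : Function.Injective T) (hTJ : ∀ x, T (J x) = -J (T x)) :
    2 * finrank ℝ (fixSub J) = finrank ℝ E := by
  have m1 : ∀ x, x ∈ fixSub J ↔ J x = x := fun x => by
    rw [fixSub, LinearMap.mem_ker, LinearMap.sub_apply, LinearMap.id_apply, sub_eq_zero]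
  have m2 : ∀ x, x ∈ fixSub (-J) ↔ J x = -x := fun x => by
    rw [fixSub, LinearMap.mem_ker, LinearMap.sub_apply, LinearMap.id_apply, sub_eq_zero,
      LinearMap.neg_apply, neg_eq_iff_eq_neg]
  have hc : IsCompl (fixSub J) (fixSub (-J)) := by
    constructor
    · rw [Submodule.disjoint_def]
      intro x hx hx'
      have a1 := (m1 x).1 hx
      have a2 := (m2 x).1 hx'
      rw [a1] at a2
      have a3 : (2 : ℝ) • x = 0 := by
        rw [two_smul]
        exact eq_neg_iff_add_eq_zero.1 a2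
      exact (smul_eq_zero.1 a3).resolve_left (by norm_num)
    · rw [codisjoint_iff, eq_top_iff]
      intro x _
      rw [Submodule.mem_sup]
      refine ⟨(1 / 2 : ℝ) • (x + J x), ?_, (1 / 2 : ℝ) • (x - J x), ?_, by module⟩
      · rw [m1, map_smul, map_add, h2, add_comm]
      · rw [m2, map_smul, map_sub, h2, ← smul_neg, neg_sub]
  have h3 := Submodule.finrank_add_eq_of_isCompl hc
  have h4 : finrank ℝ (fixSub J) ≤ finrank ℝ (fixSub (-J)) := by
    refine LinearMap.finrank_le_finrank_of_injective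
      (f := (T.restrict (p := fixSub J) (q := fixSub (-J)) (fun x hx => by
        rw [m2]
        have := hTJ x
        rw [(m1 x).1 hx] at this
        exact neg_eq_iff_eq_neg.1 this.symm))) ?_
    intro x y hxy
    exact Subtype.ext (hT (congrArg Subtype.val hxy))
  have h5 : finrank ℝ (fixSub (-J)) ≤ finrank ℝ (fixSub J) := by
    refine LinearMap.finrank_le_finrank_of_injective
      (f := (T.restrict (p := fixSub (-J)) (q := fixSub J) (fun x hx => by
        rw [m1]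
        have := hTJ x
        rw [(m2 x).1 hx, map_neg, neg_inj] at this
        exact this.symm))) ?_
    intro x y hxy
    exact Subtype.ext (hT (congrArg Subtype.val hxy))
  omega

/-- as `countsAny_of_invol`, with the dimension of the subspaces -/
theorem family_of_invol {E : Type*} [NormedAddCommGroup E] [InnerProductSpace ℝ E]
    [FiniteDimensional ℝ E] {M N : ℕ} {ι : Type*} [Fintype ι] (hι : Fintype.card ι = N)
    (hE : finrank ℝ E = M) (J : ι → E →ₗ[ℝ] E)
    (h2 : ∀ n x, J n (J n x) = x) (hs : ∀ n x y, ⟪J n x, y⟫ = ⟪x, J n y⟫)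
    (hT : ∀ n, ∃ T : E →ₗ[ℝ] E, Function.Injective T ∧ ∀ x, T (J n x) = -J n (T x))
    (hns : ∀ u v, (∀ n, ⟪u, v⟫ + ⟪u, J n v⟫ = 0) → u = 0 ∨ v = 0) :
    ∃ W : Fin N → Submodule ℝ (EuclideanSpace ℝ (Fin M)),
      (∀ n, 2 * finrank ℝ (W n) = M) ∧ AllowsPhaseRetrieval W := by
  subst hE
  let f := Fintype.equivFinOfCardEq hι
  let e : E ≃ₗᵢ[ℝ] EuclideanSpace ℝ (Fin (finrank ℝ E)) :=
    (stdOrthonormalBasis ℝ E).repr
  let J' : Fin N → EuclideanSpace ℝ (Fin (finrank ℝ E)) →ₗ[ℝ] EuclideanSpace ℝ (Fin (finrank ℝ E)) :=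
    fun n => e.toLinearEquiv.toLinearMap ∘ₗ J (f.symm n) ∘ₗ e.symm.toLinearEquiv.toLinearMap
  have hJ' : ∀ n x, J' n x = e (J (f.symm n) (e.symm x)) := fun n x => rfl
  have h2' : ∀ n x, J' n (J' n x) = x := by
    intro n x
    rw [hJ', hJ', e.symm_apply_apply, h2, e.apply_symm_apply]
  refine ⟨fun n => fixSub (J' n), fun n => ?_, fun x y h => invol_core J' h2' ?_ ?_ x y h⟩
  · obtain ⟨T, hT1, hT2⟩ := hT (f.symm n)
    have := finrank_fixSub (J' n) (h2' n)
      (e.toLinearEquiv.toLinearMap ∘ₗ T ∘ₗ e.symm.toLinearEquiv.toLinearMap)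
      (by
        intro x y hxy
        exact e.symm.injective (hT1 (e.injective hxy)))
      (fun x => by
        show e (T (e.symm (e (J (f.symm n) (e.symm x))))) =
          -e (J (f.symm n) (e.symm (e (T (e.symm x)))))
        rw [e.symm_apply_apply, e.symm_apply_apply, hT2, map_neg])
    rw [this, finrank_euclideanSpace, Fintype.card_fin]
  · intro n x y
    rw [hJ', hJ', ← e.apply_symm_apply y, e.inner_map_map, e.symm_apply_apply, hs,
      ← e.inner_map_map, e.apply_symm_apply]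
  · intro u v h
    have := hns (e.symm u) (e.symm v) (fun n => by
      have h1 := h (f n)
      rw [hJ', f.symm_apply_apply, ← e.apply_symm_apply u, ← e.apply_symm_apply v,
        e.inner_map_map, e.inner_map_map, e.symm_apply_apply (e.symm v)] at h1
      exact h1)
    rcases this with h | h
    · left; simpa using h
    · right; simpa using h

/-- twelve 4-dimensional subspaces of `ℝ^8` allow phase retrieval -/
theorem quat_eight : ∃ W : Fin 12 → Submodule ℝ (EuclideanSpace ℝ (Fin 8)),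
    (∀ n, finrank ℝ (W n) = 4) ∧ AllowsPhaseRetrieval W := by
  obtain ⟨W, h1, h2⟩ := family_of_invol (M := 8) (N := 12) (ι := Fin 4 × Fin 3) (by simp)
    (finrank_V 2) J8 J8_sq J8_symm J8_anti J8_ns
  exact ⟨W, fun n => by have := h1 n; omega, h2⟩

end QD24
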