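import Mathlib

/-!
# From symmetric involutions to phase retrieval (by helper96)
-/

open scoped RealInnerProductSpace
open Module

namespace QD24

variable {E : Type*} [NormedAddCommGroup E] [InnerProductSpace ℝ E] [FiniteDimensional ℝ E]

/-- definitions of EvenDim / OddDim -/
def AllowsPhaseRetrieval {M N : ℕ} (W : Fin N → Submodule ℝ (EuclideanSpace ℝ (Fin M))) : Prop :=
  ∀ x y : EuclideanSpace ℝ (Fin M),
    (∀ n, ‖(W n).starProjection x‖ = ‖(W n).starProjection y‖) → x = y ∨ x = -y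

def CountsAny (M : ℕ) : Set ℕ :=
  {N | ∃ W : Fin N → Submodule ℝ (EuclideanSpace ℝ (Fin M)), AllowsPhaseRetrieval W}

/-- fixed space of a symmetric involution -/
def fixSub (J : E →ₗ[ℝ] E) : Submodule ℝ E := LinearMap.ker (J - LinearMap.id)

theorem proj_fixSub (J : E →ₗ[ℝ] E) (h2 : ∀ x, J (J x) = x)
    (hs : ∀ x y, ⟪J x, y⟫ = ⟪x, J y⟫) (x : E) :
    (fixSub J).starProjection x = (1 / 2 : ℝ) • (x + J x) := by
  apply Submodule.eq_starProjection_of_mem_of_inner_eq_zero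
  · rw [fixSub, LinearMap.mem_ker]
    simp only [LinearMap.sub_apply, LinearMap.id_apply, map_smul, map_add, h2]
    rw [sub_add_sub_cancel, sub_self, smul_zero]
  · intro w hw
    rw [fixSub, LinearMap.mem_ker, LinearMap.sub_apply, LinearMap.id_apply, sub_eq_zero] at hw
    have h1 : ⟪J x, w⟫ = ⟪x, w⟫ := by rw [hs, hw]
    rw [inner_sub_left, inner_smul_left, inner_add_left, h1]
    simp
    ring

theorem norm_proj_fixSub (J : E →ₗ[ℝ] E) (h2 : ∀ x, J (J x) = x)
    (hs : ∀ x y, ⟪J x, y⟫ = ⟪x, J y⟫) (x : E) :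
    ‖(fixSub J).starProjection x‖ ^ 2 = (1 / 2 : ℝ) * (⟪x, x⟫ + ⟪x, J x⟫) := by
  rw [proj_fixSub J h2 hs, ← real_inner_self_eq_norm_sq, inner_smul_left, inner_smul_right,
    inner_add_left, inner_add_right, inner_add_right, hs x x, hs x (J x), h2]
  simp
  ring

theorem invol_core {N : ℕ} (J : Fin N → E →ₗ[ℝ] E)
    (h2 : ∀ n x, J n (J n x) = x) (hs : ∀ n x y, ⟪J n x, y⟫ = ⟪x, J n y⟫)
    (hns : ∀ u v, (∀ n, ⟪u, v⟫ + ⟪u, J n v⟫ = 0) → u = 0 ∨ v = 0) (x y : E)
    (h : ∀ n, ‖(fixSub (J n)).starProjection x‖ = ‖(fixSub (J n)).starProjection y‖) :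
    x = y ∨ x = -y := by
  have key := hns (x - y) (x + y) (fun n => by
    have h1 := norm_proj_fixSub (J n) (h2 n) (hs n) x
    have h3 := norm_proj_fixSub (J n) (h2 n) (hs n) y
    rw [h n] at h1
    have h4 : ⟪x, x⟫ + ⟪x, J n x⟫ = ⟪y, y⟫ + ⟪y, J n y⟫ := by linarith
    have h5 : ⟪y, J n x⟫ = ⟪x, J n y⟫ := by rw [← hs n y x, real_inner_comm]
    rw [map_add, inner_sub_left, inner_sub_left, inner_add_right, inner_add_right,
      inner_add_right, inner_add_right, h5, real_inner_comm x y]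
    linarith)
  rcases key with h | h
  · left; exact sub_eq_zero.mp h
  · right; exact eq_neg_of_add_eq_zero_left h

/-- Q4 (REAL): symmetric involutions -/
theorem countsAny_of_invol {M N : ℕ} (hE : finrank ℝ E = M) (J : Fin N → E →ₗ[ℝ] E)
    (h2 : ∀ n x, J n (J n x) = x) (hs : ∀ n x y, ⟪J n x, y⟫ = ⟪x, J n y⟫)
    (hns : ∀ u v, (∀ n, ⟪u, v⟫ + ⟪u, J n v⟫ = 0) → u = 0 ∨ v = 0) : N ∈ CountsAny M := by
  subst hE
  let e : E ≃ₗᵢ[ℝ] EuclideanSpace ℝ (Fin (finrank ℝ E)) :=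
    (stdOrthonormalBasis ℝ E).repr
  let J' : Fin N → EuclideanSpace ℝ (Fin (finrank ℝ E)) →ₗ[ℝ] EuclideanSpace ℝ (Fin (finrank ℝ E)) :=
    fun n => e.toLinearEquiv.toLinearMap ∘ₗ J n ∘ₗ e.symm.toLinearEquiv.toLinearMap
  have hJ' : ∀ n x, J' n x = e (J n (e.symm x)) := fun n x => rfl
  refine ⟨fun n => fixSub (J' n), fun x y h => invol_core J' ?_ ?_ ?_ x y h⟩
  · intro n x
    rw [hJ', hJ', e.symm_apply_apply, h2, e.apply_symm_apply]
  · intro n x y
    rw [hJ', hJ', ← e.apply_symm_apply y, e.inner_map_map, e.symm_apply_apply, hs,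
      ← e.inner_map_map, e.apply_symm_apply]
  · intro u v h
    have := hns (e.symm u) (e.symm v) (fun n => by
      have h1 := h n
      rw [hJ', ← e.apply_symm_apply u, ← e.apply_symm_apply v, e.inner_map_map, e.inner_map_map,
        e.symm_apply_apply (e.symm v)] at h1
      exact h1)
    rcases this with h | h
    · left; simpa using h
    · right; simpa using h

end QD24
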