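import Pool.Agent.Lib_helper24.QD.Strata
import Pool.Agent.Lib_helper24.QD.Cayley
import Pool.Agent.Lib_helper24.QD.Real
import Pool.Agent.Lib_helper24.QD.Concrete

/-!
# `N_min(4q) ≤ 8q - 4` for `q ≥ 3`
-/

open scoped Quaternion RealInnerProductSpace
open Module

set_option linter.unusedSectionVars false

namespace QD24

variable {E : Type*} [NormedAddCommGroup E] [InnerProductSpace ℝ E] [FiniteDimensional ℝ E]

theorem countsAny_of_fintype {M N : ℕ} {ι : Type*} [Fintype ι] (hι : Fintype.card ι = N)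
    (hE : finrank ℝ E = M) (J : ι → E →ₗ[ℝ] E)
    (h2 : ∀ n x, J n (J n x) = x) (hs : ∀ n x y, ⟪J n x, y⟫ = ⟪x, J n y⟫)
    (hns : ∀ u v, (∀ n, ⟪u, v⟫ + ⟪u, J n v⟫ = 0) → u = 0 ∨ v = 0) : N ∈ CountsAny M := by
  let e := Fintype.equivFinOfCardEq hι
  refine countsAny_of_invol hE (fun n => J (e.symm n)) (fun n x => h2 _ x)
    (fun n x y => hs _ x y) (fun u v h => hns u v fun n => ?_)
  have := h (e n)
  rwa [e.symm_apply_apply] at this

/-- the three imaginary units -/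
def eu : Fin 3 → ℍ[ℝ] := ![qt 0 1 0 0, qt 0 0 1 0, qt 0 0 0 1]

theorem eu_re (k : Fin 3) : (eu k).re = 0 := by
  fin_cases k <;> rfl

theorem eu_sq (k : Fin 3) : eu k * eu k = -1 := by
  rw [mul_self_of_re (eu_re k)]
  have : ‖eu k‖ ^ 2 = 1 := by
    rw [sq, ← Quaternion.normSq_eq_norm_mul_self, Quaternion.normSq_def']
    fin_cases k <;> simp [eu, qt_re, qt_imI, qt_imJ, qt_imK]
  rw [this]; simp

variable (Q : QStr E)

/-- the symmetric involution `α K` -/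
noncomputable def JK (α : ℍ[ℝ]) (K : E →L[ℝ] E) : E →ₗ[ℝ] E := ((Q.L α * K : E →L[ℝ] E) : E →ₗ[ℝ] E)

theorem JK_apply (α : ℍ[ℝ]) (K : E →L[ℝ] E) (x : E) : JK Q α K x = Q.L α (K x) := rfl

variable {Q}

theorem JK_sq {α : ℍ[ℝ]} (hα : α * α = -1) {K : E →L[ℝ] E}
    (hK : K ∈ skew Q.Γ) (hK2 : K * K = -1) (x : E) : JK Q α K (JK Q α K x) = x := by
  have h1 : K (K x) = -x := congrArg (fun f : E →L[ℝ] E => f x) hK2
  rw [JK_apply, JK_apply, QStr.comm hK, h1, ← Q.L_mul, hα, Q.L_neg, Q.L_one, neg_neg]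

theorem JK_symm {α : ℍ[ℝ]} (hα : α.re = 0) {K : E →L[ℝ] E}
    (hK : K ∈ skew Q.Γ) (x y : E) : ⟪JK Q α K x, y⟫ = ⟪x, JK Q α K y⟫ := by
  rw [JK_apply, JK_apply, ← Q.re_h, ← Q.re_h, Q.h_L, Q.h_L_right, star_of_re hα, QStr.h_skew hK,
    re_mul_comm']
  simp

variable (Q)

/-- the reflection `2 Q_y - 1` in the quaternionic line `ℍ y` -/
noncomputable def JL (y : E) : E →ₗ[ℝ] E where
  toFun v := (2 / ‖y‖ ^ 2) • Q.L (Q.h v y) y - v
  map_add' v w := by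
    simp only [map_add, add_apply, smul_add]; abel
  map_smul' c v := by
    simp only [map_smul, smul_apply, RingHom.id_apply, smul_sub]
    rw [smul_comm]

theorem JL_apply (y v : E) : JL Q y v = (2 / ‖y‖ ^ 2) • Q.L (Q.h v y) y - v := rfl

theorem JL_sq (y v : E) : JL Q y (JL Q y v) = v := by
  by_cases hy : y = 0
  · subst hy
    simp [JL_apply]
  · have hn : ‖y‖ ^ 2 ≠ 0 := by
      have := norm_ne_zero_iff.2 hy
      positivity
    have h1 : Q.h (JL Q y v) y = Q.h v y := by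
      rw [JL_apply, map_sub, map_smul, sub_apply, smul_apply, Q.h_L, Q.h_self,
        ← Quaternion.coe_commutes, Quaternion.coe_mul_eq_smul, smul_smul,
        div_mul_cancel₀ _ hn, two_smul]
      abel
    rw [JL_apply Q y (JL Q y v), h1, JL_apply]
    abel

theorem inner_JL (y u v : E) :
    ⟪u, JL Q y v⟫ = (2 / ‖y‖ ^ 2) * ⟪Q.h u y, Q.h v y⟫ - ⟪u, v⟫ := by
  rw [JL_apply, inner_sub_right, inner_smul_right, ← Q.re_h u (Q.L _ _), Q.h_L_right,
    Quaternion.inner_def]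

theorem JL_symm (y x z : E) : ⟪JL Q y x, z⟫ = ⟪x, JL Q y z⟫ := by
  rw [real_inner_comm, inner_JL, inner_JL, real_inner_comm z x,
    real_inner_comm (Q.h z y) (Q.h x y)]

/-- if the three components of `h(u, K v)` vanish then it is real -/
theorem real_of_comp {u w : E} (h : ∀ k, ⟪u, Q.L (eu k) w⟫ = 0) : Q.h u w = Q.h w u := by
  have h' : ∀ k, (Q.h u w * star (eu k)).re = 0 := fun k => by
    rw [← Q.h_L_right, Q.re_h, h k]
  have h0 := h' 0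
  have h1 := h' 1
  have h2 := h' 2
  simp [eu, Quaternion.re_mul, qt_re, qt_imI, qt_imJ, qt_imK] at h0 h1 h2
  rw [← Q.star_h u w]
  ext
  · simp
  · simp [h0]
  · simp [h1]
  · simp [h2]

theorem assemble {M n m : ℕ} (hE : finrank ℝ E = M) (hn : 0 < n) (K : Fin n → (E →L[ℝ] E))
    (hK : ∀ a, K a ∈ skew Q.Γ) (hK2 : ∀ a, K a * K a = -1) (y : Fin m → E)
    (hns : ∀ u v : E, ⟪u, v⟫ = 0 → (∀ a, Q.h u (K a v) = Q.h (K a v) u) →
      (∀ b, ⟪Q.h u (y b), Q.h v (y b)⟫ = 0) → u = 0 ∨ v = 0) :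
    n * 3 + (1 + m) ∈ CountsAny M := by
  let J : (Fin n × Fin 3) ⊕ (Unit ⊕ Fin m) → (E →ₗ[ℝ] E) :=
    Sum.elim (fun p => JK Q (eu p.2) (K p.1))
      (Sum.elim (fun _ => JK Q (-eu 0) (K ⟨0, hn⟩)) (fun b => JL Q (y b)))
  refine countsAny_of_fintype (ι := (Fin n × Fin 3) ⊕ (Unit ⊕ Fin m)) (by simp) hE J ?_ ?_ ?_
  · rintro (⟨a, k⟩ | ⟨_⟩ | b) x
    · exact JK_sq (eu_sq k) (hK a) (hK2 a) x
    · exact JK_sq (by rw [neg_mul_neg, eu_sq]) (hK _) (hK2 _) x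
    · exact JL_sq Q (y b) x
  · rintro (⟨a, k⟩ | ⟨_⟩ | b) x z
    · exact JK_symm (eu_re k) (hK a) x z
    · exact JK_symm (by rw [Quaternion.re_neg, eu_re, neg_zero]) (hK _) x z
    · exact JL_symm Q (y b) x z
  · intro u v h
    have e1 : ⟪u, v⟫ + ⟪u, Q.L (eu 0) (K ⟨0, hn⟩ v)⟫ = 0 := h (Sum.inl (⟨0, hn⟩, 0))
    have e2 : ⟪u, v⟫ + ⟪u, Q.L (-eu 0) (K ⟨0, hn⟩ v)⟫ = 0 := h (Sum.inr (Sum.inl ()))
    rw [Q.L_neg, inner_neg_right] at e2
    have huv : ⟪u, v⟫ = 0 := by linarith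
    refine hns u v huv (fun a => ?_) (fun b => ?_)
    · apply real_of_comp
      intro k
      have e3 : ⟪u, v⟫ + ⟪u, Q.L (eu k) (K a v)⟫ = 0 := h (Sum.inl (a, k))
      rw [huv, zero_add] at e3
      exact e3
    · have e3 : ⟪u, v⟫ + ⟪u, JL Q (y b) v⟫ = 0 := h (Sum.inr (Sum.inr b))
      rw [inner_JL, huv] at e3
      by_cases hy : y b = 0
      · rw [hy]; simp
      · have hn' : (2 : ℝ) / ‖y b‖ ^ 2 ≠ 0 := by
          have := norm_ne_zero_iff.2 hy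
          positivity
        have e4 : 2 / ‖y b‖ ^ 2 * ⟪Q.h u (y b), Q.h v (y b)⟫ = 0 := by linarith
        exact (mul_eq_zero.1 e4).resolve_left hn'

/-- `N_min(4q) ≤ 8q - 4` for `q ≥ 3` -/
theorem quat_large (q : ℕ) (hq : 3 ≤ q) : 8 * q - 4 ∈ CountsAny (4 * q) := by
  obtain ⟨R, hR, hR2⟩ := exists_R q
  obtain ⟨κ, κ', h⟩ := cayley (QV q).Γ R hR hR2
  have hκ : ∀ s, HasStrictFDerivAt κ (κ' s) s := fun s => (h s).1
  have hT : ∀ s, Tang (QV q) (κ s) (κ' s) := fun s => ⟨(h s).2.1, (h s).2.2.1, (h s).2.2.2⟩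
  have hdim := finrank_V q
  obtain ⟨s, hs⟩ := exists_params (Q := QV q) hκ hT (n := 2 * q) (m := 2 * q - 5)
    (by omega) (by omega) (by omega)
  have := assemble (QV q) hdim (n := 2 * q) (m := 2 * q - 5) (by omega)
    (fun a => κ (s (.inl a)).1) (fun a => (hT _).mem) (fun a => (hT _).sq)
    (fun b => (s (.inr b)).2) hs
  have e : 2 * q * 3 + (1 + (2 * q - 5)) = 8 * q - 4 := by omega
  rwa [e] at this

end QD24
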