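import Pool.Agent.Lib_helper24.QD.Blocks

/-!
# Ranks of the blocks
-/

open scoped Quaternion RealInnerProductSpace
open Module

set_option linter.unusedSectionVars false

namespace QD24

variable {E : Type*} [NormedAddCommGroup E] [InnerProductSpace ℝ E] [FiniteDimensional ℝ E]
  {Q : QStr E} {κ : skew Q.Γ → (E →L[ℝ] E)} {κ' : skew Q.Γ → (skew Q.Γ →L[ℝ] (E →L[ℝ] E))}

theorem okE (hκ : ∀ s, HasStrictFDerivAt κ (κ' s) s) (hT : ∀ s, Tang Q (κ s) (κ' s))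
    (z : (E × E) × (skew Q.Γ × E)) (h0 : phiE Q κ z = 0) (hv : ∀ γ, z.1.2 ≠ Q.L γ z.1.1)
    (hF : phiF Q κ z ≠ 0) : BlockOK (phiE Q κ) 3 z := by
  obtain ⟨Φ', hΦ, hd⟩ := phiE_deriv hκ z
  refine blockOK_of_pairing (phiE Q κ) 3 z Φ' hΦ
    ((LinearMap.lcomp ℝ ℝ (LinearMap.fst ℝ ℍ[ℝ] (E × ℝ))).comp
      ((innerₗ ℍ[ℝ]).comp (LinearMap.ker reL).subtype)) ?_ finrank_ker_reL.ge
  rintro ⟨α, hα⟩ hα0
  have hα' : α.re = 0 := hα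
  have hα0' : α ≠ 0 := fun h => hα0 (Subtype.ext h)
  have h1 : ‖z.1.1‖ ^ 2 • κ z.2.1 z.1.1 - Q.L (Q.h (κ z.2.1 z.1.1) z.1.1) z.1.1 ≠ 0 := by
    intro h
    apply hF
    rw [phiF, real_inner_self_eq_norm_sq, h]
    rfl
  obtain ⟨σ, hσ⟩ := typeIa (hT z.2.1) z.1.1 z.1.2 h1 (congrArg Prod.fst h0) hv hα' hα0'
  refine ⟨(σ, 0), ?_⟩
  rw [hd]
  exact hσ

theorem okF (hκ : ∀ s, HasStrictFDerivAt κ (κ' s) s) (hT : ∀ s, Tang Q (κ s) (κ' s))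
    (hdim : 10 ≤ finrank ℝ E)
    (z : (E × E) × (skew Q.Γ × E)) (hu : z.1.1 ≠ 0)
    (hF : phiF Q κ z = 0) : BlockOK (phiF Q κ) 3 z := by
  obtain ⟨Φ', hΦ, hd⟩ := phiF_deriv hκ z
  have h1 : ‖z.1.1‖ ^ 2 • κ z.2.1 z.1.1 - Q.L (Q.h (κ z.2.1 z.1.1) z.1.1) z.1.1 = 0 := by
    have := congrArg (fun g : GG E => g.2.1) hF
    simp only [phiF, real_inner_self_eq_norm_sq] at this
    exact this
  have h2 := finrank_spec (hT z.2.1) z.1.1 hu h1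
  refine blockOK_of_pairing (phiF Q κ) 3 z Φ' hΦ
    ((LinearMap.lcomp ℝ ℝ ((LinearMap.fst ℝ E ℝ).comp (LinearMap.snd ℝ ℍ[ℝ] (E × ℝ)))).comp
      ((innerₗ E).comp (LinearMap.ker (spec Q (κ z.2.1) z.1.1)).subtype)) ?_ (by omega)
  rintro ⟨w, hw⟩ hw0
  have hw' : spec Q (κ z.2.1) z.1.1 w = 0 := hw
  have hw0' : w ≠ 0 := fun h => hw0 (Subtype.ext h)
  obtain ⟨σ, hσ⟩ := typeIb (hT z.2.1) z.1.1 hu h1 w hw' hw0'
  refine ⟨(σ, 0), ?_⟩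
  rw [hd, real_inner_self_eq_norm_sq]
  exact hσ

theorem okL (z : (E × E) × (skew Q.Γ × E)) (hu : z.1.1 ≠ 0) (hv : ∀ γ, z.1.2 ≠ Q.L γ z.1.1)
    (h : ¬ (Q.h z.2.2 z.1.1 = 0 ∧ Q.h z.2.2 z.1.2 = 0)) : BlockOK (phiL Q) 1 z := by
  obtain ⟨Φ', hΦ, hd⟩ := phiL_deriv z
  have hone : finrank ℝ ℝ = 1 := finrank_self ℝ
  refine blockOK_of_pairing (phiL Q) 1 z Φ' hΦ
    ((LinearMap.lcomp ℝ ℝ ((LinearMap.snd ℝ E ℝ).comp (LinearMap.snd ℝ ℍ[ℝ] (E × ℝ)))).comp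
      (innerₗ ℝ)) ?_ hone.ge
  intro w hw
  set g : E := Q.L (Q.h z.2.2 z.1.1) z.1.2 + Q.L (Q.h z.2.2 z.1.2) z.1.1 with hg
  have hg0 : g ≠ 0 := by
    intro h0
    by_cases h1 : Q.h z.2.2 z.1.1 = 0
    · rw [hg, h1, map_zero] at h0
      have h2 : Q.L (Q.h z.2.2 z.1.2) z.1.1 = 0 := by simpa using h0
      exact h ⟨h1, (Q.L_eq_zero h2).resolve_right hu⟩
    · apply hv (-((Q.h z.2.2 z.1.1)⁻¹ * Q.h z.2.2 z.1.2))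
      have h2 : Q.L (Q.h z.2.2 z.1.1) z.1.2 = -Q.L (Q.h z.2.2 z.1.2) z.1.1 :=
        eq_neg_of_add_eq_zero_left h0
      rw [Q.L_neg, Q.L_mul, ← map_neg, ← h2, ← Q.L_mul, inv_mul_cancel₀ h1, Q.L_one]
  refine ⟨(0, g), ?_⟩
  rw [hd]
  have e1 : ⟪Q.h z.1.1 z.2.2, Q.h z.1.2 g⟫ = ⟪Q.L (Q.h z.2.2 z.1.1) z.1.2, g⟫ := by
    rw [real_inner_comm, Quaternion.inner_def, Q.star_h, re_mul_comm', ← Q.h_L, Q.re_h]
  have e2 : ⟪Q.h z.1.1 g, Q.h z.1.2 z.2.2⟫ = ⟪Q.L (Q.h z.2.2 z.1.2) z.1.1, g⟫ := by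
    rw [Quaternion.inner_def, Q.star_h, re_mul_comm', ← Q.h_L, Q.re_h]
  have e3 : ⟪Q.h z.1.1 z.2.2, Q.h z.1.2 g⟫ + ⟪Q.h z.1.1 g, Q.h z.1.2 z.2.2⟫ = ‖g‖ ^ 2 := by
    rw [e1, e2, ← inner_add_left, ← hg, real_inner_self_eq_norm_sq]
  show ⟪w, ⟪Q.h z.1.1 z.2.2, Q.h z.1.2 g⟫ + ⟪Q.h z.1.1 g, Q.h z.1.2 z.2.2⟫⟫ ≠ 0
  rw [e3]
  have := norm_pos_iff.2 hg0
  have h5 : ⟪w, ‖g‖ ^ 2⟫ = ‖g‖ ^ 2 * w := by simp [inner]
  rw [h5]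
  exact mul_ne_zero (by positivity) hw

theorem okM (z : (E × E) × (skew Q.Γ × E)) (hu : z.1.1 ≠ 0) : BlockOK (phiM Q) 1 z := by
  obtain ⟨Φ', hΦ, hd⟩ := phiM_deriv z
  have hone : finrank ℝ ℝ = 1 := finrank_self ℝ
  refine blockOK_of_pairing (phiM Q) 1 z Φ' hΦ
    ((LinearMap.lcomp ℝ ℝ (reL.comp (LinearMap.fst ℝ ℍ[ℝ] (E × ℝ)))).comp
      (innerₗ ℝ)) ?_ hone.ge
  intro w hw
  refine ⟨(0, z.1.1), ?_⟩
  rw [hd]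
  have e1 : reL (Q.h z.1.1 z.1.1) = ‖z.1.1‖ ^ 2 := by
    rw [Q.h_self]; exact Quaternion.re_coe _
  show ⟪w, reL (Q.h z.1.1 z.1.1)⟫ ≠ 0
  rw [e1]
  have := norm_pos_iff.2 hu
  have h5 : ⟪w, ‖z.1.1‖ ^ 2⟫ = ‖z.1.1‖ ^ 2 * w := by simp [inner]
  rw [h5]
  exact mul_ne_zero (by positivity) hw

theorem okB (hκ : ∀ s, HasStrictFDerivAt κ (κ' s) s) (hT : ∀ s, Tang Q (κ s) (κ' s))
    (z : (E × ℍ[ℝ]) × (skew Q.Γ × E)) (h0 : phiB Q κ z = 0) (hu : z.1.1 ≠ 0)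
    (hβ : z.1.2 ≠ 0) : BlockOK (phiB Q κ) 2 z := by
  obtain ⟨Φ', hΦ, hd⟩ := phiB_deriv hκ z
  refine blockOK_of_pairing (phiB Q κ) 2 z Φ' hΦ
    ((LinearMap.lcomp ℝ ℝ (LinearMap.fst ℝ ℍ[ℝ] (E × ℝ))).comp
      ((innerₗ ℍ[ℝ]).comp (LinearMap.ker (perpIm z.1.2)).subtype)) ?_ (finrank_ker_perpIm _)
  rintro ⟨α, hα⟩ hα0
  have hα' : α.re = 0 := congrArg Prod.fst hα
  have hαβ : (α * z.1.2).re = 0 := congrArg Prod.snd hα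
  have hα0' : α ≠ 0 := fun h => hα0 (Subtype.ext h)
  obtain ⟨σ, hσ⟩ := typeII (hT z.2.1) z.1.1 hu hβ (congrArg Prod.fst h0) hα' hαβ hα0'
  refine ⟨(σ, 0), ?_⟩
  rw [hd]
  exact hσ

/-! ### the normalising equations -/

/-- the normalising equations on stratum I -/
noncomputable def f1 (Q : QStr E) (e : E) (y : E × E) : ℍ[ℝ] × ℝ × ℝ :=
  (Q.h y.1 e - 1, ⟪y.2, y.2⟫ - 1, ⟪y.1, y.2⟫)

/-- the normalising equations on stratum II -/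
noncomputable def f2 (Q : QStr E) (e : E) (y : E × ℍ[ℝ]) : ℍ[ℝ] × ℝ × ℝ :=
  (Q.h y.1 e - 1, ⟪y.2, (1 : ℍ[ℝ])⟫, ⟪y.2, y.2⟫ - 1)

theorem finrank_ker_of_surj {Y : Type*} [NormedAddCommGroup Y] [NormedSpace ℝ Y]
    [FiniteDimensional ℝ Y] (A : Y →L[ℝ] ℍ[ℝ] × ℝ × ℝ)
    (hA : Function.Surjective A) :
    finrank ℝ (LinearMap.ker (A : Y →ₗ[ℝ] ℍ[ℝ] × ℝ × ℝ)) + 6 = finrank ℝ Y := by
  have h1 := LinearMap.finrank_range_add_finrank_ker (A : Y →ₗ[ℝ] ℍ[ℝ] × ℝ × ℝ)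
  have h2 : LinearMap.range (A : Y →ₗ[ℝ] ℍ[ℝ] × ℝ × ℝ) = ⊤ := LinearMap.range_eq_top.2 hA
  rw [h2, finrank_top, finrank_prod, finrank_H, finrank_prod, finrank_self] at h1
  omega

theorem f1_deriv (e : E) (y : E × E) (h : f1 Q e y = 0) :
    ∃ A : E × E →L[ℝ] ℍ[ℝ] × ℝ × ℝ, HasStrictFDerivAt (f1 Q e) A y ∧
      finrank ℝ (LinearMap.ker (A : E × E →ₗ[ℝ] ℍ[ℝ] × ℝ × ℝ)) + 6 = 2 * finrank ℝ E := by
  have hu : HasStrictFDerivAt (fun y : E × E => y.1) (ContinuousLinearMap.fst ℝ E E) y :=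
    (ContinuousLinearMap.fst ℝ E E).hasStrictFDerivAt
  have hv : HasStrictFDerivAt (fun y : E × E => y.2) (ContinuousLinearMap.snd ℝ E E) y :=
    (ContinuousLinearMap.snd ℝ E E).hasStrictFDerivAt
  obtain ⟨D1, h1, hD1⟩ := inner_app (X := E × E) hv hv
  obtain ⟨D2, h2, hD2⟩ := inner_app (X := E × E) hu hv
  have h3 : HasStrictFDerivAt (fun y : E × E => Q.h y.1 e)
      ((Q.h.flip e).comp (ContinuousLinearMap.fst ℝ E E)) y :=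
    clm_comp' (X := E × E) (F := ℍ[ℝ]) (Q.h.flip e) hu
  refine ⟨_, (h3.sub_const 1).prodMk ((h1.sub_const 1).prodMk h2), ?_⟩
  have e1 : Q.h y.1 e = 1 := sub_eq_zero.1 (congrArg Prod.fst h)
  have e2 : ⟪y.2, y.2⟫ = 1 := sub_eq_zero.1 (congrArg (fun g : ℍ[ℝ] × ℝ × ℝ => g.2.1) h)
  have e3 : ⟪y.1, y.2⟫ = 0 := congrArg (fun g : ℍ[ℝ] × ℝ × ℝ => g.2.2) h
  have he : e ≠ 0 := by
    rintro rfl
    rw [map_zero] at e1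
    exact zero_ne_one e1
  have hu0 : y.1 ≠ 0 := by
    intro h0
    rw [h0, map_zero] at e1
    exact zero_ne_one e1
  rw [finrank_ker_of_surj, finrank_prod]
  · ring
  · rintro ⟨γ, a, b⟩
    have hep : ‖e‖ ^ 2 ≠ 0 := by
      have := norm_pos_iff.2 he
      positivity
    have hup : ‖y.1‖ ^ 2 ≠ 0 := by
      have := norm_pos_iff.2 hu0
      positivity
    set ξ : E := Q.L (γ * ((‖e‖ ^ 2)⁻¹ : ℝ)) e with hξ
    have g1 : Q.h ξ e = γ := by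
      rw [hξ, Q.h_L, Q.h_self, mul_assoc, ← Quaternion.coe_mul, inv_mul_cancel₀ hep]
      simp
    refine ⟨(ξ, (a / 2) • y.2 + ((b - ⟪ξ, y.2⟫) / ‖y.1‖ ^ 2) • y.1), ?_⟩
    refine Prod.ext g1 (Prod.ext ?_ ?_)
    · show D1 _ = a
      rw [hD1]
      have e3' : ⟪y.2, y.1⟫ = 0 := by rw [real_inner_comm, e3]
      simp only [ContinuousLinearMap.coe_snd', inner_add_left, inner_add_right, inner_smul_left,
        inner_smul_right, e2, e3', e3, conj_trivial]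
      ring
    · show D2 _ = b
      rw [hD2]
      simp only [ContinuousLinearMap.coe_snd', ContinuousLinearMap.coe_fst', inner_add_right,
        inner_smul_right, e3, real_inner_self_eq_norm_sq]
      field_simp
      ring

theorem f2_deriv (e : E) (y : E × ℍ[ℝ]) (h : f2 Q e y = 0) :
    ∃ A : E × ℍ[ℝ] →L[ℝ] ℍ[ℝ] × ℝ × ℝ, HasStrictFDerivAt (f2 Q e) A y ∧
      finrank ℝ (LinearMap.ker (A : E × ℍ[ℝ] →ₗ[ℝ] ℍ[ℝ] × ℝ × ℝ)) + 2 = finrank ℝ E := by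
  have hu : HasStrictFDerivAt (fun y : E × ℍ[ℝ] => y.1) (ContinuousLinearMap.fst ℝ E ℍ[ℝ]) y :=
    (ContinuousLinearMap.fst ℝ E ℍ[ℝ]).hasStrictFDerivAt
  have hb : HasStrictFDerivAt (fun y : E × ℍ[ℝ] => y.2) (ContinuousLinearMap.snd ℝ E ℍ[ℝ]) y :=
    (ContinuousLinearMap.snd ℝ E ℍ[ℝ]).hasStrictFDerivAt
  obtain ⟨D1, h1, hD1⟩ := inner_app (X := E × ℍ[ℝ]) hb hb
  obtain ⟨D2, h2, hD2⟩ := inner_app (X := E × ℍ[ℝ]) hb (hasStrictFDerivAt_const (1 : ℍ[ℝ]) y)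
  have h3 : HasStrictFDerivAt (fun y : E × ℍ[ℝ] => Q.h y.1 e)
      ((Q.h.flip e).comp (ContinuousLinearMap.fst ℝ E ℍ[ℝ])) y :=
    clm_comp' (X := E × ℍ[ℝ]) (F := ℍ[ℝ]) (Q.h.flip e) hu
  refine ⟨_, (h3.sub_const 1).prodMk (h2.prodMk (h1.sub_const 1)), ?_⟩
  have e1 : Q.h y.1 e = 1 := sub_eq_zero.1 (congrArg Prod.fst h)
  have e2 : ⟪y.2, (1 : ℍ[ℝ])⟫ = 0 := congrArg (fun g : ℍ[ℝ] × ℝ × ℝ => g.2.1) h
  have e3 : ⟪y.2, y.2⟫ = 1 := sub_eq_zero.1 (congrArg (fun g : ℍ[ℝ] × ℝ × ℝ => g.2.2) h)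
  have he : e ≠ 0 := by
    rintro rfl
    rw [map_zero] at e1
    exact zero_ne_one e1
  have hfin : finrank ℝ (E × ℍ[ℝ]) = finrank ℝ E + 4 := by rw [finrank_prod, finrank_H]
  have key := finrank_ker_of_surj (Y := E × ℍ[ℝ])
    (((Q.h.flip e).comp (ContinuousLinearMap.fst ℝ E ℍ[ℝ])).prod (D2.prod D1)) ?_
  · rw [hfin] at key
    omega
  · rintro ⟨γ, a, b⟩
    have hep : ‖e‖ ^ 2 ≠ 0 := by
      have := norm_pos_iff.2 he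
      positivity
    set ξ : E := Q.L (γ * ((‖e‖ ^ 2)⁻¹ : ℝ)) e with hξ
    have g1 : Q.h ξ e = γ := by
      rw [hξ, Q.h_L, Q.h_self, mul_assoc, ← Quaternion.coe_mul, inv_mul_cancel₀ hep]
      simp
    have e2' : ⟪(1 : ℍ[ℝ]), y.2⟫ = 0 := by rw [real_inner_comm, e2]
    have e4 : ⟪(1 : ℍ[ℝ]), (1 : ℍ[ℝ])⟫ = 1 := by
      rw [real_inner_self_eq_norm_sq, norm_one, one_pow]
    refine ⟨(ξ, a • (1 : ℍ[ℝ]) + (b / 2) • y.2), ?_⟩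
    refine Prod.ext g1 (Prod.ext ?_ ?_)
    · show D2 _ = a
      rw [hD2]
      simp only [ContinuousLinearMap.coe_snd', inner_add_left, inner_smul_left, e2, e4,
        conj_trivial, zero_apply, inner_zero_right]
      ring
    · show D1 _ = b
      rw [hD1]
      simp only [ContinuousLinearMap.coe_snd', inner_add_left, inner_add_right, inner_smul_left,
        inner_smul_right, e2, e2', e3, conj_trivial]
      ring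

end QD24
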