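import Pool.Agent.Lib_helper24.QD.Skew

/-!
# Quaternionic inner product structures and the positivity lemma
-/

open scoped Quaternion RealInnerProductSpace
open Module

namespace QD24

/-- a left quaternionic structure on a real inner product space, with its quaternionic
inner product `h` -/
structure QStr (E : Type*) [NormedAddCommGroup E] [InnerProductSpace ℝ E] where
  L : ℍ[ℝ] →ₐ[ℝ] (E →L[ℝ] E)
  h : E →L[ℝ] E →L[ℝ] ℍ[ℝ]
  star_h : ∀ x y, star (h x y) = h y x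
  h_L : ∀ γ x y, h (L γ x) y = γ * h x y
  re_h : ∀ x y, (h x y).re = ⟪x, y⟫

section quat

theorem mul_self_of_re {a : ℍ[ℝ]} (ha : a.re = 0) : a * a = -((‖a‖ ^ 2 : ℝ) : ℍ[ℝ]) := by
  have h1 : ‖a‖ ^ 2 = Quaternion.normSq a := by
    rw [Quaternion.normSq_eq_norm_mul_self, sq]
  rw [h1, Quaternion.normSq_def']
  ext
  · simp [ha, Quaternion.re_mul, -Quaternion.coe_pow, -Quaternion.coe_add]; ring
  · simp [ha, Quaternion.imI_mul, -Quaternion.coe_pow, -Quaternion.coe_add]; ring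
  · simp [ha, Quaternion.imJ_mul, -Quaternion.coe_pow, -Quaternion.coe_add]; ring
  · simp [ha, Quaternion.imK_mul, -Quaternion.coe_pow, -Quaternion.coe_add]; ring

theorem star_of_re {a : ℍ[ℝ]} (ha : a.re = 0) : star a = -a := by
  ext <;> simp [ha]

theorem re_mul_self_of_re {a : ℍ[ℝ]} (ha : a.re = 0) : (a * a).re = -‖a‖ ^ 2 := by
  rw [mul_self_of_re ha]; simp [-Quaternion.coe_pow]

theorem re_mul_comm' (a b : ℍ[ℝ]) : (a * b).re = (b * a).re := by
  simp only [Quaternion.re_mul]; ring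

theorem abs_re_le (a : ℍ[ℝ]) : |a.re| ≤ ‖a‖ := by
  have h1 : ‖a‖ ^ 2 = Quaternion.normSq a := by
    rw [Quaternion.normSq_eq_norm_mul_self, sq]
  apply abs_le_of_sq_le_sq' _ (norm_nonneg a) |> abs_le.2
  rw [h1, Quaternion.normSq_def']
  nlinarith [sq_nonneg a.imI, sq_nonneg a.imJ, sq_nonneg a.imK]

theorem eq_zero_of_re_mul {a : ℍ[ℝ]} (h : ∀ γ : ℍ[ℝ], (γ * a).re = 0) : a = 0 := by
  have h1 := h (star a)
  rw [Quaternion.star_mul_self] at h1
  have h2 : Quaternion.normSq a = 0 := by simpa using h1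
  exact Quaternion.normSq_eq_zero.1 h2

end quat

variable {E : Type*} [NormedAddCommGroup E] [InnerProductSpace ℝ E] (Q : QStr E)

namespace QStr

/-- the left multiplications -/
def Γ : Set (E →L[ℝ] E) := Set.range Q.L

theorem L_mul (a b : ℍ[ℝ]) (x : E) : Q.L (a * b) x = Q.L a (Q.L b x) := by
  rw [map_mul]; rfl

theorem L_one (x : E) : Q.L 1 x = x := by rw [map_one]; rfl

theorem L_coe (r : ℝ) (x : E) : Q.L (r : ℍ[ℝ]) x = r • x := by
  have : (r : ℍ[ℝ]) = algebraMap ℝ ℍ[ℝ] r := rfl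
  rw [this, AlgHom.commutes]
  simp [Algebra.algebraMap_eq_smul_one]

theorem L_neg (a : ℍ[ℝ]) (x : E) : Q.L (-a) x = -Q.L a x := by
  rw [map_neg]; rfl

theorem h_L_right (x : E) (γ : ℍ[ℝ]) (y : E) : Q.h x (Q.L γ y) = Q.h x y * star γ := by
  rw [← Q.star_h (Q.L γ y) x, Q.h_L, star_mul, Q.star_h]

theorem h_self (x : E) : Q.h x x = ((‖x‖ ^ 2 : ℝ) : ℍ[ℝ]) := by
  have h1 := Q.star_h x x
  have h2 : (Q.h x x).re = ‖x‖ ^ 2 := by rw [Q.re_h, real_inner_self_eq_norm_sq]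
  ext
  · simp [h2, -Quaternion.coe_pow]
  · have := congrArg QuaternionAlgebra.imI h1
    simp [-Quaternion.coe_pow] at this ⊢; linarith
  · have := congrArg QuaternionAlgebra.imJ h1
    simp [-Quaternion.coe_pow] at this ⊢; linarith
  · have := congrArg QuaternionAlgebra.imK h1
    simp [-Quaternion.coe_pow] at this ⊢; linarith

theorem norm_L (γ : ℍ[ℝ]) (x : E) : ‖Q.L γ x‖ = ‖γ‖ * ‖x‖ := by
  have h1 : ‖Q.L γ x‖ ^ 2 = (‖γ‖ * ‖x‖) ^ 2 := by
    rw [← real_inner_self_eq_norm_sq, ← Q.re_h, Q.h_L, Q.h_L_right, Q.h_self]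
    rw [← mul_assoc, ← Quaternion.coe_commutes, mul_assoc, Quaternion.self_mul_star,
      Quaternion.normSq_eq_norm_mul_self]
    rw [← Quaternion.coe_mul, Quaternion.re_coe]
    ring
  exact (sq_eq_sq₀ (norm_nonneg _) (by positivity)).1 h1

theorem L_eq_zero {γ : ℍ[ℝ]} {x : E} (h : Q.L γ x = 0) : γ = 0 ∨ x = 0 := by
  have := Q.norm_L γ x
  rw [h, norm_zero] at this
  rcases mul_eq_zero.1 this.symm with h | h
  · left; exact norm_eq_zero.1 h
  · right; exact norm_eq_zero.1 h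

theorem norm_h_le (x y : E) : ‖Q.h x y‖ ≤ ‖x‖ * ‖y‖ := by
  by_cases h0 : Q.h x y = 0
  · rw [h0, norm_zero]; positivity
  have h1 : ‖Q.h x y‖ ^ 2 ≤ ‖Q.h x y‖ * (‖x‖ * ‖y‖) := by
    have h2 : ‖Q.h x y‖ ^ 2 = ⟪Q.L (star (Q.h x y)) x, y⟫ := by
      rw [← Q.re_h, Q.h_L, Quaternion.star_mul_self, Quaternion.normSq_eq_norm_mul_self]
      simp [sq]
    rw [h2]
    calc ⟪Q.L (star (Q.h x y)) x, y⟫ ≤ ‖Q.L (star (Q.h x y)) x‖ * ‖y‖ :=
          real_inner_le_norm _ _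
      _ = _ := by rw [Q.norm_L, Quaternion.norm_star]; ring
  have hp : 0 < ‖Q.h x y‖ := norm_pos_iff.2 h0
  rw [sq] at h1
  exact le_of_mul_le_mul_left h1 hp

variable {Q}

theorem comm {K : E →L[ℝ] E} (hK : K ∈ skew Q.Γ) (γ : ℍ[ℝ]) (x : E) :
    K (Q.L γ x) = Q.L γ (K x) := by
  have := hK.2 (Q.L γ) ⟨γ, rfl⟩
  exact congrArg (fun f : E →L[ℝ] E => f x) this

theorem h_skew {K : E →L[ℝ] E} (hK : K ∈ skew Q.Γ) (x y : E) :
    Q.h (K x) y = -Q.h x (K y) := by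
  have : Q.h (K x) y + Q.h x (K y) = 0 := by
    apply eq_zero_of_re_mul
    intro γ
    rw [mul_add, ← Q.h_L, ← Q.h_L, Quaternion.re_add, Q.re_h, Q.re_h, ← comm hK, hK.1]
    ring
  exact eq_neg_of_add_eq_zero_left this

theorem mem_skew {K : E →L[ℝ] E} (h1 : ∀ x y, ⟪K x, y⟫ = -⟪x, K y⟫)
    (h2 : ∀ γ x, K (Q.L γ x) = Q.L γ (K x)) : K ∈ skew Q.Γ := by
  refine ⟨h1, ?_⟩
  rintro _ ⟨γ, rfl⟩
  ext x
  exact h2 γ x

theorem norm_K {K : E →L[ℝ] E} (hK : K ∈ skew Q.Γ) (hK2 : K * K = -1) (x : E) :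
    ‖K x‖ = ‖x‖ := by
  have h1 : K (K x) = -x := congrArg (fun f : E →L[ℝ] E => f x) hK2
  have h2 : ‖K x‖ ^ 2 = ‖x‖ ^ 2 := by
    rw [← real_inner_self_eq_norm_sq, hK.1, h1, inner_neg_right, real_inner_self_eq_norm_sq]
    ring
  exact (sq_eq_sq₀ (norm_nonneg _) (norm_nonneg _)).1 h2

end QStr

variable [FiniteDimensional ℝ E]

namespace QStr

/-- the skew operator `z ↦ h(z,u) w - h(z,w) u` -/
noncomputable def xi (u w : E) : E →L[ℝ] E := LinearMap.toContinuousLinearMap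
  { toFun := fun z => Q.L (Q.h z u) w - Q.L (Q.h z w) u
    map_add' := fun z z' => by
      simp only [map_add, add_apply]; abel
    map_smul' := fun c z => by
      simp only [map_smul, smul_apply, RingHom.id_apply, smul_sub] }

theorem xi_apply (u w z : E) : Q.xi u w z = Q.L (Q.h z u) w - Q.L (Q.h z w) u := rfl

theorem xi_mem (u w : E) : Q.xi u w ∈ skew Q.Γ := by
  apply mem_skew
  · intro x y
    rw [xi_apply, xi_apply, inner_sub_left, inner_sub_right]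
    simp only [← Q.re_h, Q.h_L, Q.h_L_right, Q.star_h]
    ring
  · intro γ x
    rw [xi_apply, xi_apply, Q.h_L, Q.h_L, Q.L_mul, Q.L_mul, map_sub]

/-- The positivity lemma. -/
theorem pos {K : E →L[ℝ] E} (hK : K ∈ skew Q.Γ) (hK2 : K * K = -1) (u w : E)
    (h1 : ⟪u, w⟫ = 0) (h2 : ⟪K u, w⟫ = 0) :
    ∃ Y ∈ skew Q.Γ, Y * K = -(K * Y) ∧
      2 * ⟪Y u, w⟫ = ‖u‖ ^ 2 * ‖w‖ ^ 2 + ‖Q.h u w‖ ^ 2 + ‖Q.h (K u) w‖ ^ 2 +
        (Q.h (K u) u * Q.h (K w) w).re := by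
  have hKK : ∀ x, K (K x) = -x := fun x => congrArg (fun f : E →L[ℝ] E => f x) hK2
  refine ⟨(1 / 2 : ℝ) • (Q.xi u w + K * Q.xi u w * K), ?_, ?_, ?_⟩
  · apply Submodule.smul_mem
    apply Submodule.add_mem _ (Q.xi_mem u w)
    have hx := Q.xi_mem u w
    apply mem_skew
    · intro x y
      simp only [mul_apply_eq_comp]
      rw [hK.1, hx.1, hK.1]
      ring
    · intro γ x
      simp only [mul_apply_eq_comp]
      rw [comm hK, comm hx, comm hK]
  · have h3 : K * Q.xi u w * K * K = -(K * Q.xi u w) := by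
      rw [mul_assoc, hK2, mul_neg, mul_one]
    have h4 : K * (K * Q.xi u w * K) = -(Q.xi u w * K) := by
      rw [← mul_assoc, ← mul_assoc, hK2, neg_mul, neg_mul, one_mul]
    rw [smul_mul_assoc, mul_smul_comm, add_mul, mul_add, h3, h4, ← smul_neg]
    congr 1
    abel
  · have e1 : ((1 / 2 : ℝ) • (Q.xi u w + K * Q.xi u w * K)) u =
        (1 / 2 : ℝ) • (Q.xi u w u + K (Q.xi u w (K u))) := rfl
    have h3 : ⟪K (Q.xi u w (K u)), w⟫ = -⟪Q.xi u w (K u), K w⟫ := hK.1 _ _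
    rw [e1, inner_smul_left, inner_add_left, h3, xi_apply, xi_apply, inner_sub_left,
      inner_sub_left]
    simp only [← Q.re_h, Q.h_L]
    have a1 : (Q.h u w).re = 0 := by rw [Q.re_h, h1]
    have a2 : (Q.h (K u) w).re = 0 := by rw [Q.re_h, h2]
    have a3 : Q.h u (K w) = -Q.h (K u) w := by rw [h_skew hK]; simp
    have a4 : Q.h w (K w) = -Q.h (K w) w := by rw [h_skew hK]; simp
    rw [a3, a4, Q.h_self u, Q.h_self w]
    have b1 := re_mul_self_of_re a1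
    have b2 := re_mul_self_of_re a2
    rw [mul_neg, mul_neg, Quaternion.re_neg, Quaternion.re_neg, b1, ← Quaternion.coe_mul,
      Quaternion.re_coe, b2]
    simp only [one_div, conj_trivial]
    ring

end QStr

end QD24
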