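import Pool.Agent.Lib_helper24.QD.Quat

/-!
# Rank computations for the blocks
-/

open scoped Quaternion RealInnerProductSpace
open Module

namespace QD24

theorem rank_of_pairing {S G W : Type*} [AddCommGroup S] [Module ℝ S] [FiniteDimensional ℝ S]
    [AddCommGroup G] [Module ℝ G] [AddCommGroup W] [Module ℝ W] (T : S →ₗ[ℝ] G)
    (B : W →ₗ[ℝ] (G →ₗ[ℝ] ℝ)) (hB : ∀ w, w ≠ 0 → ∃ σ, B w (T σ) ≠ 0) :
    finrank ℝ (LinearMap.ker T) + finrank ℝ W ≤ finrank ℝ S := by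
  let Ψ : W →ₗ[ℝ] (LinearMap.ker T).dualAnnihilator :=
    LinearMap.codRestrict _ ((LinearMap.lcomp ℝ ℝ T).comp B) (by
      intro w
      rw [Submodule.mem_dualAnnihilator]
      intro σ hσ
      have : T σ = 0 := hσ
      simp [this])
  have hΨ : Function.Injective Ψ := by
    rw [injective_iff_map_eq_zero]
    intro w hw
    by_contra hne
    obtain ⟨σ, hσ⟩ := hB w hne
    apply hσ
    have := congrArg (fun f : (LinearMap.ker T).dualAnnihilator => (f : Module.Dual ℝ S) σ) hw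
    exact this
  have h1 := LinearMap.finrank_le_finrank_of_injective hΨ
  have h2 := Subspace.finrank_add_finrank_dualAnnihilator_eq (LinearMap.ker T)
  omega

section dims

/-- real part as a linear functional -/
def reL : ℍ[ℝ] →ₗ[ℝ] ℝ where
  toFun x := x.re
  map_add' _ _ := by simp
  map_smul' _ _ := by simp

theorem finrank_H : finrank ℝ ℍ[ℝ] = 4 := Quaternion.finrank_eq_four

theorem finrank_ker_reL : finrank ℝ (LinearMap.ker reL) = 3 := by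
  have h1 := LinearMap.finrank_range_add_finrank_ker reL
  have h2 : LinearMap.range reL = ⊤ := by
    rw [LinearMap.range_eq_top]
    intro r
    exact ⟨(r : ℍ[ℝ]), Quaternion.re_coe r⟩
  rw [h2, finrank_top, finrank_H] at h1
  simp at h1
  omega

/-- imaginary quaternions orthogonal to `β` -/
noncomputable def perpIm (β : ℍ[ℝ]) : ℍ[ℝ] →ₗ[ℝ] ℝ × ℝ where
  toFun x := (x.re, (x * β).re)
  map_add' _ _ := by simp [add_mul]
  map_smul' _ _ := by simp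

theorem finrank_ker_perpIm (β : ℍ[ℝ]) : 2 ≤ finrank ℝ (LinearMap.ker (perpIm β)) := by
  have h1 := LinearMap.finrank_range_add_finrank_ker (perpIm β)
  have h2 : finrank ℝ (LinearMap.range (perpIm β)) ≤ 2 := by
    refine (Submodule.finrank_le _).trans ?_
    simp
  rw [finrank_H] at h1
  omega

end dims

variable {E : Type*} [NormedAddCommGroup E] [InnerProductSpace ℝ E] [FiniteDimensional ℝ E]
  {Q : QStr E}

/-- what the parametrisation of the complex structures provides at one point -/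
structure Tang (Q : QStr E) (K : E →L[ℝ] E) (κ' : skew Q.Γ →L[ℝ] (E →L[ℝ] E)) : Prop where
  mem : K ∈ skew Q.Γ
  sq : K * K = -1
  surj : ∀ Y ∈ skew Q.Γ, Y * K = -(K * Y) → ∃ σ, κ' σ = Y

variable {K : E →L[ℝ] E} {κ' : skew Q.Γ →L[ℝ] (E →L[ℝ] E)}

/-- existence of a good tangent vector -/
theorem Tang.pos (hK : Tang Q K κ') (u w : E) (h1 : ⟪u, w⟫ = 0) (h2 : ⟪K u, w⟫ = 0) :
    ∃ σ, κ' σ ∈ skew Q.Γ ∧
      2 * ⟪κ' σ u, w⟫ = ‖u‖ ^ 2 * ‖w‖ ^ 2 + ‖Q.h u w‖ ^ 2 + ‖Q.h (K u) w‖ ^ 2 +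
        (Q.h (K u) u * Q.h (K w) w).re := by
  obtain ⟨Y, hY, hYK, h⟩ := Q.pos hK.mem hK.sq u w h1 h2
  obtain ⟨σ, hσ⟩ := hK.surj Y hY hYK
  exact ⟨σ, hσ ▸ hY, hσ ▸ h⟩

omit [FiniteDimensional ℝ E] in
theorem re_bound (hK : Tang Q K κ') (u w : E) :
    -(‖Q.h (K u) u‖ * ‖w‖ ^ 2) ≤ (Q.h (K u) u * Q.h (K w) w).re := by
  have h1 := (abs_le.1 (abs_re_le (Q.h (K u) u * Q.h (K w) w))).1
  have h2 : ‖Q.h (K u) u * Q.h (K w) w‖ ≤ ‖Q.h (K u) u‖ * ‖w‖ ^ 2 := by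
    rw [norm_mul]
    refine mul_le_mul_of_nonneg_left ?_ (norm_nonneg _)
    refine (Q.norm_h_le _ _).trans ?_
    rw [QStr.norm_K hK.mem hK.sq, sq]
  linarith

omit [FiniteDimensional ℝ E] in
/-- strict Cauchy-Schwarz -/
theorem norm_h_lt (hK : Tang Q K κ') (u : E) (hu : ‖u‖ ^ 2 • K u - Q.L (Q.h (K u) u) u ≠ 0) :
    ‖Q.h (K u) u‖ < ‖u‖ ^ 2 := by
  have h1 : 0 < ‖‖u‖ ^ 2 • K u - Q.L (Q.h (K u) u) u‖ ^ 2 := by
    have := norm_pos_iff.2 hu
    positivity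
  have hN : ‖K u‖ = ‖u‖ := QStr.norm_K hK.mem hK.sq u
  have h2 : ‖‖u‖ ^ 2 • K u - Q.L (Q.h (K u) u) u‖ ^ 2 =
      ‖u‖ ^ 2 * ((‖u‖ ^ 2) ^ 2 - ‖Q.h (K u) u‖ ^ 2) := by
    rw [norm_sub_sq_real, norm_smul, inner_smul_left, ← Q.re_h (K u), Q.h_L_right,
      Quaternion.self_mul_star, Quaternion.normSq_eq_norm_mul_self, Q.norm_L, hN]
    simp
    ring
  rw [h2] at h1
  have hu0 : 0 < ‖u‖ ^ 2 := by
    by_contra h
    have : ‖u‖ ^ 2 = 0 := le_antisymm (not_lt.1 h) (by positivity)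
    rw [this] at h1
    simp at h1
  have h3 : ‖Q.h (K u) u‖ ^ 2 < (‖u‖ ^ 2) ^ 2 := by
    have := (mul_pos_iff_of_pos_left hu0).1 h1
    linarith
  exact lt_of_pow_lt_pow_left₀ 2 (by positivity) h3

end QD24
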