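import Pool.Agent.Lib_helper24.QD.Rank

/-!
# Non-vanishing of the pairings, for each type of block
-/

open scoped Quaternion RealInnerProductSpace
open Module

namespace QD24

variable {E : Type*} [NormedAddCommGroup E] [InnerProductSpace ℝ E]
  {Q : QStr E}

theorem pair_eq {Y : E →L[ℝ] E} (hY : Y ∈ skew Q.Γ) {α : ℍ[ℝ]} (hα : α.re = 0) (u v : E) :
    ⟪α, Q.h u (Y v) - Q.h (Y v) u⟫ = -(2 * ⟪Y u, Q.L α v⟫) := by
  have h1 : ⟪α, Q.h u (Y v)⟫ = -⟪Y u, Q.L α v⟫ := by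
    rw [Quaternion.inner_def, Q.star_h, ← Q.h_L, Q.re_h, ← QStr.comm hY, hY.1, real_inner_comm]
  have h2 : ⟪α, Q.h (Y v) u⟫ = ⟪Y u, Q.L α v⟫ := by
    rw [Quaternion.inner_def, Q.star_h, ← Q.re_h, Q.h_L_right, star_of_re hα, QStr.h_skew hY,
      re_mul_comm']
    simp
  rw [inner_sub_right, h1, h2]; ring

variable [FiniteDimensional ℝ E] {K : E →L[ℝ] E} {κ' : skew Q.Γ →L[ℝ] (E →L[ℝ] E)}

omit [FiniteDimensional ℝ E] in
theorem inner_K_self (hK : Tang Q K κ') (u : E) : ⟪K u, u⟫ = 0 := by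
  have := hK.mem.1 u u
  rw [real_inner_comm] at this
  linarith [real_inner_comm u (K u)]

/-- (a): stratum I, generic type -/
theorem typeIa (hK : Tang Q K κ') (u v : E) (hu : ‖u‖ ^ 2 • K u - Q.L (Q.h (K u) u) u ≠ 0)
    (hKuv : Q.h u (K v) - Q.h (K v) u = 0) (hv : ∀ γ, v ≠ Q.L γ u) {α : ℍ[ℝ]} (hα : α.re = 0)
    (hα0 : α ≠ 0) :
    ∃ σ, ⟪α, Q.h u (κ' σ v) - Q.h (κ' σ v) u⟫ ≠ 0 := by
  have hu0 : u ≠ 0 := by
    rintro rfl
    simp at hu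
  have hN : 0 < ‖u‖ ^ 2 := by
    have := norm_pos_iff.2 hu0
    positivity
  set p : ℝ := ⟪u, Q.L α v⟫ / ‖u‖ ^ 2 with hp
  have h1 : ⟪u, Q.L α v - p • u⟫ = 0 := by
    rw [inner_sub_right, inner_smul_right, real_inner_self_eq_norm_sq, hp]
    field_simp; ring
  have h2 : ⟪K u, Q.L α v - p • u⟫ = 0 := by
    have := pair_eq hK.mem hα u v
    rw [hKuv, inner_zero_right] at this
    rw [inner_sub_right, inner_smul_right, inner_K_self hK]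
    linarith
  have hw0 : Q.L α v - p • u ≠ 0 := by
    intro h
    rw [sub_eq_zero] at h
    apply hv (α⁻¹ * (p : ℍ[ℝ]))
    rw [Q.L_mul, Q.L_coe, ← h, ← Q.L_mul, inv_mul_cancel₀ hα0, Q.L_one]
  obtain ⟨σ, hσ, hpos⟩ := hK.pos u _ h1 h2
  refine ⟨σ, ?_⟩
  rw [pair_eq hσ hα]
  have h3 : ⟪κ' σ u, u⟫ = 0 := by
    have := hσ.1 u u
    linarith [real_inner_comm u (κ' σ u)]
  have h4 : ⟪κ' σ u, Q.L α v⟫ = ⟪κ' σ u, Q.L α v - p • u⟫ := by
    rw [inner_sub_right, inner_smul_right, h3]; ring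
  have h5 := re_bound hK u (Q.L α v - p • u)
  have h6 := norm_h_lt hK u hu
  have h7 : 0 < ‖Q.L α v - p • u‖ ^ 2 := by
    have := norm_pos_iff.2 hw0
    positivity
  have h8 : 0 < 2 * ⟪κ' σ u, Q.L α v - p • u⟫ := by
    rw [hpos]
    have h9 : 0 < (‖u‖ ^ 2 - ‖Q.h (K u) u‖) * ‖Q.L α v - p • u‖ ^ 2 :=
      mul_pos (by linarith) h7
    nlinarith [sq_nonneg ‖Q.h u (Q.L α v - p • u)‖, sq_nonneg ‖Q.h (K u) (Q.L α v - p • u)‖]
  rw [h4]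
  intro h
  linarith

/-- (d): stratum II -/
theorem typeII (hK : Tang Q K κ') (u : E) (hu : u ≠ 0) {β : ℍ[ℝ]} (hβ : β ≠ 0)
    (hKuv : Q.h u (K (Q.L β u)) - Q.h (K (Q.L β u)) u = 0) {α : ℍ[ℝ]} (hα : α.re = 0)
    (hαβ : (α * β).re = 0) (hα0 : α ≠ 0) :
    ∃ σ, ⟪α, Q.h u (κ' σ (Q.L β u)) - Q.h (κ' σ (Q.L β u)) u⟫ ≠ 0 := by
  have h1 : ⟪u, Q.L (α * β) u⟫ = 0 := by
    rw [← Q.re_h, Q.h_L_right, Q.h_self, star_of_re hαβ]
    simp only [mul_neg, Quaternion.re_neg, Quaternion.coe_mul_eq_smul, Quaternion.re_smul,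
      hαβ]
    simp
  have h2 : ⟪K u, Q.L (α * β) u⟫ = 0 := by
    have := pair_eq hK.mem hα u (Q.L β u)
    rw [hKuv, inner_zero_right] at this
    rw [Q.L_mul]
    linarith
  obtain ⟨σ, hσ, hpos⟩ := hK.pos u _ h1 h2
  refine ⟨σ, ?_⟩
  rw [pair_eq hσ hα, ← Q.L_mul]
  have h5 := re_bound hK u (Q.L (α * β) u)
  have h6 : ‖Q.h (K u) u‖ ≤ ‖u‖ ^ 2 := by
    refine (Q.norm_h_le _ _).trans ?_
    rw [QStr.norm_K hK.mem hK.sq, sq]
  have h7 : 0 < ‖Q.h u (Q.L (α * β) u)‖ ^ 2 := by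
    rw [Q.h_L_right, Q.h_self, norm_mul, Quaternion.norm_star, norm_mul, Quaternion.norm_coe]
    have a1 := norm_pos_iff.2 hu
    have a2 := norm_pos_iff.2 hα0
    have a3 := norm_pos_iff.2 hβ
    have a4 : 0 < ‖(‖u‖ ^ 2 : ℝ)‖ := by
      rw [Real.norm_eq_abs]; positivity
    positivity
  have h8 : 0 < 2 * ⟪κ' σ u, Q.L (α * β) u⟫ := by
    rw [hpos]
    have h9 : 0 ≤ (‖u‖ ^ 2 - ‖Q.h (K u) u‖) * ‖Q.L (α * β) u‖ ^ 2 :=
      mul_nonneg (by linarith) (by positivity)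
    nlinarith [sq_nonneg ‖Q.h (K u) (Q.L (α * β) u)‖]
  intro h
  linarith

/-- (b): the space of functionals for the special type -/
noncomputable def spec (Q : QStr E) (K : E →L[ℝ] E) (u : E) : E →ₗ[ℝ] ℍ[ℝ] × E where
  toFun w := (Q.h w u, Q.L (Q.h (K u) u) (K w) - ‖u‖ ^ 2 • w)
  map_add' x y := by
    ext1
    · simp
    · simp only [map_add, smul_add, Prod.snd_add]; abel
  map_smul' c x := by
    ext1
    · simp
    · simp only [map_smul, RingHom.id_apply, Prod.smul_snd, smul_sub]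
      rw [smul_comm]

/-- the quaternion `a i + b j` -/
def gij (a b : ℝ) : ℍ[ℝ] := ⟨0, a, b, 0⟩

theorem gij_re (a b : ℝ) : (gij a b).re = 0 := rfl
theorem gij_imI (a b : ℝ) : (gij a b).imI = a := rfl
theorem gij_imJ (a b : ℝ) : (gij a b).imJ = b := rfl
theorem gij_imK (a b : ℝ) : (gij a b).imK = 0 := rfl

theorem exists_anticomm (c : ℍ[ℝ]) (hc : c.re = 0) : ∃ γ : ℍ[ℝ], γ ≠ 0 ∧ c * γ = -(γ * c) := by
  by_cases h : c.imI = 0 ∧ c.imJ = 0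
  · refine ⟨gij 1 0, fun h0 => ?_, ?_⟩
    · have := congrArg QuaternionAlgebra.imI h0
      rw [gij_imI] at this
      exact one_ne_zero this
    · ext <;> simp [hc, h.1, h.2, gij_re, gij_imI, gij_imJ, gij_imK]
  · refine ⟨gij (-c.imJ) c.imI, fun h0 => h ⟨?_, ?_⟩, ?_⟩
    · have := congrArg QuaternionAlgebra.imJ h0
      rw [gij_imJ] at this
      exact this
    · have := congrArg QuaternionAlgebra.imI h0
      rw [gij_imI] at this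
      exact neg_eq_zero.1 this
    · ext <;> simp [hc, gij_re, gij_imI, gij_imJ, gij_imK] <;> ring

omit [FiniteDimensional ℝ E] in
theorem spec_facts (hK : Tang Q K κ') (u : E) (hu0 : u ≠ 0)
    (hu : ‖u‖ ^ 2 • K u - Q.L (Q.h (K u) u) u = 0) :
    (Q.h (K u) u).re = 0 ∧ ‖Q.h (K u) u‖ = ‖u‖ ^ 2 ∧
      (∀ x, Q.L (Q.h (K u) u) (Q.L (Q.h (K u) u) x) = -((‖u‖ ^ 2) ^ 2 • x)) := by
  have h1 : (Q.h (K u) u).re = 0 := by rw [Q.re_h, inner_K_self hK]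
  have hn : 0 < ‖u‖ := norm_pos_iff.2 hu0
  have h2 : ‖Q.h (K u) u‖ = ‖u‖ ^ 2 := by
    rw [sub_eq_zero] at hu
    have h3 := congrArg norm hu
    rw [norm_smul, Q.norm_L, QStr.norm_K hK.mem hK.sq] at h3
    have h4 : ‖(‖u‖ ^ 2 : ℝ)‖ = ‖u‖ ^ 2 := by rw [Real.norm_eq_abs, abs_of_nonneg (by positivity)]
    rw [h4] at h3
    exact (mul_right_cancel₀ hn.ne' h3).symm
  refine ⟨h1, h2, fun x => ?_⟩
  rw [← Q.L_mul, mul_self_of_re h1, h2, Q.L_neg, Q.L_coe]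

theorem finrank_spec (hK : Tang Q K κ') (u : E) (hu0 : u ≠ 0)
    (hu : ‖u‖ ^ 2 • K u - Q.L (Q.h (K u) u) u = 0) :
    finrank ℝ E ≤ 2 * finrank ℝ (LinearMap.ker (spec Q K u)) + 4 := by
  obtain ⟨h1, h2, h3⟩ := spec_facts hK u hu0 hu
  obtain ⟨γ, hγ0, hγ⟩ := exists_anticomm _ h1
  set c := Q.h (K u) u with hc
  have hN : 0 < ‖u‖ ^ 2 := by
    have := norm_pos_iff.2 hu0
    positivity
  have hKK : ∀ x, K (K x) = -x := fun x => congrArg (fun f : E →L[ℝ] E => f x) hK.sq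
  -- the orthogonal complement of `ℍ u`
  let X : Submodule ℝ E := LinearMap.ker (((Q.h.flip u : E →L[ℝ] ℍ[ℝ])) : E →ₗ[ℝ] ℍ[ℝ])
  have hX : ∀ x ∈ X, Q.h x u = 0 := fun x hx => hx
  have hXd : finrank ℝ E ≤ finrank ℝ X + 4 := by
    have a1 := LinearMap.finrank_range_add_finrank_ker
      (((Q.h.flip u : E →L[ℝ] ℍ[ℝ])) : E →ₗ[ℝ] ℍ[ℝ])
    have a2 : finrank ℝ (LinearMap.range (((Q.h.flip u : E →L[ℝ] ℍ[ℝ])) : E →ₗ[ℝ] ℍ[ℝ])) ≤ 4 := by
      refine (Submodule.finrank_le _).trans ?_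
      rw [finrank_H]
    have a3 : finrank ℝ X = finrank ℝ (LinearMap.ker
      (((Q.h.flip u : E →L[ℝ] ℍ[ℝ])) : E →ₗ[ℝ] ℍ[ℝ])) := rfl
    omega
  have hKX : ∀ x, Q.h x u = 0 → Q.h (K x) u = 0 := by
    intro x hx
    have b1 : ‖u‖ ^ 2 • Q.h x (K u) = 0 := by
      rw [← map_smul, sub_eq_zero.1 hu, Q.h_L_right, hx, zero_mul]
    rw [QStr.h_skew hK.mem, (smul_eq_zero.1 b1).resolve_left hN.ne', neg_zero]
  have m1 : ∀ x ∈ X, spec Q K u (‖u‖ ^ 2 • x + Q.L c (K x)) = 0 := by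
    intro x hx
    refine Prod.ext ?_ ?_
    · show Q.h (‖u‖ ^ 2 • x + Q.L c (K x)) u = 0
      rw [map_add, map_smul, add_apply, smul_apply, Q.h_L, hX x hx, hKX x (hX x hx)]
      simp
    · show Q.L c (K (‖u‖ ^ 2 • x + Q.L c (K x))) - ‖u‖ ^ 2 • (‖u‖ ^ 2 • x + Q.L c (K x)) = 0
      rw [map_add, map_smul, QStr.comm hK.mem, hKK, map_add, h3, map_smul]
      simp only [smul_add, smul_neg, neg_neg, smul_smul]
      rw [← sq]
      abel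
  have m2 : ∀ x ∈ X, spec Q K u (Q.L γ (‖u‖ ^ 2 • x - Q.L c (K x))) = 0 := by
    intro x hx
    refine Prod.ext ?_ ?_
    · show Q.h (Q.L γ (‖u‖ ^ 2 • x - Q.L c (K x))) u = 0
      rw [Q.h_L, map_sub, map_smul, sub_apply, smul_apply, Q.h_L, hX x hx, hKX x (hX x hx)]
      simp
    · show Q.L c (K (Q.L γ (‖u‖ ^ 2 • x - Q.L c (K x)))) -
        ‖u‖ ^ 2 • Q.L γ (‖u‖ ^ 2 • x - Q.L c (K x)) = 0
      rw [QStr.comm hK.mem, ← Q.L_mul, hγ, Q.L_neg, Q.L_mul, ← map_smul, ← map_neg, ← map_sub]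
      have : -(Q.L c (K (‖u‖ ^ 2 • x - Q.L c (K x)))) - ‖u‖ ^ 2 • (‖u‖ ^ 2 • x - Q.L c (K x)) = 0 := by
        rw [map_sub, map_smul, QStr.comm hK.mem, hKK, map_sub, h3, map_smul]
        simp only [smul_sub, smul_neg, neg_neg, smul_smul]
        rw [← sq]
        abel
      rw [this, map_zero]
  let T : X →ₗ[ℝ] (LinearMap.ker (spec Q K u)) × (LinearMap.ker (spec Q K u)) :=
    { toFun := fun x => (⟨‖u‖ ^ 2 • (x : E) + Q.L c (K x), m1 x x.2⟩,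
        ⟨Q.L γ (‖u‖ ^ 2 • (x : E) - Q.L c (K x)), m2 x x.2⟩)
      map_add' := fun x y => by
        refine Prod.ext (Subtype.ext ?_) (Subtype.ext ?_)
        · show ‖u‖ ^ 2 • ((x : E) + y) + Q.L c (K (x + y)) =
            (‖u‖ ^ 2 • (x : E) + Q.L c (K x)) + (‖u‖ ^ 2 • (y : E) + Q.L c (K y))
          rw [map_add, map_add, smul_add]; abel
        · show Q.L γ (‖u‖ ^ 2 • ((x : E) + y) - Q.L c (K (x + y))) =
            Q.L γ (‖u‖ ^ 2 • (x : E) - Q.L c (K x)) + Q.L γ (‖u‖ ^ 2 • (y : E) - Q.L c (K y))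
          rw [← map_add]
          congr 1
          rw [map_add, map_add, smul_add]; abel
      map_smul' := fun r x => by
        refine Prod.ext (Subtype.ext ?_) (Subtype.ext ?_)
        · show ‖u‖ ^ 2 • (r • (x : E)) + Q.L c (K (r • (x : E))) =
            r • (‖u‖ ^ 2 • (x : E) + Q.L c (K x))
          rw [map_smul, map_smul, smul_add, smul_comm]
        · show Q.L γ (‖u‖ ^ 2 • (r • (x : E)) - Q.L c (K (r • (x : E)))) =
            r • Q.L γ (‖u‖ ^ 2 • (x : E) - Q.L c (K x))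
          rw [← map_smul]
          congr 1
          rw [map_smul, map_smul, smul_sub, smul_comm] }
  have hT : Function.Injective T := by
    rw [injective_iff_map_eq_zero]
    intro x hx
    have c1 : ‖u‖ ^ 2 • (x : E) + Q.L c (K x) = 0 :=
      congrArg (fun z : (LinearMap.ker (spec Q K u)) × (LinearMap.ker (spec Q K u)) =>
        (z.1 : E)) hx
    have c2 : Q.L γ (‖u‖ ^ 2 • (x : E) - Q.L c (K x)) = 0 :=
      congrArg (fun z : (LinearMap.ker (spec Q K u)) × (LinearMap.ker (spec Q K u)) =>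
        (z.2 : E)) hx
    have c3 := (Q.L_eq_zero c2).resolve_left hγ0
    have c4 : (2 * ‖u‖ ^ 2) • (x : E) = 0 := by
      have : (‖u‖ ^ 2 • (x : E) + Q.L c (K x)) + (‖u‖ ^ 2 • (x : E) - Q.L c (K x)) =
        (2 * ‖u‖ ^ 2) • (x : E) := by
        rw [two_mul, add_smul]; abel
      rw [← this, c1, c3, add_zero]
    exact Subtype.ext ((smul_eq_zero.1 c4).resolve_left (by positivity))
  have h5 := LinearMap.finrank_le_finrank_of_injective hT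
  rw [finrank_prod] at h5
  omega

/-- (b'): stratum I, special type -/
theorem typeIb (hK : Tang Q K κ') (u : E) (hu0 : u ≠ 0)
    (hu : ‖u‖ ^ 2 • K u - Q.L (Q.h (K u) u) u = 0) (w : E) (hw : spec Q K u w = 0)
    (hw0 : w ≠ 0) :
    ∃ σ, ⟪w, ‖u‖ ^ 2 • κ' σ u - Q.L (Q.h (κ' σ u) u) u⟫ ≠ 0 := by
  obtain ⟨h1, h2, h3⟩ := spec_facts hK u hu0 hu
  have hN : 0 < ‖u‖ ^ 2 := by
    have := norm_pos_iff.2 hu0
    positivity
  have hwN : 0 < ‖w‖ ^ 2 := by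
    have := norm_pos_iff.2 hw0
    positivity
  have e1 : Q.h w u = 0 := congrArg Prod.fst hw
  have e1' : Q.h u w = 0 := by rw [← Q.star_h, e1, star_zero]
  have e2 : Q.L (Q.h (K u) u) (K w) - ‖u‖ ^ 2 • w = 0 := congrArg Prod.snd hw
  have a1 : ⟪u, w⟫ = 0 := by rw [← Q.re_h, e1', Quaternion.re_zero]
  have a2 : ⟪K u, w⟫ = 0 := by
    have : ‖u‖ ^ 2 * ⟪K u, w⟫ = 0 := by
      have h4 : ⟪‖u‖ ^ 2 • K u, w⟫ = ‖u‖ ^ 2 * ⟪K u, w⟫ := by
        rw [inner_smul_left]; rfl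
      rw [← h4, sub_eq_zero.1 hu, ← Q.re_h, Q.h_L, e1']
      simp
    exact (mul_eq_zero.1 this).resolve_left hN.ne'
  obtain ⟨σ, hσ, hpos⟩ := hK.pos u w a1 a2
  refine ⟨σ, ?_⟩
  have a3 : (Q.h (K u) u * Q.h (K w) w).re = ‖u‖ ^ 2 * ‖w‖ ^ 2 := by
    rw [← Q.h_L, sub_eq_zero.1 e2, map_smul, smul_apply, Q.h_self, Quaternion.re_smul,
      Quaternion.re_coe]
    rfl
  rw [a3] at hpos
  have a4 : ⟪w, ‖u‖ ^ 2 • κ' σ u - Q.L (Q.h (κ' σ u) u) u⟫ = ‖u‖ ^ 2 * ⟪κ' σ u, w⟫ := by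
    rw [inner_sub_right, inner_smul_right, ← Q.re_h w (Q.L _ _), Q.h_L_right, e1, zero_mul,
      Quaternion.re_zero, sub_zero, real_inner_comm]
  rw [a4]
  have a5 : 0 < ⟪κ' σ u, w⟫ := by
    have : 0 < ‖u‖ ^ 2 * ‖w‖ ^ 2 := mul_pos hN hwN
    nlinarith [sq_nonneg ‖Q.h u w‖, sq_nonneg ‖Q.h (K u) w‖]
  exact (mul_pos hN a5).ne'

end QD24
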