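import Mathlib

/-!
# Skew operators commuting with a set of operators
-/

open scoped RealInnerProductSpace
open Module

namespace QD24

/-- skew operators commuting with every member of `Γ` -/
def skew {E : Type*} [NormedAddCommGroup E] [InnerProductSpace ℝ E] (Γ : Set (E →L[ℝ] E)) :
    Submodule ℝ (E →L[ℝ] E) where
  carrier := {s | (∀ x y, ⟪s x, y⟫ = -⟪x, s y⟫) ∧ ∀ T ∈ Γ, s * T = T * s}
  add_mem' := by
    rintro a b ⟨ha, ha'⟩ ⟨hb, hb'⟩
    refine ⟨fun x y => ?_, fun T hT => ?_⟩
    · simp [inner_add_left, inner_add_right, ha, hb]; ring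
    · rw [add_mul, mul_add, ha' T hT, hb' T hT]
  zero_mem' := ⟨fun x y => by simp, fun T _ => by simp⟩
  smul_mem' := by
    rintro c a ⟨ha, ha'⟩
    refine ⟨fun x y => ?_, fun T hT => ?_⟩
    · simp [inner_smul_left, inner_smul_right, ha]
    · rw [smul_mul_assoc, mul_smul_comm, ha' T hT]

end QD24
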