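import Pool.Agent.Lib_helper24.QD.Ok

/-!
# Existence of good parameters
-/

open scoped Quaternion RealInnerProductSpace
open Module

set_option linter.unusedSectionVars false

namespace QD24

theorem exists_good_pi {ι S : Type*} [Fintype ι] [NormedAddCommGroup S] [NormedSpace ℝ S]
    [FiniteDimensional ℝ S] {J : Type*} [Finite J] (B : J → Set (ι → S))
    (hB : ∀ j, (B j).Nonempty → dimH (B j) < (finrank ℝ (ι → S) : ENNReal)) :
    ∃ s : ι → S, ∀ j, s ∉ B j := exists_good B hB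

variable {E : Type*} [NormedAddCommGroup E] [InnerProductSpace ℝ E] [FiniteDimensional ℝ E]
  {Q : QStr E} {κ : skew Q.Γ → (E →L[ℝ] E)} {κ' : skew Q.Γ → (skew Q.Γ →L[ℝ] (E →L[ℝ] E))}

/-- the parameter space of one block -/
abbrev SS (Q : QStr E) := skew Q.Γ × E

/-- the equations on stratum I, for a given pattern -/
noncomputable def PhiI (Q : QStr E) (κ : skew Q.Γ → (E →L[ℝ] E)) {n m : ℕ}
    (τ : Fin n ⊕ Fin m → Bool) (a : Fin n ⊕ Fin m) : (E × E) × SS Q → GG E :=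
  match a with
  | .inl _ => if τ a then phiE Q κ else phiF Q κ
  | .inr _ => if τ a then phiL Q else phiM Q

/-- the additional inequalities on stratum I -/
def CondI (Q : QStr E) (κ : skew Q.Γ → (E →L[ℝ] E)) {n m : ℕ}
    (τ : Fin n ⊕ Fin m → Bool) (a : Fin n ⊕ Fin m) (z : (E × E) × SS Q) : Prop :=
  match a with
  | .inl _ => τ a = true → phiF Q κ z ≠ 0
  | .inr _ => τ a = true → ¬ (Q.h z.2.2 z.1.1 = 0 ∧ Q.h z.2.2 z.1.2 = 0)

/-- the ranks -/
def rk {n m : ℕ} (a b : ℕ) : Fin n ⊕ Fin m → ℕ := Sum.elim (fun _ => a) (fun _ => b)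

theorem sum_rk {n m : ℕ} (a b : ℕ) : ∑ x : Fin n ⊕ Fin m, rk a b x = n * a + m * b := by
  simp [rk, Fintype.sum_sum_type]

/-- the bad set on stratum I -/
def ZI (Q : QStr E) (κ : skew Q.Γ → (E →L[ℝ] E)) {n m : ℕ} (e : E)
    (τ : Fin n ⊕ Fin m → Bool) : Set ((E × E) × (Fin n ⊕ Fin m → SS Q)) :=
  {z | f1 Q e z.1 = 0 ∧ (∀ γ, z.1.2 ≠ Q.L γ z.1.1) ∧
    ∀ a, PhiI Q κ τ a (z.1, z.2 a) = 0 ∧ CondI Q κ τ a (z.1, z.2 a)}

theorem dimI (hκ : ∀ s, HasStrictFDerivAt κ (κ' s) s) (hT : ∀ s, Tang Q (κ s) (κ' s))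
    (hdim : 10 ≤ finrank ℝ E) {n m : ℕ} (hnm : 2 * finrank ℝ E < n * 3 + m * 1 + 6) (e : E)
    (τ : Fin n ⊕ Fin m → Bool) (hne : (ZI Q κ e τ).Nonempty) :
    dimH (Prod.snd '' (ZI Q κ e τ)) < (finrank ℝ (Fin n ⊕ Fin m → SS Q) : ENNReal) := by
  refine gen (ZI Q κ e τ) (2 * finrank ℝ E - 6) (rk 3 1) (f1 Q e) (PhiI Q κ τ)
    (fun z hz => hz.1) (fun z hz a => (hz.2.2 a).1) ?_ ?_ hne
  · intro z hz
    obtain ⟨A, hA, hAd⟩ := f1_deriv (Q := Q) e z.1 hz.1
    have hu0 : z.1.1 ≠ 0 := by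
      intro h0
      have e1 : Q.h z.1.1 e = 1 := sub_eq_zero.1 (congrArg Prod.fst hz.1)
      rw [h0, map_zero] at e1
      exact zero_ne_one e1
    have key : ∀ a, BlockOK (PhiI Q κ τ a) (rk 3 1 a) (z.1, z.2 a) := by
      intro a
      obtain ⟨h1, h2⟩ := hz.2.2 a
      rcases a with a | a
      · by_cases hτ : τ (Sum.inl a) = true
        · have e1 : PhiI Q κ τ (Sum.inl a) = phiE Q κ := by simp [PhiI, hτ]
          rw [e1] at h1 ⊢
          exact okE hκ hT _ h1 hz.2.1 (h2 hτ)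
        · have e1 : PhiI Q κ τ (Sum.inl a) = phiF Q κ := by simp [PhiI, hτ]
          rw [e1] at h1 ⊢
          exact okF hκ hT hdim _ hu0 h1
      · by_cases hτ : τ (Sum.inr a) = true
        · have e1 : PhiI Q κ τ (Sum.inr a) = phiL Q := by simp [PhiI, hτ]
          rw [e1] at h1 ⊢
          exact okL _ hu0 hz.2.1 (h2 hτ)
        · have e1 : PhiI Q κ τ (Sum.inr a) = phiM Q := by simp [PhiI, hτ]
          rw [e1] at h1 ⊢
          exact okM _ hu0
    choose Φ' h1 h2 using key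
    exact ⟨A, Φ', hA, by omega, fun a => ⟨h1 a, h2 a⟩⟩
  · rw [sum_rk]
    omega

/-- the equations on stratum II -/
noncomputable def PhiII (Q : QStr E) (κ : skew Q.Γ → (E →L[ℝ] E)) {n m : ℕ}
    (a : Fin n ⊕ Fin m) : (E × ℍ[ℝ]) × SS Q → GG E :=
  match a with
  | .inl _ => phiB Q κ
  | .inr _ => fun _ => 0

/-- the bad set on stratum II -/
def ZII (Q : QStr E) (κ : skew Q.Γ → (E →L[ℝ] E)) (n m : ℕ) (e : E) :
    Set ((E × ℍ[ℝ]) × (Fin n ⊕ Fin m → SS Q)) :=
  {z | f2 Q e z.1 = 0 ∧ ∀ a, PhiII Q κ a (z.1, z.2 a) = 0}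

theorem dimII (hκ : ∀ s, HasStrictFDerivAt κ (κ' s) s) (hT : ∀ s, Tang Q (κ s) (κ' s))
    (hdim : 10 ≤ finrank ℝ E) {n m : ℕ} (hnm : finrank ℝ E < n * 2 + 2) (e : E)
    (hne : (ZII Q κ n m e).Nonempty) :
    dimH (Prod.snd '' (ZII Q κ n m e)) < (finrank ℝ (Fin n ⊕ Fin m → SS Q) : ENNReal) := by
  refine gen (ZII Q κ n m e) (finrank ℝ E - 2) (rk 2 0) (f2 Q e) (PhiII Q κ)
    (fun z hz => hz.1) (fun z hz a => hz.2 a) ?_ ?_ hne
  · intro z hz
    obtain ⟨A, hA, hAd⟩ := f2_deriv (Q := Q) e z.1 hz.1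
    have hu0 : z.1.1 ≠ 0 := by
      intro h0
      have e1 : Q.h z.1.1 e = 1 := sub_eq_zero.1 (congrArg Prod.fst hz.1)
      rw [h0, map_zero] at e1
      exact zero_ne_one e1
    have hβ0 : z.1.2 ≠ 0 := by
      intro h0
      have e3 : ⟪z.1.2, z.1.2⟫ = 1 :=
        sub_eq_zero.1 (congrArg (fun g : ℍ[ℝ] × ℝ × ℝ => g.2.2) hz.1)
      rw [h0, inner_zero_left] at e3
      exact zero_ne_one e3
    have key : ∀ a, BlockOK (PhiII Q κ a) (rk 2 0 a) (z.1, z.2 a) := by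
      intro a
      have h1 := hz.2 a
      rcases a with a | a
      · exact okB hκ hT _ h1 hu0 hβ0
      · exact blockOK_zero _
    choose Φ' h1 h2 using key
    exact ⟨A, Φ', hA, by omega, fun a => ⟨h1 a, h2 a⟩⟩
  · rw [sum_rk]
    omega

/-- existence of good parameters -/
theorem exists_params (hκ : ∀ s, HasStrictFDerivAt κ (κ' s) s) (hT : ∀ s, Tang Q (κ s) (κ' s))
    (hdim : 10 ≤ finrank ℝ E) {n m : ℕ} (hnm : 2 * finrank ℝ E < n * 3 + m * 1 + 6)
    (hn : finrank ℝ E < n * 2 + 2) :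
    ∃ s : Fin n ⊕ Fin m → SS Q, ∀ u v : E, ⟪u, v⟫ = 0 →
      (∀ a : Fin n, Q.h u (κ (s (.inl a)).1 v) = Q.h (κ (s (.inl a)).1 v) u) →
      (∀ b : Fin m, ⟪Q.h u (s (.inr b)).2, Q.h v (s (.inr b)).2⟫ = 0) → u = 0 ∨ v = 0 := by
  classical
  let bs := stdOrthonormalBasis ℝ E
  -- the bad sets
  let B : (Fin (finrank ℝ E) × (Fin n ⊕ Fin m → Bool)) ⊕ Fin (finrank ℝ E) →
      Set (Fin n ⊕ Fin m → SS Q) :=
    Sum.elim (fun p => Prod.snd '' (ZI Q κ (bs p.1) p.2))
      (fun i => Prod.snd '' (ZII Q κ n m (bs i)))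
  obtain ⟨s, hs⟩ := exists_good_pi (ι := Fin n ⊕ Fin m) (S := SS Q) B (by
    rintro (⟨i, τ⟩ | i) hne
    · exact dimI hκ hT hdim hnm _ _ (Set.image_nonempty.1 hne)
    · exact dimII hκ hT hdim hn _ (Set.image_nonempty.1 hne))
  refine ⟨s, fun u v huv hK hL => ?_⟩
  by_contra hcon
  push Not at hcon
  obtain ⟨hu0, hv0⟩ := hcon
  -- choose a coordinate
  obtain ⟨i, hi⟩ : ∃ i, Q.h u (bs i) ≠ 0 := by
    by_contra h
    push Not at h
    apply hu0
    rw [← bs.sum_repr u]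
    refine Finset.sum_eq_zero fun i _ => ?_
    have : bs.repr u i = 0 := by
      rw [bs.repr_apply_apply, real_inner_comm, ← Q.re_h, h i, Quaternion.re_zero]
    rw [this, zero_smul]
  set γ : ℍ[ℝ] := (Q.h u (bs i))⁻¹ with hγ
  have hγ0 : γ ≠ 0 := inv_ne_zero hi
  set u' : E := Q.L γ u with hu'
  have h1 : Q.h u' (bs i) = 1 := by rw [hu', Q.h_L, hγ, inv_mul_cancel₀ hi]
  -- the conditions are invariant
  have tr : ∀ x y : E, Q.h x y = Q.h y x → Q.h (Q.L γ x) (Q.L γ y) = Q.h (Q.L γ y) (Q.L γ x) := by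
    intro x y hxy
    rw [Q.h_L, Q.h_L_right, Q.h_L, Q.h_L_right, hxy]
  have hKu : ∀ (K : E →L[ℝ] E), K ∈ skew Q.Γ → ∀ t : ℝ, Q.h u (K v) = Q.h (K v) u →
      Q.h u' (K (t • Q.L γ v)) = Q.h (K (t • Q.L γ v)) u' := by
    intro K hK t h
    rw [map_smul, QStr.comm hK, map_smul, map_smul, smul_apply, hu', tr _ _ h]
  by_cases hcase : ∃ δ, v = Q.L δ u
  · -- stratum II
    obtain ⟨δ, rfl⟩ := hcase
    have hδ0 : δ ≠ 0 := by
      rintro rfl
      apply hv0
      rw [map_zero]; rfl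
    have hδn : ‖δ‖ ≠ 0 := norm_ne_zero_iff.2 hδ0
    have hδre : δ.re = 0 := by
      have h2 : ⟪u, Q.L δ u⟫ = ‖u‖ ^ 2 * δ.re := by
        rw [← Q.re_h, Q.h_L_right, Q.h_self, Quaternion.coe_mul_eq_smul, Quaternion.re_smul]
        simp
      rw [h2] at huv
      have := norm_ne_zero_iff.2 hu0
      exact (mul_eq_zero.1 huv).resolve_left (by positivity)
    set β : ℍ[ℝ] := ‖δ‖⁻¹ • (γ * δ * γ⁻¹) with hβ
    have hβu : Q.L β u' = ‖δ‖⁻¹ • Q.L γ (Q.L δ u) := by
      rw [hβ, hu', map_smul, smul_apply, ← Q.L_mul, ← Q.L_mul, mul_assoc, mul_assoc,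
        inv_mul_cancel₀ hγ0, mul_one]
    apply hs (Sum.inr i)
    refine ⟨((u', β), s), ⟨?_, ?_⟩, rfl⟩
    · refine Prod.ext ?_ (Prod.ext ?_ ?_)
      · show Q.h u' (bs i) - 1 = 0
        rw [h1, sub_self]
      · show ⟪β, (1 : ℍ[ℝ])⟫ = 0
        rw [hβ, inner_smul_left, Quaternion.inner_def, star_one, mul_one, mul_assoc,
          re_mul_comm', mul_assoc, inv_mul_cancel₀ hγ0, mul_one, hδre, mul_zero]
      · show ⟪β, β⟫ - 1 = 0
        have hb : ‖γ * δ * γ⁻¹‖ = ‖δ‖ := by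
          rw [norm_mul, norm_mul, norm_inv γ, mul_comm ‖γ‖, mul_assoc,
            mul_inv_cancel₀ (norm_ne_zero_iff.2 hγ0), mul_one]
        rw [real_inner_self_eq_norm_sq, hβ, norm_smul, hb, norm_inv, norm_norm,
          inv_mul_cancel₀ hδn]
        ring
    · rintro (a | b)
      · show phiB Q κ ((u', β), s (Sum.inl a)) = 0
        have := hKu _ (hT (s (.inl a)).1).mem ‖δ‖⁻¹ (hK a)
        rw [← hβu] at this
        refine Prod.ext ?_ rfl
        exact sub_eq_zero.2 this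
      · rfl
  · -- stratum I
    push Not at hcase
    have hγv : Q.L γ v ≠ 0 := fun h => (Q.L_eq_zero h).elim hγ0 hv0
    have hn0 : ‖Q.L γ v‖ ≠ 0 := norm_ne_zero_iff.2 hγv
    set v' : E := ‖Q.L γ v‖⁻¹ • Q.L γ v with hv'
    let τ : Fin n ⊕ Fin m → Bool := fun a => match a with
      | .inl a => decide (phiF Q κ ((u', v'), s (.inl a)) ≠ 0)
      | .inr b => decide (¬ (Q.h (s (.inr b)).2 u' = 0 ∧ Q.h (s (.inr b)).2 v' = 0))
    apply hs (Sum.inl (i, τ))
    refine ⟨((u', v'), s), ⟨?_, ?_, ?_⟩, rfl⟩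
    · refine Prod.ext ?_ (Prod.ext ?_ ?_)
      · show Q.h u' (bs i) - 1 = 0
        rw [h1, sub_self]
      · show ⟪v', v'⟫ - 1 = 0
        rw [real_inner_self_eq_norm_sq, hv', norm_smul, norm_inv, norm_norm, inv_mul_cancel₀ hn0]
        ring
      · show ⟪u', v'⟫ = 0
        have h3 : Q.h u v + Q.h v u = 0 := by
          rw [← Q.star_h u v]
          ext
          · simp [Q.re_h, huv]
          · simp
          · simp
          · simp
        have h2 : ⟪Q.L γ u, Q.L γ v⟫ = 0 := by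
          have h4 : 2 * ⟪Q.L γ u, Q.L γ v⟫ =
              (γ * (Q.h u v + Q.h v u) * star γ).re := by
            rw [two_mul]
            nth_rw 2 [real_inner_comm]
            rw [← Q.re_h, ← Q.re_h, Q.h_L, Q.h_L_right, Q.h_L, Q.h_L_right, mul_add, add_mul,
              Quaternion.re_add, mul_assoc, mul_assoc]
          rw [h3] at h4
          simp at h4
          exact h4
        rw [hv', inner_smul_right, hu', h2, mul_zero]
    · intro δ hδ
      apply hcase (γ⁻¹ * (‖Q.L γ v‖ : ℍ[ℝ]) * δ * γ)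
      have h2 : Q.L γ v = (‖Q.L γ v‖ : ℝ) • Q.L δ u' := by
        rw [← hδ]
        show Q.L γ v = ‖Q.L γ v‖ • (‖Q.L γ v‖⁻¹ • Q.L γ v)
        rw [smul_smul, mul_inv_cancel₀ hn0, one_smul]
      rw [Q.L_mul, Q.L_mul, Q.L_mul, ← hu', Q.L_coe, ← h2, ← Q.L_mul, inv_mul_cancel₀ hγ0, Q.L_one]
    · rintro (a | b)
      · refine ⟨?_, ?_⟩
        · by_cases hF : phiF Q κ ((u', v'), s (.inl a)) = 0
          · have e1 : PhiI Q κ τ (Sum.inl a) = phiF Q κ := by simp [PhiI, τ, hF]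
            rw [e1]
            exact hF
          · have e1 : PhiI Q κ τ (Sum.inl a) = phiE Q κ := by simp [PhiI, τ, hF]
            rw [e1]
            refine Prod.ext ?_ rfl
            exact sub_eq_zero.2 (hKu _ (hT (s (.inl a)).1).mem _ (hK a))
        · intro hτ
          simpa [τ] using hτ
      · refine ⟨?_, ?_⟩
        · by_cases hF : Q.h (s (.inr b)).2 u' = 0 ∧ Q.h (s (.inr b)).2 v' = 0
          · have e1 : PhiI Q κ τ (Sum.inr b) = phiM Q := by simp [PhiI, τ, hF]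
            rw [e1]
            refine Prod.ext ?_ rfl
            exact hF.1
          · have e1 : PhiI Q κ τ (Sum.inr b) = phiL Q := by
              simp only [PhiI, τ]
              rw [if_pos]
              exact decide_eq_true hF
            rw [e1]
            refine Prod.ext rfl (Prod.ext rfl ?_)
            show ⟪Q.h u' (s (.inr b)).2, Q.h v' (s (.inr b)).2⟫ = 0
            have h5 : ⟪Q.h (Q.L γ u) (s (.inr b)).2, Q.h (Q.L γ v) (s (.inr b)).2⟫ = 0 := by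
              rw [Q.h_L, Q.h_L, Quaternion.inner_def, star_mul, mul_assoc, re_mul_comm']
              have h6 := hL b
              rw [Quaternion.inner_def] at h6
              have h7 : Q.h u (s (.inr b)).2 * (star (Q.h v (s (.inr b)).2) * star γ) * γ =
                  Quaternion.normSq γ • (Q.h u (s (.inr b)).2 * star (Q.h v (s (.inr b)).2)) := by
                rw [mul_assoc, mul_assoc, Quaternion.star_mul_self, ← Quaternion.coe_commutes,
                  ← mul_assoc, ← Quaternion.coe_commutes, Quaternion.coe_mul_eq_smul]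
                rw [smul_mul_assoc]
              rw [h7, Quaternion.re_smul, h6, smul_zero]
            rw [hv', map_smul, smul_apply, inner_smul_right, hu', h5, mul_zero]
        · intro hτ
          exact of_decide_eq_true hτ

end QD24
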